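import Mathlib

/-!
The arithmetic part: inequalities between the parameters of a hypothetical `λ`-design that is not
of type 1.
-/

namespace Pool.Agent.Lib.MP_93e743_co

/-- The parameters of a `λ`-design that is not type-1. Here `s = x + y`, `m = x - y = m' d`,
`N` is the exceptional value, `a = N - n⁻`, `b = n⁺ - N`. -/
structure Params (x y g d m' N ρ a b : ℤ) : Prop where
  hy : 0 < y
  hg : 0 < g
  hd : 3 ≤ d
  hm' : 0 < m'
  hm : x = y + m' * d
  hρ0 : 0 < ρ
  hρ : ρ < m' * d
  hN : (x + y) * N = y * (g * x + 1) + ρ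
  ha : m' ≤ a
  hb : m' ≤ b
  hab : a + b = m' * d
  var : ((x + y) ^ 2 * a - ((x + y) * ρ - y * (m' * d))) *
      ((x + y) ^ 2 * b + ((x + y) * ρ - y * (m' * d))) ≤
      x * y * (m' * d) ^ 2 * (g * (x + y) + 1)
  dvda : d ^ 2 ∣ (g * (x + y) + 2) * (N - a) - (g * x + 1) * (g * y + 1)
  dvdb : d ^ 2 ∣ (g * (x + y) + 2) * (N + b) - (g * x + 1) * (g * y + 1)

namespace Params

variable {x y g d m' N ρ a b : ℤ}

lemma mpos (h : Params x y g d m' N ρ a b) : 0 < m' * d :=
  mul_pos h.hm' (by linarith [h.hd])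

lemma hx (h : Params x y g d m' N ρ a b) : 0 < x := by
  have := h.mpos; have := h.hy; have := h.hm; linarith

/-- There is `c` (the smaller of the two distances) with good bounds. -/
theorem exists_c (h : Params x y g d m' N ρ a b) :
    ∃ c p : ℤ, (c = a ∨ c = b) ∧ m' ≤ c ∧ 0 < p ∧ (x + y) ^ 2 * c < p + x * (m' * d) ∧
      2 * p ≤ (x + y) ^ 2 * (m' * d) ∧
      p * ((x + y) ^ 2 * (m' * d) - p) ≤ x * y * (m' * d) ^ 2 * (g * (x + y) + 1) := by
  have hy := h.hy
  have hx := h.hx
  have hd := h.hd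
  have hm' := h.hm'
  have hmp := h.mpos
  set m := m' * d with hm
  set s := x + y with hs
  have hms : m < s := by have := h.hm; rw [hs]; linarith
  have hds : d < s := by
    have : d ≤ m := by rw [hm]; nlinarith
    linarith
  set P1 := s ^ 2 * a - (s * ρ - y * m) with hP1
  set P2 := s ^ 2 * b + (s * ρ - y * m) with hP2
  have hsum : P1 + P2 = s ^ 2 * m := by
    rw [hP1, hP2]
    have := h.hab
    linear_combination s ^ 2 * this
  have hs0 : 0 < s := by linarith
  have h1 : s * ρ < s * m := by have := h.hρ; nlinarith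
  have h2 : 0 < s * ρ := by have := h.hρ0; positivity
  have hxm : s * m - y * m = x * m := by rw [hs]; ring
  have hlow1 : s ^ 2 * a < P1 + x * m := by rw [hP1]; nlinarith
  have hlow2 : s ^ 2 * b < P2 + y * m := by rw [hP2]; nlinarith
  have hxs : x < s := by linarith
  have hys : y < s := by linarith
  have hxd : x * d < s ^ 2 := by nlinarith
  have hyd : y * d < s ^ 2 := by nlinarith
  have hP1pos : 0 < P1 := by
    have h3 : x * m ≤ s ^ 2 * m' := by rw [hm]; nlinarith
    have h4 : s ^ 2 * m' ≤ s ^ 2 * a := by have := h.ha; nlinarith [sq_nonneg s]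
    linarith
  have hP2pos : 0 < P2 := by
    have h3 : y * m ≤ s ^ 2 * m' := by rw [hm]; nlinarith
    have h4 : s ^ 2 * m' ≤ s ^ 2 * b := by have := h.hb; nlinarith [sq_nonneg s]
    linarith
  have hvar : P1 * P2 ≤ x * y * m ^ 2 * (g * s + 1) := h.var
  rcases le_total P1 P2 with hle | hle
  · refine ⟨a, P1, Or.inl rfl, h.ha, hP1pos, hlow1, by linarith, ?_⟩
    have : s ^ 2 * m - P1 = P2 := by linarith
    rw [this]; exact hvar
  · refine ⟨b, P2, Or.inr rfl, h.hb, hP2pos, ?_, by linarith, ?_⟩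
    · have : y * m < x * m := by
        have := h.hm; nlinarith
      linarith
    · have : s ^ 2 * m - P2 = P1 := by linarith
      rw [this, mul_comm]; exact hvar

/-- First inequality. -/
theorem ineq_one (h : Params x y g d m' N ρ a b) : 2 * (x + y) < (g + 2) * d := by
  obtain ⟨c, p, hc, hmc, hp, hcp, h2p, hpp⟩ := h.exists_c
  have hy := h.hy
  have hx := h.hx
  have hd := h.hd
  have hm' := h.hm'
  have hg := h.hg
  have hmp := h.mpos
  set m := m' * d with hm
  set s := x + y with hs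
  have hs0 : 0 < s := by linarith
  have hv : 0 < g * s + 1 := by positivity
  -- p * s^2 m / 2 ≤ xym^2 v
  have h1 : p * (s ^ 2 * m) ≤ 2 * (x * y * m ^ 2 * (g * s + 1)) := by nlinarith
  have h4 : 4 * (x * y) ≤ s ^ 2 := by rw [hs]; nlinarith [sq_nonneg (x - y)]
  have h5 : 2 * p * (s ^ 2 * m) ≤ (m * (g * s + 1)) * (s ^ 2 * m) := by
    have : 4 * (x * y) * (m ^ 2 * (g * s + 1)) ≤ s ^ 2 * (m ^ 2 * (g * s + 1)) :=
      mul_le_mul_of_nonneg_right h4 (by positivity)
    nlinarith
  have h6 : 2 * p ≤ m * (g * s + 1) := le_of_mul_le_mul_right h5 (by positivity)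
  have h7 : 2 * (s ^ 2 * m') < m * (g * s + 1) + 2 * (x * m) := by
    have : s ^ 2 * m' ≤ s ^ 2 * c := mul_le_mul_of_nonneg_left hmc (by positivity)
    linarith
  have h8 : m' * (2 * s ^ 2) < m' * (d * (g * s + 1 + 2 * x)) := by
    rw [hm] at h7; nlinarith
  have h9 : 2 * s ^ 2 < d * (g * s + 1 + 2 * x) := lt_of_mul_lt_mul_left h8 (by linarith)
  have h10 : d * (g * s + 1 + 2 * x) ≤ d * (g * s + 2 * s) := by
    apply mul_le_mul_of_nonneg_left _ (by linarith)
    have : x + 1 ≤ s := by rw [hs]; linarith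
    linarith
  have h11 : s * (2 * s) < s * ((g + 2) * d) := by nlinarith
  exact lt_of_mul_lt_mul_left h11 hs0.le

/-- `d ^ 2 < (v + 1) (c + 1)`. -/
theorem d_sq_lt (h : Params x y g d m' N ρ a b) {c : ℤ} (hc : c = a ∨ c = b) (hmc : m' ≤ c) :
    d ^ 2 < (g * (x + y) + 2) * (c + 1) := by
  have hy := h.hy
  have hx := h.hx
  have hd := h.hd
  have hm' := h.hm'
  have hg := h.hg
  have hmp := h.mpos
  set m := m' * d with hm
  set s := x + y with hs
  have hs0 : 0 < s := by linarith
  set r := g * x + 1 with hr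
  set r' := g * y + 1 with hr'
  set V := g * s + 2 with hV
  have hVr : V = r + r' := by rw [hV, hr, hr', hs]; ring
  have hr0 : 0 < r := by positivity
  have hr'0 : 0 < r' := by positivity
  -- e0 = V N - r r'
  set e := V * N - r * r' with he
  have he1 : e = g * ρ + 2 * N - r := by
    rw [he, hV, hr', hr]
    have := h.hN
    linear_combination g * this
  have hms : m < s := by have := h.hm; rw [hs]; linarith
  have hN0 : 0 < N := by
    have h1 := h.hN
    have h2 : 0 < s * N := by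
      rw [h1]; have := h.hρ0; positivity
    exact (mul_pos_iff_of_pos_left hs0).mp h2
  have hρ := h.hρ
  have hρ0 := h.hρ0
  have hlow : -V < e := by
    rw [he1]
    have : 0 < g * ρ := by positivity
    have : r ≤ V := by rw [hVr]; linarith
    linarith
  have hup : e < V := by
    rw [he1]
    -- 2 s N = 2 y r + 2 ρ
    have h1 : s * N = y * r + ρ := h.hN
    have h2 : 2 * y < s := by have := h.hm; rw [hs]; linarith
    have h3 : s * (2 * N) < s * (r + 2) := by
      have h4 : 2 * y * r < s * r := by nlinarith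
      nlinarith
    have h4 : 2 * N < r + 2 := lt_of_mul_lt_mul_left h3 hs0.le
    have h5 : g * ρ ≤ g * (s - 2) := by
      apply mul_le_mul_of_nonneg_left _ hg.le
      linarith
    have h6 : g * (s - 2) = V - 2 - 2 * g := by rw [hV]; ring
    linarith
  have hVpos : 0 < V := by rw [hVr]; linarith
  -- general statement
  have main : ∀ n : ℤ, n ≠ N → d ^ 2 ∣ V * n - r * r' → d ^ 2 < V * (|n - N| + 1) := by
    intro n hn hdvd
    have h1 : V * n - r * r' = V * (n - N) + e := by rw [he]; ring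
    rw [h1] at hdvd
    have hne : V * (n - N) + e ≠ 0 := by
      intro h0
      have h2 : V * |n - N| = |e| := by
        have : V * (n - N) = -e := by linarith
        rw [← abs_neg e, ← this, abs_mul, abs_of_pos hVpos]
      have h3 : |e| < V := abs_lt.mpr ⟨hlow, hup⟩
      have h4 : 1 ≤ |n - N| := Int.one_le_abs (sub_ne_zero.mpr hn)
      nlinarith
    have h5 : d ^ 2 ≤ |V * (n - N) + e| := by
      have := Int.le_of_dvd (abs_pos.mpr hne) ((dvd_abs _ _).mpr hdvd)
      exact this
    have h6 : |V * (n - N) + e| ≤ V * |n - N| + |e| := by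
      refine (abs_add_le _ _).trans ?_
      rw [abs_mul, abs_of_pos hVpos]
    have h3 : |e| < V := abs_lt.mpr ⟨hlow, hup⟩
    nlinarith
  have hc0 : 0 < c := by linarith
  rcases hc with rfl | rfl
  · have := main (N - c) (by intro h; linarith) h.dvda
    have h1 : |N - c - N| = c := by
      rw [show N - c - N = -c by ring, abs_neg, abs_of_pos hc0]
    rwa [h1] at this
  · have := main (N + c) (by intro h; linarith) h.dvdb
    have h1 : |N + c - N| = c := by
      rw [show N + c - N = c by ring, abs_of_pos hc0]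
    rwa [h1] at this

/-- Second inequality. -/
theorem ineq_two (h : Params x y g d m' N ρ a b) : 64 * (x + y) < (g + 5) ^ 4 := by
  by_contra hcon
  rw [not_lt] at hcon
  obtain ⟨c, p, hc, hmc, hp, hcp, h2p, hpp⟩ := h.exists_c
  have hdsq := h.d_sq_lt hc hmc
  have hy := h.hy
  have hx := h.hx
  have hd := h.hd
  have hm' := h.hm'
  have hg := h.hg
  have hmp := h.mpos
  have hms' : m' * d < x + y := by have := h.hm; linarith
  set m := m' * d with hm
  set s := x + y with hs
  have hs0 : 0 < s := by linarith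
  set v := g * s + 1 with hv
  have hv0 : 0 < v := by positivity
  have hc0 : 0 < c := by linarith
  -- s ≥ (g+1)^2
  have hsg : (g + 1) ^ 2 ≤ s := by
    have h1 : 64 * (g + 1) ^ 2 ≤ (g + 5) ^ 4 := by
      have h2 : 8 * (g + 1) ≤ (g + 5) ^ 2 := by nlinarith
      have h3 : (8 * (g + 1)) ^ 2 ≤ ((g + 5) ^ 2) ^ 2 := by
        apply pow_le_pow_left₀ (by positivity) h2
      calc 64 * (g + 1) ^ 2 = (8 * (g + 1)) ^ 2 := by ring
        _ ≤ ((g + 5) ^ 2) ^ 2 := h3
        _ = (g + 5) ^ 4 := by ring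
    linarith
  have h4xy : 4 * (x * y) ≤ s ^ 2 := by rw [hs]; nlinarith [sq_nonneg (x - y)]
  -- (b)
  have hb : 4 * (p * (s ^ 2 * m - p)) ≤ s ^ 2 * (m ^ 2 * v) := by
    have : 4 * (x * y) * (m ^ 2 * v) ≤ s ^ 2 * (m ^ 2 * v) :=
      mul_le_mul_of_nonneg_right h4xy (by positivity)
    nlinarith
  -- (c)
  have hc1 : 2 * p ≤ m * v := by
    have h1 : 2 * p * (s ^ 2 * m) ≤ 4 * (p * (s ^ 2 * m - p)) := by nlinarith
    have h2 : 2 * p * (s ^ 2 * m) ≤ (m * v) * (s ^ 2 * m) := by nlinarith
    exact le_of_mul_le_mul_right h2 (by positivity)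
  -- (d)
  have hd1 : 4 * p * s ^ 2 ≤ m * v * (s ^ 2 + v) := by
    have h1 : m * (4 * p * s ^ 2) ≤ m * (m * v * (s ^ 2 + v)) := by
      have h2 : 4 * p ^ 2 ≤ (m * v) ^ 2 := by
        have := pow_le_pow_left₀ (by positivity : 0 ≤ 2 * p) hc1 2
        nlinarith
      nlinarith
    exact le_of_mul_le_mul_left h1 hmp
  -- (e)
  have he : 4 * s * c < m * (g + 5) := by
    have h1 : 4 * s ^ 4 * c < m * v * (s ^ 2 + v) + 4 * (x * m) * s ^ 2 := by
      have : (s ^ 2 * c) * (4 * s ^ 2) < (p + x * m) * (4 * s ^ 2) :=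
        mul_lt_mul_of_pos_right hcp (by positivity)
      nlinarith
    have h2 : v ^ 2 ≤ s ^ 2 * (g + 1) ^ 2 := by
      have h3 : v ≤ s * (g + 1) := by rw [hv]; nlinarith
      calc v ^ 2 ≤ (s * (g + 1)) ^ 2 := pow_le_pow_left₀ hv0.le h3 2
        _ = s ^ 2 * (g + 1) ^ 2 := by ring
    have h3 : m * v * (s ^ 2 + v) + 4 * (x * m) * s ^ 2 ≤ s ^ 2 * (m * (v + (g + 1) ^ 2 + 4 * x)) := by
      have := mul_le_mul_of_nonneg_left h2 hmp.le
      nlinarith
    have h4 : v + (g + 1) ^ 2 + 4 * x ≤ s * (g + 5) := by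
      have : x + 1 ≤ s := by rw [hs]; linarith
      rw [hv]; nlinarith
    have h5 : s ^ 2 * (m * (v + (g + 1) ^ 2 + 4 * x)) ≤ s ^ 2 * (m * (s * (g + 5))) :=
      mul_le_mul_of_nonneg_left (mul_le_mul_of_nonneg_left h4 hmp.le) (by positivity)
    have h6 : s ^ 3 * (4 * s * c) < s ^ 3 * (m * (g + 5)) := by nlinarith
    exact lt_of_mul_lt_mul_left h6 (by positivity)
  -- (f)
  have hf : 4 * s < d * (g + 5) := by
    have h1 : m' * (4 * s) ≤ 4 * s * c := by nlinarith
    have h2 : m' * (4 * s) < m' * (d * (g + 5)) := by rw [hm] at he; nlinarith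
    exact lt_of_mul_lt_mul_left h2 hm'.le
  -- (g)
  have hg1 : 4 * (m' + 1) < g + 9 := by
    have h1 : d * (4 * m') < d * (g + 5) := by rw [hm] at hms'; nlinarith
    have := lt_of_mul_lt_mul_left h1 (by linarith : 0 ≤ d)
    linarith
  -- (h)
  have hh : 4 * d < (g + 1) * (m' + 1) * (g + 5) := by
    have h1 : m' * (c + 1) ≤ (m' + 1) * c := by nlinarith
    have h2 : m' * d ^ 2 < (g * s + 2) * ((m' + 1) * c) := by
      have h3 : m' * d ^ 2 < m' * ((g * s + 2) * (c + 1)) := mul_lt_mul_of_pos_left hdsq hm'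
      have h4 : (g * s + 2) * (m' * (c + 1)) ≤ (g * s + 2) * ((m' + 1) * c) :=
        mul_le_mul_of_nonneg_left h1 (by positivity)
      nlinarith
    have h3 : 4 * s * (m' * d ^ 2) < (g * s + 2) * (m' + 1) * (m * (g + 5)) := by
      have h4 : 4 * s * (m' * d ^ 2) < 4 * s * ((g * s + 2) * ((m' + 1) * c)) :=
        mul_lt_mul_of_pos_left h2 (by positivity)
      have h5 : (g * s + 2) * (m' + 1) * (4 * s * c) ≤ (g * s + 2) * (m' + 1) * (m * (g + 5)) :=
        mul_le_mul_of_nonneg_left he.le (by positivity)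
      nlinarith
    have h4 : (m' * d) * (4 * s * d) < (m' * d) * ((g * s + 2) * (m' + 1) * (g + 5)) := by
      rw [hm] at h3; nlinarith
    have h5 : 4 * s * d < (g * s + 2) * (m' + 1) * (g + 5) :=
      lt_of_mul_lt_mul_left h4 (by rw [← hm]; exact hmp.le)
    have h6 : (g * s + 2) * ((m' + 1) * (g + 5)) ≤ (s * (g + 1)) * ((m' + 1) * (g + 5)) := by
      apply mul_le_mul_of_nonneg_right _ (by positivity)
      have : 2 ≤ s := by rw [hs]; linarith
      nlinarith
    have h7 : s * (4 * d) < s * ((g + 1) * (m' + 1) * (g + 5)) := by nlinarith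
    exact lt_of_mul_lt_mul_left h7 hs0.le
  -- (i)
  have hi : 16 * d < (g + 1) * (g + 5) * (g + 9) := by
    have h1 : (g + 1) * (g + 5) * (4 * (m' + 1)) ≤ (g + 1) * (g + 5) * (g + 9) :=
      mul_le_mul_of_nonneg_left hg1.le (by positivity)
    nlinarith
  -- (j)
  have hj : 64 * s < (g + 5) ^ 4 := by
    have h1 : 64 * s < 16 * d * (g + 5) := by linarith
    have h2 : 16 * d * (g + 5) ≤ (g + 1) * (g + 5) * (g + 9) * (g + 5) :=
      mul_le_mul_of_nonneg_right hi.le (by positivity)
    have h3 : (g + 1) * (g + 5) * (g + 9) * (g + 5) ≤ (g + 5) ^ 4 := by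
      have : (g + 1) * (g + 9) ≤ (g + 5) ^ 2 := by nlinarith
      have := mul_le_mul_of_nonneg_right this (by positivity : 0 ≤ (g + 5) ^ 2)
      nlinarith
    linarith
  linarith

end Params

end Pool.Agent.Lib.MP_93e743_co
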