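import Mathlib

/-!
Basic definitions for the λ-design conjecture.
-/

namespace Pool.Agent.Lib.MP_93e743_co

/-- A `λ`-design on `v` points: `v` blocks, any two of them meet in exactly `λ ≥ 1` points, every
block has more than `λ` points, and not all blocks have the same size. -/
structure IsLambdaDesign (v lam : ℕ) (L : Finset (Finset (Fin v))) : Prop where
  one_le : 1 ≤ lam
  card_eq : L.card = v
  inter : ∀ B ∈ L, ∀ B' ∈ L, B ≠ B' → (B ∩ B').card = lam
  lt_card : ∀ B ∈ L, lam < B.card
  nonconst : ∃ B ∈ L, ∃ B' ∈ L, B.card ≠ B'.card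

/-- `L` is type-1: it is obtained from a symmetric design `S` and a block `C₀` of `S` by
complementation. -/
def IsType1 (v : ℕ) (L : Finset (Finset (Fin v))) : Prop :=
  ∃ (k lam' : ℕ) (S : Finset (Finset (Fin v))),
    S.card = v ∧
    (∀ C ∈ S, C.card = k) ∧
    (∀ x y : Fin v, x ≠ y →
      (S.filter (fun C => x ∈ C ∧ y ∈ C)).card = lam') ∧
    ∃ C0 ∈ S,
      L = insert (Finset.univ \ C0)
            ((S.erase C0).image (fun C => (C \ C0) ∪ (C0 \ C)))

/-- The number of blocks that contain the point `P`. -/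
def repl {v : ℕ} (L : Finset (Finset (Fin v))) (P : Fin v) : ℕ :=
  (L.filter (fun B => P ∈ B)).card

/-- For two points `P`, `Q` with replication numbers `r₁ > r₂`: the number
`g = gcd (r₁ - 1, r₂ - 1)`. -/
def rgcd {v : ℕ} (L : Finset (Finset (Fin v))) (P Q : Fin v) : ℕ :=
  Nat.gcd (repl L P - 1) (repl L Q - 1)

end Pool.Agent.Lib.MP_93e743_co
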