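import Pool.Agent.Lib.MP_93e743_co.Dich

/-!
From a `λ`-design to a system of pairwise independent events.
-/

namespace Pool.Agent.Lib.MP_93e743_co

open Finset

variable {v lam : ℕ} {L : Finset (Finset (Fin v))}

/-- The sets of the system attached to a `λ`-design and a set `E` of points. -/
def setOf' (L : Finset (Finset (Fin v))) (E : Finset (Fin v)) :
    Option {B // B ∈ L} → Finset (Fin v)
  | none => E
  | some B => symmDiff B.1 E

/-- The numbers of the system attached to a `λ`-design. -/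
def numOf (L : Finset (Finset (Fin v))) (lam : ℕ) : Option {B // B ∈ L} → ℕ
  | none => lam
  | some B => B.1.card - lam

/-- Incidence. -/
def inc (B : Finset (Fin v)) (P : Fin v) : ℚ := if P ∈ B then 1 else 0

lemma inc_mul_self (B : Finset (Fin v)) (P : Fin v) : inc B P * inc B P = inc B P := by
  unfold inc; split <;> norm_num

lemma sum_inc (B : Finset (Fin v)) : ∑ P, inc B P = B.card := by
  unfold inc; rw [Finset.sum_boole]; congr 2; ext P; simp

lemma sum_inc_mul (B B' : Finset (Fin v)) : ∑ P, inc B P * inc B' P = (B ∩ B').card := by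
  rw [← sum_inc]
  refine Finset.sum_congr rfl fun P _ => ?_
  unfold inc
  by_cases h1 : P ∈ B <;> by_cases h2 : P ∈ B' <;> simp [h1, h2]

/-- The weight `∑_{B ∋ P} 1 / (|B| - λ)`. -/
noncomputable def wt (L : Finset (Finset (Fin v))) (lam : ℕ) (P : Fin v) : ℚ :=
  ∑ B : {B // B ∈ L}, inc B.1 P * ((B.1.card : ℚ) - lam)⁻¹

noncomputable def sg (L : Finset (Finset (Fin v))) (lam : ℕ) : ℚ :=
  ∑ B : {B // B ∈ L}, ((B.1.card : ℚ) - lam)⁻¹

noncomputable def cst (L : Finset (Finset (Fin v))) (lam : ℕ) : ℚ :=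
  (lam : ℚ) * (1 + lam * sg L lam)⁻¹

namespace IsLambdaDesign

lemma npos (h : IsLambdaDesign v lam L) (B : {B // B ∈ L}) : (0 : ℚ) < (B.1.card : ℚ) - lam := by
  have := h.lt_card B.1 B.2
  have : (lam : ℚ) < B.1.card := by exact_mod_cast this
  linarith

lemma lampos (h : IsLambdaDesign v lam L) : (0 : ℚ) < lam := by
  have := h.one_le
  exact_mod_cast this

lemma sg_nonneg (h : IsLambdaDesign v lam L) : 0 ≤ sg L lam :=
  Finset.sum_nonneg fun B _ => (inv_pos.mpr (h.npos B)).le

lemma den_pos (h : IsLambdaDesign v lam L) : 0 < 1 + lam * sg L lam := by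
  have h1 := h.sg_nonneg
  have h2 := h.lampos
  positivity

lemma cst_pos (h : IsLambdaDesign v lam L) : 0 < cst L lam :=
  mul_pos h.lampos (inv_pos.mpr h.den_pos)

lemma gram (h : IsLambdaDesign v lam L) (B B' : {B // B ∈ L}) :
    ∑ P, inc B.1 P * inc B'.1 P = lam + if B = B' then (B.1.card : ℚ) - lam else 0 := by
  rw [sum_inc_mul]
  by_cases hB : B = B'
  · subst hB
    rw [if_pos rfl, Finset.inter_self]
    ring
  · rw [if_neg hB, add_zero]
    have := h.inter B.1 B.2 B'.1 B'.2 (fun h' => hB (Subtype.ext h'))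
    exact_mod_cast this

lemma sum_inc_wt (h : IsLambdaDesign v lam L) (B : {B // B ∈ L}) :
    ∑ P, inc B.1 P * wt L lam P = 1 + lam * sg L lam := by
  unfold wt
  have h1 : ∀ P, inc B.1 P * ∑ B' : {B // B ∈ L}, inc B'.1 P * ((B'.1.card : ℚ) - lam)⁻¹ =
      ∑ B' : {B // B ∈ L}, inc B.1 P * inc B'.1 P * ((B'.1.card : ℚ) - lam)⁻¹ := by
    intro P
    rw [Finset.mul_sum]
    exact Finset.sum_congr rfl fun B' _ => by ring
  simp_rw [h1]
  rw [Finset.sum_comm]
  have h2 : ∀ B' : {B // B ∈ L}, ∑ P, inc B.1 P * inc B'.1 P * ((B'.1.card : ℚ) - lam)⁻¹ =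
      lam * ((B'.1.card : ℚ) - lam)⁻¹ + if B = B' then 1 else 0 := by
    intro B'
    rw [← Finset.sum_mul, h.gram B B']
    have := (h.npos B').ne'
    split
    · next hB => subst hB; rw [add_mul, mul_inv_cancel₀ this]
    · rw [add_zero, add_zero]
  simp_rw [h2]
  rw [Finset.sum_add_distrib, ← Finset.mul_sum, Finset.sum_ite_eq, if_pos (Finset.mem_univ _)]
  unfold sg
  ring

/-- The column relations. -/
theorem col (h : IsLambdaDesign v lam L) (P Q : Fin v) :
    ∑ B : {B // B ∈ L}, inc B.1 P * inc B.1 Q * ((B.1.card : ℚ) - lam)⁻¹ =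
      cst L lam * wt L lam P * wt L lam Q + if P = Q then 1 else 0 := by
  let N : Matrix {B // B ∈ L} (Fin v) ℚ := fun B P => inc B.1 P
  let R : Matrix (Fin v) {B // B ∈ L} ℚ := fun P B =>
    (inc B.1 P - cst L lam * wt L lam P) * ((B.1.card : ℚ) - lam)⁻¹
  have hNR : N * R = 1 := by
    ext B B'
    rw [Matrix.mul_apply]
    simp only [N, R]
    have h1 : ∀ P, inc B.1 P * ((inc B'.1 P - cst L lam * wt L lam P) *
        ((B'.1.card : ℚ) - lam)⁻¹) = (inc B.1 P * inc B'.1 P) * ((B'.1.card : ℚ) - lam)⁻¹ -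
          cst L lam * ((B'.1.card : ℚ) - lam)⁻¹ * (inc B.1 P * wt L lam P) := by
      intro P; ring
    simp_rw [h1]
    rw [Finset.sum_sub_distrib, ← Finset.sum_mul, ← Finset.mul_sum, h.gram B B', h.sum_inc_wt B]
    have h2 := (h.npos B').ne'
    have h3 := h.den_pos.ne'
    have h4 : cst L lam * (1 + lam * sg L lam) = lam := by
      unfold cst
      rw [mul_assoc, inv_mul_cancel₀ h3, mul_one]
    have h5 : cst L lam * ((B'.1.card : ℚ) - lam)⁻¹ * (1 + lam * sg L lam) =
        lam * ((B'.1.card : ℚ) - lam)⁻¹ := by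
      rw [mul_right_comm, h4]
    rw [h5, Matrix.one_apply]
    by_cases hB : B = B'
    · subst hB
      rw [if_pos rfl, if_pos rfl, add_mul, mul_inv_cancel₀ h2]
      ring
    · rw [if_neg hB, if_neg hB]
      ring
  have hRN : R * N = 1 := by
    rw [Matrix.mul_eq_one_comm_of_card_eq]
    · exact hNR
    · rw [Fintype.card_coe, Fintype.card_fin, h.card_eq]
  have h1 := congrFun (congrFun hRN P) Q
  rw [Matrix.mul_apply, Matrix.one_apply] at h1
  simp only [N, R] at h1
  have h2 : ∀ B : {B // B ∈ L}, (inc B.1 P - cst L lam * wt L lam P) *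
      ((B.1.card : ℚ) - lam)⁻¹ * inc B.1 Q = inc B.1 P * inc B.1 Q * ((B.1.card : ℚ) - lam)⁻¹ -
        cst L lam * wt L lam P * (inc B.1 Q * ((B.1.card : ℚ) - lam)⁻¹) := by
    intro B; ring
  simp_rw [h2] at h1
  rw [Finset.sum_sub_distrib, ← Finset.mul_sum] at h1
  change _ - cst L lam * wt L lam P * wt L lam Q = _ at h1
  linarith

theorem wt_eq (h : IsLambdaDesign v lam L) (P : Fin v) :
    wt L lam P = cst L lam * wt L lam P * wt L lam P + 1 := by
  have h1 := h.col P P
  rw [if_pos rfl] at h1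
  rw [← h1]
  unfold wt
  exact Finset.sum_congr rfl fun B _ => by rw [inc_mul_self]

theorem wt_pos (h : IsLambdaDesign v lam L) (P : Fin v) : 0 < wt L lam P := by
  have h1 := h.wt_eq P
  have h2 := h.cst_pos
  have h3 : 0 ≤ cst L lam * wt L lam P * wt L lam P := by
    rw [mul_assoc]; exact mul_nonneg h2.le (mul_self_nonneg _)
  linarith

theorem exists_wt_lt (h : IsLambdaDesign v lam L) : ∃ P Q, wt L lam Q < wt L lam P := by
  by_contra hcon
  push Not at hcon
  obtain ⟨B, hB, B', hB', hne⟩ := h.nonconst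
  have hconst : ∀ P Q, wt L lam P = wt L lam Q := fun P Q => le_antisymm (hcon P Q) (hcon Q P)
  have hBne : B.Nonempty := by
    rw [← Finset.card_pos]; have := h.lt_card B hB; omega
  obtain ⟨P0, -⟩ := hBne
  have h1 : ∀ B : {B // B ∈ L}, (B.1.card : ℚ) * wt L lam P0 = 1 + lam * sg L lam := by
    intro B
    rw [← h.sum_inc_wt B, ← sum_inc, Finset.sum_mul]
    exact Finset.sum_congr rfl fun P _ => by rw [hconst P P0]
  have h2 := (h1 ⟨B, hB⟩).trans (h1 ⟨B', hB'⟩).symm
  have h3 := mul_right_cancel₀ (h.wt_pos P0).ne' h2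
  exact hne (by exact_mod_cast h3)

theorem one_lt_v (h : IsLambdaDesign v lam L) : 1 < v := by
  obtain ⟨B, hB, B', hB', hne⟩ := h.nonconst
  have h1 : 1 < L.card := Finset.one_lt_card.mpr ⟨B, hB, B', hB', fun h' => hne (by rw [h'])⟩
  rwa [h.card_eq] at h1

/-- The system of pairwise independent events. -/
theorem exists_sys (h : IsLambdaDesign v lam L) :
    ∃ (E : Finset (Fin v)) (α : ℚ), E ≠ ∅ ∧ E ≠ univ ∧ Sys (setOf' L E) (numOf L lam) α := by
  classical
  obtain ⟨P0, Q0, hlt⟩ := h.exists_wt_lt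
  set w1 := wt L lam P0 with hw1
  set w2 := wt L lam Q0 with hw2
  set c := cst L lam with hc
  have hcpos : 0 < c := h.cst_pos
  have h1 : w1 = c * w1 * w1 + 1 := h.wt_eq P0
  have h2 : w2 = c * w2 * w2 + 1 := h.wt_eq Q0
  have hsum : c * (w1 + w2) = 1 := by
    have h3 : (w1 - w2) * (c * (w1 + w2)) = (w1 - w2) * 1 := by linear_combination h2 - h1
    exact mul_left_cancel₀ (sub_ne_zero.mpr hlt.ne') h3
  have hprod : c * w1 * w2 = 1 := by
    have : c * w1 * w2 = w1 - c * w1 * w1 := by linear_combination w1 * hsum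
    rw [this]; linarith
  have hw1p : 0 < w1 := h.wt_pos P0
  have hw2p : 0 < w2 := h.wt_pos Q0
  have htwo : ∀ P, wt L lam P = w1 ∨ wt L lam P = w2 := by
    intro P
    by_cases h3 : wt L lam P = w1
    · exact Or.inl h3
    · right
      have h4 : wt L lam P = c * wt L lam P * wt L lam P + 1 := h.wt_eq P
      have h5 : c * (w1 + wt L lam P) = 1 := by
        have h6 : (w1 - wt L lam P) * (c * (w1 + wt L lam P)) = (w1 - wt L lam P) * 1 := by
          linear_combination h4 - h1
        exact mul_left_cancel₀ (sub_ne_zero.mpr (Ne.symm h3)) h6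
      have h7 : c * (w1 + wt L lam P) = c * (w1 + w2) := by rw [h5, hsum]
      have h8 := mul_left_cancel₀ hcpos.ne' h7
      linarith
  let E : Finset (Fin v) := univ.filter fun P => wt L lam P = w2
  have hE : ∀ P, P ∈ E ↔ wt L lam P = w2 := by intro P; simp [E]
  have hE' : ∀ P, P ∉ E ↔ wt L lam P = w1 := by
    intro P
    rw [hE]
    constructor
    · intro h3; exact (htwo P).resolve_right h3
    · intro h3 h4; rw [h3] at h4; linarith
  have hα1 : 1 - c * w1 = c * w2 := by linarith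
  have hinv1 : (1 - c * w1)⁻¹ = w1 := by
    rw [hα1]
    have : c * w2 * w1 = 1 := by linarith [hprod, mul_right_comm c w1 w2]
    exact (eq_inv_of_mul_eq_one_right this).symm
  have hαα : c * w1 * (1 - c * w1) = c := by
    rw [hα1]; linear_combination c * hprod
  have hcinv : (lam : ℚ)⁻¹ + sg L lam = c⁻¹ := by
    rw [hc]
    unfold cst
    have := h.lampos.ne'
    have := h.den_pos.ne'
    rw [mul_inv, inv_inv]
    field_simp
  have hsumw : c⁻¹ = w1 + w2 := (eq_inv_of_mul_eq_one_right hsum).symm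
  -- value of chi
  have hcn : ∀ P, P ∉ E → chi (setOf' L E) none P = 0 := by
    intro P hP; simp [chi, setOf', hP]
  have hcn' : ∀ P, P ∈ E → chi (setOf' L E) none P = 1 := by
    intro P hP; simp [chi, setOf', hP]
  have hcs : ∀ P (B : {B // B ∈ L}), P ∉ E → chi (setOf' L E) (some B) P = inc B.1 P := by
    intro P B hP
    simp only [chi, setOf', inc, Finset.mem_symmDiff]
    by_cases h3 : P ∈ B.1 <;> simp [h3, hP]
  have hcs' : ∀ P (B : {B // B ∈ L}), P ∈ E → chi (setOf' L E) (some B) P = 1 - inc B.1 P := by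
    intro P B hP
    simp only [chi, setOf', inc, Finset.mem_symmDiff]
    by_cases h3 : P ∈ B.1 <;> simp [h3, hP]
  have hnum : ∀ B : {B // B ∈ L}, ((numOf L lam (some B) : ℕ) : ℚ) = (B.1.card : ℚ) - lam := by
    intro B
    have := h.lt_card B.1 B.2
    simp only [numOf]
    rw [Nat.cast_sub this.le]
  have hnum0 : ((numOf L lam none : ℕ) : ℚ) = lam := rfl
  refine ⟨E, c * w1, ?_, ?_, ?_⟩
  · intro h3
    have : Q0 ∈ E := (hE Q0).mpr rfl
    rw [h3] at this; simp at this
  · intro h3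
    have : P0 ∉ E := (hE' P0).mpr rfl
    rw [h3] at this; simp at this
  · refine ⟨?_, ?_, ?_, ?_, ?_, ?_, ?_⟩
    · rw [Fintype.card_option, Fintype.card_coe, Fintype.card_fin, h.card_eq]
    · intro i
      rcases i with _ | B
      · exact h.one_le
      · have := h.lt_card B.1 B.2
        simp only [numOf]; omega
    · nlinarith
    · nlinarith [mul_pos hcpos hw2p]
    · rw [hαα, Fintype.sum_option, hnum0]
      simp_rw [hnum]
      exact hcinv
    · intro P
      rw [hinv1, Fintype.sum_option, hnum0]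
      simp_rw [hnum]
      by_cases hP : P ∈ E
      · rw [hcn' P hP, one_mul]
        simp_rw [hcs' P _ hP, sub_mul, one_mul]
        rw [Finset.sum_sub_distrib]
        change (lam : ℚ)⁻¹ + (sg L lam - wt L lam P) = w1
        rw [(hE P).mp hP]
        linarith
      · rw [hcn P hP, zero_mul, zero_add]
        simp_rw [hcs P _ hP]
        exact (hE' P).mp hP
    · intro P Q hPQ
      rw [hinv1, Fintype.sum_option, hnum0]
      simp_rw [hnum]
      have hcol := h.col P Q
      rw [if_neg hPQ, add_zero] at hcol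
      have hcw : c * w1 * w1 = w1 - 1 := by linarith
      have hcw2 : c * w2 * w2 = w2 - 1 := by linarith
      rw [hcw]
      by_cases hP : P ∈ E <;> by_cases hQ : Q ∈ E
      · rw [hcn' P hP, hcn' Q hQ, one_mul, one_mul]
        simp_rw [hcs' P _ hP, hcs' Q _ hQ]
        have h3 : ∀ B : {B // B ∈ L}, (1 - inc B.1 P) * (1 - inc B.1 Q) *
            ((B.1.card : ℚ) - lam)⁻¹ = ((B.1.card : ℚ) - lam)⁻¹ -
              inc B.1 P * ((B.1.card : ℚ) - lam)⁻¹ - inc B.1 Q * ((B.1.card : ℚ) - lam)⁻¹ +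
                inc B.1 P * inc B.1 Q * ((B.1.card : ℚ) - lam)⁻¹ := by intro B; ring
        simp_rw [h3]
        rw [Finset.sum_add_distrib, Finset.sum_sub_distrib, Finset.sum_sub_distrib, hcol]
        change (lam : ℚ)⁻¹ + (sg L lam - wt L lam P - wt L lam Q + _) = w1 - 1
        rw [(hE P).mp hP, (hE Q).mp hQ]
        rw [← hc, hcw2]
        linarith
      · rw [hcn' P hP, hcn Q hQ, mul_zero, zero_mul, zero_add]
        simp_rw [hcs' P _ hP, hcs Q _ hQ]
        have h3 : ∀ B : {B // B ∈ L}, (1 - inc B.1 P) * inc B.1 Q *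
            ((B.1.card : ℚ) - lam)⁻¹ = inc B.1 Q * ((B.1.card : ℚ) - lam)⁻¹ -
                inc B.1 P * inc B.1 Q * ((B.1.card : ℚ) - lam)⁻¹ := by intro B; ring
        simp_rw [h3]
        rw [Finset.sum_sub_distrib, hcol]
        change wt L lam Q - _ = w1 - 1
        rw [(hE P).mp hP, (hE' Q).mp hQ, ← hc, mul_right_comm, hprod]
      · rw [hcn P hP, zero_mul, zero_mul, zero_add]
        simp_rw [hcs P _ hP, hcs' Q _ hQ]
        have h3 : ∀ B : {B // B ∈ L}, inc B.1 P * (1 - inc B.1 Q) *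
            ((B.1.card : ℚ) - lam)⁻¹ = inc B.1 P * ((B.1.card : ℚ) - lam)⁻¹ -
                inc B.1 P * inc B.1 Q * ((B.1.card : ℚ) - lam)⁻¹ := by intro B; ring
        simp_rw [h3]
        rw [Finset.sum_sub_distrib, hcol]
        change wt L lam P - _ = w1 - 1
        rw [(hE' P).mp hP, (hE Q).mp hQ, ← hc, hprod]
      · rw [hcn P hP, zero_mul, zero_mul, zero_add]
        simp_rw [hcs P _ hP, hcs Q _ hQ]
        rw [hcol, (hE' P).mp hP, (hE' Q).mp hQ, ← hc, hcw]

end IsLambdaDesign

end Pool.Agent.Lib.MP_93e743_co
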