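import Pool.Agent.Lib.MP_93e743_co.IntSys

/-!
Either the number of sets containing two points is constant, or the parameters satisfy `Params`.
-/

namespace Pool.Agent.Lib.MP_93e743_co

open Finset

variable {ι X : Type*} [Fintype ι] [Fintype X] [DecidableEq ι] [DecidableEq X]

namespace IntSys

variable {A : ι → Finset X} {n : ι → ℕ} {x y g : ℕ}

theorem const_or_exc (h : IntSys A n x y g) :
    (∃ c, ∀ P Q, P ≠ Q → cc A P Q = c) ∨
      ∃ P Q, P ≠ Q ∧ (x : ℤ) * (g * x + 1) - (x - y) < (x + y) * cc A P Q ∧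
        ((x : ℤ) + y) * cc A P Q < x * (g * x + 1) := by
  by_contra hcon
  push Not at hcon
  obtain ⟨h1, h2⟩ := hcon
  have hxy : (y : ℤ) < x := by exact_mod_cast h.hxy
  have hy : (0 : ℤ) < y := by exact_mod_cast h.hy
  have hterm : ∀ Q, ∀ P ∈ univ.erase Q, 0 ≤ (((x : ℤ) + y) * cc A P Q - x * (g * x + 1)) *
      (((x : ℤ) + y) * cc A P Q - x * (g * x + 1) + (x - y)) := by
    intro Q P hP
    have hPQ : P ≠ Q := (Finset.mem_erase.mp hP).1
    by_cases h3 : (x : ℤ) * (g * x + 1) - (x - y) < (x + y) * cc A P Q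
    · have h4 := h2 P Q hPQ h3
      apply mul_nonneg <;> linarith
    · rw [not_lt] at h3
      apply mul_nonneg_of_nonpos_of_nonpos <;> linarith
  have hval : ∀ P Q, P ≠ Q → ((x : ℤ) + y) * cc A P Q = x * (g * x + 1) ∨
      ((x : ℤ) + y) * cc A P Q = x * (g * x + 1) - (x - y) := by
    intro P Q hPQ
    have h3 := (Finset.sum_eq_zero_iff_of_nonneg (hterm Q)).mp (h.K6 Q) P
      (Finset.mem_erase.mpr ⟨hPQ, Finset.mem_univ _⟩)
    rcases mul_eq_zero.mp h3 with h4 | h4
    · left; linarith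
    · right; linarith
  by_cases hex : ∃ P Q : X, P ≠ Q
  · obtain ⟨P0, Q0, hPQ0⟩ := hex
    obtain ⟨P, Q, hPQ, hne⟩ := h1 (cc A P0 Q0)
    apply hne
    have h3 : ((x : ℤ) + y) * ((cc A P Q : ℤ) - cc A P0 Q0) = 0 ∨
        ((x : ℤ) + y) * ((cc A P Q : ℤ) - cc A P0 Q0) = x - y ∨
        ((x : ℤ) + y) * ((cc A P Q : ℤ) - cc A P0 Q0) = -(x - y) := by
      rcases hval P Q hPQ with h4 | h4 <;> rcases hval P0 Q0 hPQ0 with h5 | h5
      · left; rw [mul_sub, h4, h5]; ring
      · right; left; rw [mul_sub, h4, h5]; ring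
      · right; right; rw [mul_sub, h4, h5]; ring
      · left; rw [mul_sub, h4, h5]; ring
    have h4 : (cc A P Q : ℤ) - cc A P0 Q0 = 0 := by
      by_contra hne0
      have h5 := Int.one_le_abs hne0
      have h6 : |((x : ℤ) + y) * ((cc A P Q : ℤ) - cc A P0 Q0)| < x + y := by
        rcases h3 with h3 | h3 | h3
        · rw [h3]; simp; linarith
        · rw [h3, abs_of_pos (by linarith)]; linarith
        · rw [h3, abs_neg, abs_of_pos (by linarith)]; linarith
      rw [abs_mul, abs_of_pos (by linarith : (0 : ℤ) < x + y)] at h6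
      nlinarith
    have := sub_eq_zero.mp h4
    exact_mod_cast this
  · push Not at hex
    obtain ⟨P, Q, hPQ, -⟩ := h1 0
    exact hPQ (hex P Q)

theorem sum_n (h : IntSys A n x y g) :
    ∑ i, (n i : ℚ) = ((g : ℚ) * x + 1) * (g * y + 1) := by
  have h0 := h.sq0
  have h1 : ∀ i, (n i : ℚ) = (x : ℚ) / (x + y) * (g * x + 1) -
      (2 * ((x : ℚ) / (x + y)) - 1) * Sys.sz A i := by
    intro i
    have := h.sys.n_eq i
    rwa [h.rr_eq] at this
  rw [Finset.sum_congr rfl fun i _ => h1 i, Finset.sum_sub_distrib,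
    Finset.sum_const, Finset.card_univ, h.sys.card, nsmul_eq_mul, ← Finset.mul_sum]
  have h2 : ∑ i, Sys.sz A i = ((g : ℚ) * (x + y) + 1) * (g * x + 1) := by
    unfold Sys.sz
    rw [Finset.sum_comm]
    have : ∀ P, ∑ i, chi A i P = (g : ℚ) * x + 1 := by
      intro P; rw [h.sys.repl_eq P, h.rr_eq]
    simp_rw [this]
    rw [Finset.sum_const, Finset.card_univ, h.cardX, nsmul_eq_mul]
    push_cast; ring
  rw [h2, h.cardX]
  push_cast
  field_simp
  ring

theorem K7 (h : IntSys A n x y g) (a b : ℤ) (hab : ∀ i, 0 ≤ ((n i : ℤ) - a) * ((n i : ℤ) - b)) :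
    0 ≤ (((x : ℤ) + y) ^ 2 * a - x * y * (g * (x + y) + 2)) *
      (((x : ℤ) + y) ^ 2 * b - x * y * (g * (x + y) + 2)) +
      x * y * (x - y) ^ 2 * (g * (x + y) + 1) := by
  have h0 := h.sq0
  have hx : (0 : ℚ) < x := by
    have := h.hxy; have h' : 0 < x := by omega
    exact_mod_cast h'
  have hy : (0 : ℚ) < y := by exact_mod_cast h.hy
  have h1 : 0 ≤ ∑ i, (((n i : ℤ) - a) * ((n i : ℤ) - b) : ℤ) * (n i : ℚ)⁻¹ := by
    apply Finset.sum_nonneg
    intro i _
    apply mul_nonneg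
    · exact_mod_cast hab i
    · positivity
  have h2 : ∀ i, (((n i : ℤ) - a) * ((n i : ℤ) - b) : ℤ) * (n i : ℚ)⁻¹ =
      (n i : ℚ) - ((a : ℚ) + b) + a * b * (n i : ℚ)⁻¹ := by
    intro i
    have := (h.sys.npos' i).ne'
    push_cast
    field_simp
    ring
  rw [Finset.sum_congr rfl fun i _ => h2 i, Finset.sum_add_distrib, Finset.sum_sub_distrib,
    ← Finset.mul_sum, h.sys.s0, h.sum_n, Finset.sum_const, Finset.card_univ, h.sys.card, h.cardX,
    nsmul_eq_mul] at h1
  have h3 : ((x : ℚ) / (x + y) * (1 - (x : ℚ) / (x + y)))⁻¹ = (x + y) ^ 2 / (x * y) := by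
    have : 1 - (x : ℚ) / (x + y) = y / (x + y) := by field_simp; ring
    rw [this]
    field_simp
  rw [h3] at h1
  have h4 : 0 ≤ ((x : ℚ) * y * (x + y) ^ 2) * (((g : ℚ) * x + 1) * (g * y + 1) -
      (((g * (x + y) + 1 + 1 : ℕ) : ℚ)) * ((a : ℚ) + b) + a * b * ((x + y) ^ 2 / (x * y))) := by
    apply mul_nonneg (by positivity)
    exact h1
  have h5 : ((x : ℚ) * y * (x + y) ^ 2) * (((g : ℚ) * x + 1) * (g * y + 1) -
      (((g * (x + y) + 1 + 1 : ℕ) : ℚ)) * ((a : ℚ) + b) + a * b * ((x + y) ^ 2 / (x * y))) =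
      ((((x : ℚ) + y) ^ 2 * a - x * y * (g * (x + y) + 2)) *
      (((x : ℚ) + y) ^ 2 * b - x * y * (g * (x + y) + 2)) +
      x * y * (x - y) ^ 2 * (g * (x + y) + 1)) := by
    push_cast
    field_simp
    ring
  rw [h5] at h4
  exact_mod_cast h4

/-- If the number of sets containing two points is not constant, then the parameters satisfy
`Params`. -/
theorem exists_params (h : IntSys A n x y g) (i0 : ι) (d m' : ℕ)
    (hd : d = Nat.gcd (n i0) (x - y)) (hm' : m' = (x - y) / d)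
    (hnc : ¬ ∃ c, ∀ P Q, P ≠ Q → cc A P Q = c) :
    ∃ N ρ a b : ℤ, Params x y g d m' N ρ a b := by
  obtain ⟨P, Q, hPQ, hlow, hup⟩ := h.const_or_exc.resolve_left hnc
  have hxyN := h.hxy
  have hmpos : 0 < x - y := by omega
  have hdpos : 0 < d := by rw [hd]; exact Nat.gcd_pos_of_pos_right _ hmpos
  have hddm : d ∣ x - y := by rw [hd]; exact Nat.gcd_dvd_right _ _
  have hddl : d ∣ n i0 := by rw [hd]; exact Nat.gcd_dvd_left _ _
  have hmm : x - y = m' * d := by rw [hm']; exact (Nat.div_mul_cancel hddm).symm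
  have hm'pos : 0 < m' := by
    rcases Nat.eq_zero_or_pos m' with h0 | h0
    · rw [h0] at hmm; omega
    · exact h0
  have hxe : x = y + m' * d := by omega
  have hcopdm : Nat.Coprime (n i0 / d) m' := by
    have : Nat.Coprime (n i0 / Nat.gcd (n i0) (x - y)) ((x - y) / Nat.gcd (n i0) (x - y)) :=
      Nat.coprime_div_gcd_div_gcd (by rw [← hd]; exact hdpos)
    rw [← hd] at this
    rwa [hm']
  have hm0 : (0 : ℤ) < (x : ℤ) - y := by have : (y : ℤ) < x := by exact_mod_cast hxyN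
                                         linarith
  have hmZ : (x : ℤ) - y = m' * d := by rw [hxe]; push_cast; ring
  set lam : ℤ := (n i0 : ℤ) with hlam
  set N : ℤ := ((diffSet A P Q).card : ℤ) with hN
  set r : ℤ := g * x + 1 with hr
  have hcard : N + cc A P Q = r := by
    have := h.card_diffSet P Q
    rw [hN, hr]; exact_mod_cast this
  set ρ : ℤ := x * r - (x + y) * cc A P Q with hρ
  have hρ0 : 0 < ρ := by rw [hρ]; linarith
  have hρ1 : ρ < x - y := by rw [hρ]; linarith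
  have hsN : ((x : ℤ) + y) * N = y * r + ρ := by
    rw [hρ]; linear_combination ((x : ℤ) + y) * hcard
  have hK5 : (m' : ℤ) ∣ N - lam := h.K5 hPQ i0 d m' hdpos hxe hddl hcopdm
  -- m ∣ ρ - s (N - lam)
  have hK1 : ((x : ℤ) - y) ∣ x * r - (x + y) * lam := ⟨_, (h.K1 i0).symm⟩
  have hρc : ((x : ℤ) - y) ∣ ρ - (x + y) * (N - lam) := by
    obtain ⟨t, ht⟩ := hK1
    refine ⟨r - t, ?_⟩
    linear_combination -ht - hsN
  have hρnd : ¬ ((x : ℤ) - y) ∣ ρ := fun hdv => by
    have := Int.le_of_dvd hρ0 hdv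
    linarith
  have hNnd : ¬ ((x : ℤ) - y) ∣ (x + y) * (N - lam) := fun hdv =>
    hρnd (by have := dvd_add hρc hdv; simpa using this)
  have hNnd' : ¬ ((x : ℤ) - y) ∣ N - lam := fun hdv => hNnd (hdv.mul_left _)
  have hd3 : 3 ≤ d := by
    by_contra hlt
    have h12 : d = 1 ∨ d = 2 := by omega
    rcases h12 with h1 | h2
    · apply hNnd'
      rw [hmZ, h1]; simpa using hK5
    · apply hNnd
      obtain ⟨j, hj⟩ := hK5
      rw [hj, hmZ, h2]
      refine ⟨(y + m') * j, ?_⟩
      rw [hxe, h2]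
      push_cast; ring
  -- define a, b
  set a : ℤ := (N - lam) % (x - y) with ha
  have ha0 : 0 ≤ a := Int.emod_nonneg _ hm0.ne'
  have ha1 : a < x - y := Int.emod_lt_of_pos _ hm0
  have hane : a ≠ 0 := fun h0 => hNnd' (Int.dvd_of_emod_eq_zero h0)
  have hNa : ((x : ℤ) - y) ∣ (N - a) - lam := by
    refine ⟨(N - lam) / (x - y), ?_⟩
    have := Int.emod_add_mul_ediv (N - lam) (x - y)
    rw [← ha] at this
    linarith
  have hm'm : (m' : ℤ) ∣ (x : ℤ) - y := ⟨d, hmZ⟩
  have hm'a : (m' : ℤ) ∣ a := by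
    have h1 := dvd_sub hK5 (hm'm.trans hNa)
    have : N - lam - (N - a - lam) = a := by ring
    rwa [this] at h1
  have ha2 : (m' : ℤ) ≤ a := Int.le_of_dvd (lt_of_le_of_ne ha0 (Ne.symm hane)) hm'a
  set b : ℤ := (x - y) - a with hb
  have hm'b : (m' : ℤ) ∣ b := dvd_sub hm'm hm'a
  have hb2 : (m' : ℤ) ≤ b := Int.le_of_dvd (by linarith) hm'b
  -- divisibility by d
  have hdm : (d : ℤ) ∣ (x : ℤ) - y := ⟨m', by rw [hmZ]; ring⟩
  have hdlam : (d : ℤ) ∣ lam := by rw [hlam]; exact_mod_cast hddl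
  have hcopx : IsCoprime (d : ℤ) (x : ℤ) := by
    have h1 : IsCoprime (x : ℤ) (y : ℤ) := Nat.isCoprime_iff_coprime.mpr h.cop
    have h2 : IsCoprime ((x : ℤ) - y) x := by
      have := (h1.symm.add_mul_left_left (-1)).neg_left
      have e : -((y : ℤ) + x * -1) = x - y := by ring
      rwa [e] at this
    exact h2.of_isCoprime_of_dvd_left hdm
  have hdr : (d : ℤ) ∣ r := by
    have h1 : (d : ℤ) ∣ x * r := by
      have := dvd_add (hdm.trans hK1) (hdlam.mul_left ((x : ℤ) + y))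
      have e : x * r - (x + y) * lam + (x + y) * lam = x * r := by ring
      rwa [e] at this
    exact hcopx.dvd_of_dvd_mul_left h1
  have hdr' : (d : ℤ) ∣ (g : ℤ) * y + 1 := by
    have := dvd_sub hdr (hdm.mul_left (g : ℤ))
    have e : r - g * (x - y) = g * y + 1 := by rw [hr]; ring
    rwa [e] at this
  have hdV : (d : ℤ) ∣ (g : ℤ) * (x + y) + 2 := by
    have := dvd_add hdr hdr'
    have e : r + (g * y + 1) = g * (x + y) + 2 := by rw [hr]; ring
    rwa [e] at this
  have hdd : ∀ k : ℤ, ((x : ℤ) - y) ∣ k - lam →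
      (d : ℤ) ^ 2 ∣ (g * (x + y) + 2) * k - (g * x + 1) * (g * y + 1) := by
    intro k hk
    have hdk : (d : ℤ) ∣ k := by
      have := dvd_add (hdm.trans hk) hdlam
      have e : k - lam + lam = k := by ring
      rwa [e] at this
    rw [sq]
    exact dvd_sub (mul_dvd_mul hdV hdk) (mul_dvd_mul hdr hdr')
  refine ⟨N, ρ, a, b, ?_⟩
  have hmZ' : (m' : ℤ) * d = x - y := hmZ.symm
  refine ⟨by exact_mod_cast h.hy, by exact_mod_cast h.hg, by exact_mod_cast hd3,
    by exact_mod_cast hm'pos, by exact_mod_cast hxe, hρ0, by rw [hmZ']; exact hρ1, hsN, ha2, hb2,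
    by rw [hmZ', hb]; ring, ?_, hdd _ hNa, ?_⟩
  · -- variance
    rw [hmZ']
    have hK7 := h.K7 (N - a) (N + b) (by
      intro i
      have h1 : ((x : ℤ) - y) ∣ (n i : ℤ) - (N - a) := by
        have h2 := dvd_sub (h.K3 i0 i) hNa
        have e : (n i : ℤ) - n i0 - (N - a - lam) = n i - (N - a) := by rw [hlam]; ring
        rwa [e] at h2
      obtain ⟨t, ht⟩ := h1
      have h3 : (n i : ℤ) - (N + b) = (x - y) * (t - 1) := by
        rw [hb]; linarith
      rw [ht, h3]
      have h4 : 0 ≤ t * (t - 1) := by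
        rcases le_or_gt t 0 with h5 | h5
        · nlinarith
        · apply mul_nonneg <;> linarith
      have h5 : ((x : ℤ) - y) * t * ((x - y) * (t - 1)) = (x - y) ^ 2 * (t * (t - 1)) := by ring
      rw [h5]
      positivity)
    have hs2 : ((x : ℤ) + y) ^ 2 * N - x * y * (g * (x + y) + 2) =
        (x + y) * ρ - y * (x - y) := by
      rw [hr] at hsN
      linear_combination ((x : ℤ) + y) * hsN
    have e1 : ((x : ℤ) + y) ^ 2 * (N - a) - x * y * (g * (x + y) + 2) =
        -(((x : ℤ) + y) ^ 2 * a - ((x + y) * ρ - y * (x - y))) := by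
      linear_combination hs2
    have e2 : ((x : ℤ) + y) ^ 2 * (N + b) - x * y * (g * (x + y) + 2) =
        ((x : ℤ) + y) ^ 2 * b + ((x + y) * ρ - y * (x - y)) := by
      linear_combination hs2
    rw [e1, e2] at hK7
    linarith
  · apply hdd
    have := dvd_add hNa (dvd_refl ((x : ℤ) - y))
    have e : N - a - lam + (x - y) = N + b - lam := by rw [hb]; ring
    rwa [e] at this

end IntSys

end Pool.Agent.Lib.MP_93e743_co
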