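import Pool.Agent.Lib.MP_93e743_co.Sys
import Pool.Agent.Lib.MP_93e743_co.Arith

/-!
Integrality: the systems with `α = x / (x + y)`.
-/

namespace Pool.Agent.Lib.MP_93e743_co

open Finset

variable {ι X : Type*} [Fintype ι] [Fintype X] [DecidableEq ι] [DecidableEq X]

structure IntSys (A : ι → Finset X) (n : ι → ℕ) (x y g : ℕ) : Prop where
  sys : Sys A n ((x : ℚ) / (x + y))
  cop : Nat.Coprime x y
  hy : 0 < y
  hxy : y < x
  hg : 0 < g
  cardX : Fintype.card X = g * (x + y) + 1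

/-- The number of sets containing both points. -/
def cc (A : ι → Finset X) (P Q : X) : ℕ := (univ.filter fun i => P ∈ A i ∧ Q ∈ A i).card

section basic

omit [DecidableEq ι] in
lemma prs_eq (A : ι → Finset X) (P Q : X) : Sys.prs A P Q = (cc A P Q : ℚ) := by
  unfold Sys.prs cc chi
  rw [Finset.card_filter]
  push_cast
  refine Finset.sum_congr rfl fun i _ => ?_
  by_cases h1 : P ∈ A i <;> by_cases h2 : Q ∈ A i <;> simp [h1, h2]

omit [Fintype ι] [DecidableEq ι] in
lemma sz_eq (A : ι → Finset X) (i : ι) : Sys.sz A i = ((A i).card : ℚ) := by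
  unfold Sys.sz chi
  rw [Finset.sum_boole]
  congr 2
  ext P; simp

omit [Fintype ι] [DecidableEq ι] in
lemma itr_eq' (A : ι → Finset X) (i j : ι) : Sys.itr A i j = ((A i ∩ A j).card : ℚ) := by
  unfold Sys.itr chi
  have : ∀ P, (if P ∈ A i then (1 : ℚ) else 0) * (if P ∈ A j then (1 : ℚ) else 0) =
      if P ∈ A i ∩ A j then 1 else 0 := by
    intro P
    by_cases h1 : P ∈ A i <;> by_cases h2 : P ∈ A j <;> simp [h1, h2]
  simp_rw [this]
  rw [Finset.sum_boole]
  congr 2
  ext P; simp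

end basic

namespace IntSys

variable {A : ι → Finset X} {n : ι → ℕ} {x y g : ℕ}

lemma sq0 (h : IntSys A n x y g) : ((x : ℚ) + y) ≠ 0 := by
  have := h.hy
  have h1 : (0 : ℚ) < y := by exact_mod_cast this
  have h2 : (0 : ℚ) ≤ x := by positivity
  linarith

lemma rr_eq (h : IntSys A n x y g) : Sys.rr X ((x : ℚ) / (x + y)) = (g : ℚ) * x + 1 := by
  unfold Sys.rr
  rw [h.cardX]
  have := h.sq0
  push_cast
  field_simp
  ring

theorem K1 (h : IntSys A n x y g) (i : ι) :
    ((x : ℤ) - y) * (A i).card = x * (g * x + 1) - (x + y) * n i := by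
  have h1 := h.sys.n_eq i
  rw [h.rr_eq, sz_eq] at h1
  have h0 := h.sq0
  have h2 : ((x : ℚ) - y) * (A i).card = x * (g * x + 1) - (x + y) * n i := by
    field_simp at h1
    linear_combination h1
  exact_mod_cast h2

theorem K2 (h : IntSys A n x y g) {i j : ι} (hij : i ≠ j) :
    ((x : ℤ) - y) * ((A i).card - (A i ∩ A j).card) = x * n j - y * n i := by
  have h1 := h.sys.n_eq i
  have h2 := h.sys.n_eq j
  have h3 := h.sys.itr_eq hij
  rw [h.rr_eq, sz_eq] at h1 h2
  rw [h.rr_eq, sz_eq, sz_eq, itr_eq'] at h3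
  have h0 := h.sq0
  have h4 : ((x : ℚ) - y) * ((A i).card - (A i ∩ A j).card) = x * n j - y * n i := by
    rw [h3, h1, h2]
    field_simp
    ring
  exact_mod_cast h4

lemma cop_m (h : IntSys A n x y g) : IsCoprime ((x : ℤ) - y) (y : ℤ) := by
  have h1 : IsCoprime (x : ℤ) (y : ℤ) := Nat.isCoprime_iff_coprime.mpr h.cop
  have := h1.add_mul_right_left (-1)
  simpa [sub_eq_add_neg] using this

theorem K3 (h : IntSys A n x y g) (i j : ι) : ((x : ℤ) - y) ∣ (n j : ℤ) - n i := by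
  by_cases hij : i = j
  · subst hij; simp
  · have h1 := h.K2 hij
    have h2 : ((x : ℤ) - y) ∣ (y : ℤ) * ((n j : ℤ) - n i) := by
      refine ⟨((A i).card - (A i ∩ A j).card) - (n j : ℤ), ?_⟩
      linear_combination -h1
    exact h.cop_m.dvd_of_dvd_mul_left h2

theorem K6 (h : IntSys A n x y g) (Q : X) :
    ∑ P ∈ univ.erase Q, (((x : ℤ) + y) * cc A P Q - x * (g * x + 1)) *
      (((x : ℤ) + y) * cc A P Q - x * (g * x + 1) + (x - y)) = 0 := by
  have h1 := h.sys.key Q
  have h0 := h.sq0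
  rw [h.rr_eq] at h1
  have h2 : ∑ P ∈ univ.erase Q, (((x : ℚ) + y) * cc A P Q - x * (g * x + 1)) *
      (((x : ℚ) + y) * cc A P Q - x * (g * x + 1) + (x - y)) =
      ((x : ℚ) + y) ^ 2 * ∑ P ∈ univ.erase Q, (Sys.prs A P Q - (x : ℚ) / (x + y) * (g * x + 1)) *
        (Sys.prs A P Q - (x : ℚ) / (x + y) * (g * x + 1) + (2 * ((x : ℚ) / (x + y)) - 1)) := by
    rw [Finset.mul_sum]
    refine Finset.sum_congr rfl fun P _ => ?_
    rw [prs_eq]
    field_simp
    ring
  rw [h1, mul_zero] at h2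
  exact_mod_cast h2

/-- The number of sets that contain `P`. -/
theorem repl_card (h : IntSys A n x y g) (P : X) :
    (univ.filter fun i => P ∈ A i).card = g * x + 1 := by
  have h1 := h.sys.repl_eq P
  rw [h.rr_eq] at h1
  unfold chi at h1
  rw [Finset.sum_boole] at h1
  exact_mod_cast h1

/-- The sets that contain `P` and not `Q`. -/
def diffSet (A : ι → Finset X) (P Q : X) : Finset ι := univ.filter fun i => P ∈ A i ∧ Q ∉ A i

theorem card_diffSet (h : IntSys A n x y g) (P Q : X) :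
    (diffSet A P Q).card + cc A P Q = g * x + 1 := by
  rw [← h.repl_card P]
  unfold diffSet cc
  have h1 := Finset.card_filter_add_card_filter_not (s := univ.filter fun i => P ∈ A i)
    (fun i => Q ∈ A i)
  rw [Finset.filter_filter, Finset.filter_filter] at h1
  omega

theorem K4 (h : IntSys A n x y g) {P Q : X} (hPQ : P ≠ Q) :
    ∑ i ∈ diffSet A P Q, (n i : ℚ)⁻¹ = 1 := by
  have h1 := h.sys.s1 P
  have h2 := h.sys.s2 P Q hPQ
  have h3 : ∑ i ∈ diffSet A P Q, (n i : ℚ)⁻¹ =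
      ∑ i, chi A i P * (n i : ℚ)⁻¹ - ∑ i, chi A i P * chi A i Q * (n i : ℚ)⁻¹ := by
    unfold diffSet
    rw [Finset.sum_filter, ← Finset.sum_sub_distrib]
    refine Finset.sum_congr rfl fun i _ => ?_
    unfold chi
    by_cases h4 : P ∈ A i <;> by_cases h5 : Q ∈ A i <;> simp [h4, h5]
  rw [h3, h1, h2]
  have := h.sys.ne1
  field_simp

/-- The congruence for the number of sets that contain `P` and not `Q`. -/
theorem K5 (h : IntSys A n x y g) {P Q : X} (hPQ : P ≠ Q) (i0 : ι) (d m' : ℕ) (hd : 0 < d)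
    (hdm : x = y + m' * d) (hdl : d ∣ n i0) (hcop : Nat.Coprime (n i0 / d) m') :
    (m' : ℤ) ∣ ((diffSet A P Q).card : ℤ) - n i0 := by
  obtain ⟨ν0, hν0⟩ := hdl
  rw [hν0, Nat.mul_div_cancel_left _ hd] at hcop
  have hdvd : ∀ i, d ∣ n i := by
    intro i
    have h1 := h.K3 i0 i
    have h2 : (d : ℤ) ∣ (x : ℤ) - y := ⟨m', by rw [hdm]; push_cast; ring⟩
    have h3 : (d : ℤ) ∣ (n i0 : ℤ) := by rw [hν0]; exact ⟨ν0, by push_cast; ring⟩
    have h4 : (d : ℤ) ∣ (n i : ℤ) := by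
      have := dvd_add (h2.trans h1) h3
      simpa using this
    exact_mod_cast h4
  choose ν hν using hdvd
  have hdq : (d : ℚ) ≠ 0 := by exact_mod_cast hd.ne'
  have hνpos : ∀ i, 0 < ν i := by
    intro i
    rcases Nat.eq_zero_or_pos (ν i) with h0 | h0
    · have := h.sys.npos i
      rw [hν i, h0] at this
      simp at this
    · exact h0
  have hcong : ∀ i, ((ν i : ℕ) : ZMod m') = (ν0 : ZMod m') := by
    intro i
    have h1 := h.K3 i0 i
    rw [hν i, hν0] at h1
    have h2 : (m' : ℤ) * d ∣ (ν i - ν0) * d := by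
      have : (x : ℤ) - y = m' * d := by rw [hdm]; push_cast; ring
      rw [this] at h1
      convert h1 using 1
      push_cast; ring
    have h3 : (m' : ℤ) ∣ (ν i : ℤ) - ν0 :=
      Int.dvd_of_mul_dvd_mul_right (by exact_mod_cast hd.ne') h2
    have h4 := (ZMod.intCast_zmod_eq_zero_iff_dvd _ _).mpr h3
    push_cast at h4
    exact sub_eq_zero.mp h4
  set S := diffSet A P Q with hS
  have h1 : ∑ i ∈ S, (ν i : ℚ)⁻¹ = d := by
    have h2 := h.K4 hPQ
    have h3 : ∑ i ∈ S, (ν i : ℚ)⁻¹ = d * ∑ i ∈ S, (n i : ℚ)⁻¹ := by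
      rw [Finset.mul_sum]
      refine Finset.sum_congr rfl fun i _ => ?_
      rw [hν i]
      have : (ν i : ℚ) ≠ 0 := by exact_mod_cast (hνpos i).ne'
      push_cast
      field_simp
    rw [h3, h2, mul_one]
  have h2 : ∑ i ∈ S, ∏ j ∈ S.erase i, ν j = d * ∏ j ∈ S, ν j := by
    have h3 : ((∑ i ∈ S, ∏ j ∈ S.erase i, ν j : ℕ) : ℚ) = ((d * ∏ j ∈ S, ν j : ℕ) : ℚ) := by
      push_cast
      rw [← h1, Finset.sum_mul]
      refine Finset.sum_congr rfl fun i hi => ?_
      rw [← Finset.mul_prod_erase S _ hi]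
      have : (ν i : ℚ) ≠ 0 := by exact_mod_cast (hνpos i).ne'
      field_simp
    exact_mod_cast h3
  have h3 : ((∑ i ∈ S, ∏ j ∈ S.erase i, ν j : ℕ) : ZMod m') = ((d * ∏ j ∈ S, ν j : ℕ) : ZMod m') := by
    rw [h2]
  push_cast at h3
  simp_rw [hcong] at h3
  rw [Finset.prod_const] at h3
  have h4 : ∑ i ∈ S, ∏ j ∈ S.erase i, (ν0 : ZMod m') = (S.card : ZMod m') * ν0 ^ (S.card - 1) := by
    have : ∀ i ∈ S, ∏ j ∈ S.erase i, (ν0 : ZMod m') = (ν0 : ZMod m') ^ (S.card - 1) := by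
      intro i hi
      rw [Finset.prod_const, Finset.card_erase_of_mem hi]
    rw [Finset.sum_congr rfl this, Finset.sum_const, nsmul_eq_mul]
  rw [h4] at h3
  have hSne : 0 < S.card := by
    rw [Finset.card_pos]
    by_contra hemp
    rw [Finset.not_nonempty_iff_eq_empty] at hemp
    have := h.K4 hPQ
    rw [← hS, hemp, Finset.sum_empty] at this
    norm_num at this
  have hunit : IsUnit ((ν0 : ZMod m')) := (ZMod.isUnit_iff_coprime ν0 m').mpr hcop
  have h5 : (ν0 : ZMod m') ^ (S.card - 1) * ((S.card : ZMod m')) =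
      (ν0 : ZMod m') ^ (S.card - 1) * ((n i0 : ℕ) : ZMod m') := by
    rw [hν0]
    push_cast
    have : (ν0 : ZMod m') ^ S.card = ν0 ^ (S.card - 1) * ν0 := by
      rw [← pow_succ]; congr 1; omega
    rw [this] at h3
    linear_combination h3
  have h6 := (hunit.pow _).mul_left_cancel h5
  rw [← ZMod.intCast_zmod_eq_zero_iff_dvd]
  push_cast
  rw [h6, sub_self]

end IntSys

end Pool.Agent.Lib.MP_93e743_co
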