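import Pool.Agent.Lib.MP_93e743_co.Type1

/-!
The two main theorems.
-/

namespace Pool.Agent.Lib.MP_93e743_co

open Finset

variable {v lam : ℕ} {L : Finset (Finset (Fin v))}

namespace IsLambdaDesign

/-- The parameters of a `λ`-design that is not type-1. -/
theorem exists_params (h : IsLambdaDesign v lam L) {P Q : Fin v} (hPQ : repl L Q < repl L P)
    (hn : ¬ IsType1 v L) :
    ∃ (x y : ℕ) (m' N ρ a b : ℤ),
      (v - 1) / rgcd L P Q = x + y ∧ (repl L P - repl L Q) / rgcd L P Q = x - y ∧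
      Params x y (rgcd L P Q) (Nat.gcd lam (x - y) : ℕ) m' N ρ a b := by
  obtain ⟨E, x, y, g, hE1, hE2, hI, hr1, hr2⟩ := h.exists_intSys
  have hnc : ¬ ∃ c, ∀ P Q, P ≠ Q → cc (setOf' L E) P Q = c :=
    fun hc => hn (h.isType1_of_const hE1 hE2 hI hc)
  obtain ⟨N, ρ, a, b, hP⟩ := hI.exists_params none _ _ rfl rfl hnc
  have hg := hI.hg
  have hxy := hI.hxy
  have hcard := hI.cardX
  rw [Fintype.card_fin] at hcard
  have hlt : g * y + 1 < g * x + 1 := by
    have := Nat.mul_lt_mul_of_pos_left hxy hg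
    omega
  have hPval : repl L P = g * x + 1 ∧ repl L Q = g * y + 1 := by
    by_cases h1 : P ∈ E <;> by_cases h2 : Q ∈ E
    · rw [hr2 P h1, hr2 Q h2] at hPQ; omega
    · rw [hr2 P h1, hr1 Q h2] at hPQ; omega
    · exact ⟨hr1 P h1, hr2 Q h2⟩
    · rw [hr1 P h1, hr1 Q h2] at hPQ; omega
  have hrg : rgcd L P Q = g := by
    unfold rgcd
    rw [hPval.1, hPval.2, Nat.add_sub_cancel, Nat.add_sub_cancel, Nat.gcd_mul_left, hI.cop.gcd_eq_one,
      mul_one]
  refine ⟨x, y, (((x - y) / Nat.gcd lam (x - y) : ℕ) : ℤ), N, ρ, a, b, ?_, ?_, ?_⟩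
  · rw [hrg, hcard, Nat.add_sub_cancel, Nat.mul_div_cancel_left _ hg]
  · rw [hrg, hPval.1, hPval.2]
    have : g * x + 1 - (g * y + 1) = g * (x - y) := by
      rw [Nat.mul_sub]; omega
    rw [this, Nat.mul_div_cancel_left _ hg]
  · rw [hrg]
    exact hP

theorem isType1_of_gcd (h : IsLambdaDesign v lam L) {P Q : Fin v} (hPQ : repl L Q < repl L P)
    (hd : Nat.gcd lam ((repl L P - repl L Q) / rgcd L P Q) ≤ 2 ∨
      (rgcd L P Q + 2) * Nat.gcd lam ((repl L P - repl L Q) / rgcd L P Q) ≤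
        2 * ((v - 1) / rgcd L P Q)) :
    IsType1 v L := by
  by_contra hn
  obtain ⟨x, y, m', N, ρ, a, b, h1, h2, hP⟩ := h.exists_params hPQ hn
  rw [h1, h2] at hd
  rcases hd with hd | hd
  · have h3 := hP.hd
    have : 3 ≤ Nat.gcd lam (x - y) := by exact_mod_cast h3
    omega
  · have h3 := hP.ineq_one
    have : 2 * (x + y) < (rgcd L P Q + 2) * Nat.gcd lam (x - y) := by exact_mod_cast h3
    omega

theorem isType1_of_large (h : IsLambdaDesign v lam L) {P Q : Fin v} (hPQ : repl L Q < repl L P)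
    (hs : (rgcd L P Q + 5) ^ 4 ≤ 64 * ((v - 1) / rgcd L P Q)) :
    IsType1 v L := by
  by_contra hn
  obtain ⟨x, y, m', N, ρ, a, b, h1, h2, hP⟩ := h.exists_params hPQ hn
  rw [h1] at hs
  have h3 := hP.ineq_two
  have : 64 * (x + y) < (rgcd L P Q + 5) ^ 4 := by exact_mod_cast h3
  omega

end IsLambdaDesign

end Pool.Agent.Lib.MP_93e743_co
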