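import Pool.Agent.Lib.MP_93e743_co.Main

/-!
The matrix `W = s T - l (J - I)` of a system that is not of type 1, its square, and the
projective-plane type bound.
-/

namespace Pool.Agent.Lib.MP_93e743_co

open Finset

variable {ι X : Type*} [Fintype ι] [Fintype X] [DecidableEq ι] [DecidableEq X]

/-- An integer matrix `t` that describes the numbers of sets containing two points. -/
structure TMat (A : ι → Finset X) (x y g d m' : ℕ) (l : ℤ) (t : X → X → ℤ) : Prop where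
  diag : ∀ P, t P P = 0
  cceq : ∀ P Q, P ≠ Q → ((x : ℤ) + y) * cc A P Q =
    x * (g * x + 1) + m' * (((x : ℤ) + y) * t P Q - l)
  l0 : 0 < l
  l1 : l < d

omit [Fintype X] [DecidableEq ι] in
lemma cc_comm (A : ι → Finset X) (P Q : X) : cc A P Q = cc A Q P := by
  unfold cc
  congr 1
  ext i
  simp [and_comm]

namespace Sys

variable {A : ι → Finset X} {n : ι → ℕ} {α : ℚ}

/-- `κ i = r - |A i|`. -/
def kap (A : ι → Finset X) (α : ℚ) (i : ι) : ℚ := rr X α - sz A i

lemma kap_eq (h : Sys A n α) (i : ι) : (2 * α - 1) * kap A α i = n i - (1 - α) * rr X α := by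
  have h1 := h.n_eq i
  unfold kap
  rw [h1]; ring

omit [DecidableEq ι] in
lemma two_alpha (h : Sys A n α) : 2 * α - 1 ≠ 0 := by
  have := h.half
  intro h1
  linarith

lemma kap_s1 (h : Sys A n α) (P : X) : ∑ i, kap A α i * chi A i P * (n i : ℚ)⁻¹ = 0 := by
  have h1 : (2 * α - 1) * ∑ i, kap A α i * chi A i P * (n i : ℚ)⁻¹ =
      (∑ i, chi A i P) - (1 - α) * rr X α * ∑ i, chi A i P * (n i : ℚ)⁻¹ := by
    rw [Finset.mul_sum, Finset.mul_sum, ← Finset.sum_sub_distrib]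
    refine Finset.sum_congr rfl fun i _ => ?_
    have h2 := h.kap_eq i
    have h3 := (h.npos' i).ne'
    have h4 : (n i : ℚ) * (n i : ℚ)⁻¹ = 1 := mul_inv_cancel₀ h3
    linear_combination (chi A i P * (n i : ℚ)⁻¹) * h2 + chi A i P * h4
  rw [h.repl_eq, h.s1] at h1
  have h5 : (1 - α) * rr X α * (1 - α)⁻¹ = rr X α := by
    have := h.ne1
    field_simp
  rw [h5, sub_self] at h1
  exact (mul_eq_zero.mp h1).resolve_left h.two_alpha

/-- The matrix `∑ κ_i [P, Q ∈ A_i] / n_i`. -/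
def FF (A : ι → Finset X) (n : ι → ℕ) (α : ℚ) (P Q : X) : ℚ :=
  ∑ i, kap A α i * chi A i P * chi A i Q * (n i : ℚ)⁻¹

lemma FF_self (h : Sys A n α) (P : X) : FF A n α P P = 0 := by
  rw [← h.kap_s1 P]
  unfold FF
  refine Finset.sum_congr rfl fun i _ => ?_
  rw [mul_assoc (kap A α i), chi_mul_self]

lemma FF_eq (h : Sys A n α) {P Q : X} (hPQ : P ≠ Q) :
    (2 * α - 1) * FF A n α P Q = prs A P Q - α * rr X α := by
  have h1 : (2 * α - 1) * FF A n α P Q =
      prs A P Q - (1 - α) * rr X α * ∑ i, chi A i P * chi A i Q * (n i : ℚ)⁻¹ := by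
    unfold FF prs
    rw [Finset.mul_sum, Finset.mul_sum, ← Finset.sum_sub_distrib]
    refine Finset.sum_congr rfl fun i _ => ?_
    have h2 := h.kap_eq i
    have h3 := (h.npos' i).ne'
    have h4 : (n i : ℚ) * (n i : ℚ)⁻¹ = 1 := mul_inv_cancel₀ h3
    linear_combination (chi A i P * chi A i Q * (n i : ℚ)⁻¹) * h2 + chi A i P * chi A i Q * h4
  rw [h1, h.s2 P Q hPQ]
  have := h.ne1
  field_simp

/-- The square of the matrix `FF`. -/
theorem FF_sq (h : Sys A n α) (P Q : X) :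
    ∑ R, FF A n α P R * FF A n α R Q =
      ∑ i, kap A α i ^ 2 * chi A i P * chi A i Q * (n i : ℚ)⁻¹ := by
  set r := rr X α with hr
  have h1 : ∀ R, FF A n α P R * FF A n α R Q = ∑ i, ∑ j,
      (kap A α i * chi A i P * (n i : ℚ)⁻¹) * (kap A α j * chi A j Q * (n j : ℚ)⁻¹) *
        (chi A i R * chi A j R) := by
    intro R
    unfold FF
    rw [Finset.sum_mul_sum]
    exact Finset.sum_congr rfl fun i _ => Finset.sum_congr rfl fun j _ => by ring
  simp_rw [h1]
  rw [Finset.sum_comm]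
  have h2 : ∀ i, ∑ R, ∑ j,
      (kap A α i * chi A i P * (n i : ℚ)⁻¹) * (kap A α j * chi A j Q * (n j : ℚ)⁻¹) *
        (chi A i R * chi A j R) = ∑ j,
      (kap A α i * chi A i P * (n i : ℚ)⁻¹) * (kap A α j * chi A j Q * (n j : ℚ)⁻¹) *
        (α * (r - kap A α i - kap A α j) + (if i = j then (n i : ℚ) else 0)) := by
    intro i
    rw [Finset.sum_comm]
    refine Finset.sum_congr rfl fun j _ => ?_
    rw [← Finset.mul_sum]
    congr 1
    change itr A i j = _
    by_cases hij : i = j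
    · subst hij
      rw [if_pos rfl, h.n_eq i]
      have : itr A i i = sz A i := by
        unfold itr sz
        exact Finset.sum_congr rfl fun P _ => chi_mul_self A i P
      rw [this]
      unfold kap
      rw [← hr]
      ring
    · rw [if_neg hij, h.itr_eq hij]
      unfold kap
      rw [← hr]
      ring
  rw [Finset.sum_congr rfl fun i _ => h2 i]
  have h3 : ∀ i, ∑ j,
      (kap A α i * chi A i P * (n i : ℚ)⁻¹) * (kap A α j * chi A j Q * (n j : ℚ)⁻¹) *
        (α * (r - kap A α i - kap A α j) + (if i = j then (n i : ℚ) else 0)) =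
      (kap A α i * chi A i P * (n i : ℚ)⁻¹) * (α * (r - kap A α i)) *
        (∑ j, kap A α j * chi A j Q * (n j : ℚ)⁻¹) -
      (kap A α i * chi A i P * (n i : ℚ)⁻¹) * α *
        (∑ j, kap A α j ^ 2 * chi A j Q * (n j : ℚ)⁻¹) +
      kap A α i ^ 2 * chi A i P * chi A i Q * (n i : ℚ)⁻¹ := by
    intro i
    have h4 : ∀ j, (kap A α i * chi A i P * (n i : ℚ)⁻¹) *
        (kap A α j * chi A j Q * (n j : ℚ)⁻¹) *
        (α * (r - kap A α i - kap A α j) + (if i = j then (n i : ℚ) else 0)) =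
        (kap A α i * chi A i P * (n i : ℚ)⁻¹) * (α * (r - kap A α i)) *
          (kap A α j * chi A j Q * (n j : ℚ)⁻¹) -
        (kap A α i * chi A i P * (n i : ℚ)⁻¹) * α * (kap A α j ^ 2 * chi A j Q * (n j : ℚ)⁻¹) +
        (if i = j then (kap A α i * chi A i P * (n i : ℚ)⁻¹) *
          (kap A α j * chi A j Q * (n j : ℚ)⁻¹) * (n i : ℚ) else 0) := by
      intro j
      split <;> ring
    simp_rw [h4]
    rw [Finset.sum_add_distrib, Finset.sum_sub_distrib, ← Finset.mul_sum, ← Finset.mul_sum,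
      Finset.sum_ite_eq, if_pos (Finset.mem_univ _)]
    have h5 := (h.npos' i).ne'
    have h6 : (n i : ℚ) * (n i : ℚ)⁻¹ = 1 := mul_inv_cancel₀ h5
    linear_combination (kap A α i ^ 2 * chi A i P * chi A i Q * (n i : ℚ)⁻¹) * h6
  rw [Finset.sum_congr rfl fun i _ => h3 i, Finset.sum_add_distrib, Finset.sum_sub_distrib]
  rw [h.kap_s1 Q]
  simp_rw [mul_zero]
  rw [Finset.sum_const_zero, zero_sub, ← Finset.sum_mul, ← Finset.sum_mul, h.kap_s1 P]
  ring

end Sys

namespace IntSys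

variable {A : ι → Finset X} {n : ι → ℕ} {x y g : ℕ}

/-- The matrix `T` of a system in which the numbers of sets containing two points are not all
equal. -/
theorem exists_tmat (h : IntSys A n x y g) (i0 : ι) (d m' : ℕ)
    (hd : d = Nat.gcd (n i0) (x - y)) (hm' : m' = (x - y) / d)
    (hnc : ¬ ∃ c, ∀ P Q, P ≠ Q → cc A P Q = c) :
    ∃ (l : ℤ) (t : X → X → ℤ), TMat A x y g d m' l t := by
  obtain ⟨P0, Q0, hPQ, hlow, hup⟩ := h.const_or_exc.resolve_left hnc
  have hxyN := h.hxy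
  have hmpos : 0 < x - y := by omega
  have hdpos : 0 < d := by rw [hd]; exact Nat.gcd_pos_of_pos_right _ hmpos
  have hddm : d ∣ x - y := by rw [hd]; exact Nat.gcd_dvd_right _ _
  have hddl : d ∣ n i0 := by rw [hd]; exact Nat.gcd_dvd_left _ _
  have hmm : x - y = m' * d := by rw [hm']; exact (Nat.div_mul_cancel hddm).symm
  have hm'pos : 0 < m' := by
    rcases Nat.eq_zero_or_pos m' with h0 | h0
    · rw [h0] at hmm; omega
    · exact h0
  have hxe : x = y + m' * d := by omega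
  have hcopdm : Nat.Coprime (n i0 / d) m' := by
    have : Nat.Coprime (n i0 / Nat.gcd (n i0) (x - y)) ((x - y) / Nat.gcd (n i0) (x - y)) :=
      Nat.coprime_div_gcd_div_gcd (by rw [← hd]; exact hdpos)
    rw [← hd] at this
    rwa [hm']
  have hmZ : (x : ℤ) - y = m' * d := by rw [hxe]; push_cast; ring
  have hm'Z : (0 : ℤ) < m' := by exact_mod_cast hm'pos
  have hK5 : ∀ P Q, P ≠ Q → (m' : ℤ) ∣ ((g * x + 1 : ℤ) - cc A P Q) - n i0 := by
    intro P Q hne
    have h1 := h.K5 hne i0 d m' hdpos hxe hddl hcopdm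
    have h2 := h.card_diffSet P Q
    have h3 : ((diffSet A P Q).card : ℤ) = (g * x + 1 : ℤ) - cc A P Q := by
      have : ((diffSet A P Q).card : ℤ) + cc A P Q = g * x + 1 := by exact_mod_cast h2
      linarith
    rwa [h3] at h1
  -- `l`
  have hl : (m' : ℤ) ∣ x * (g * x + 1) - ((x : ℤ) + y) * cc A P0 Q0 := by
    have h1 := h.K1 i0
    have h2 : (m' : ℤ) ∣ (x : ℤ) - y := ⟨d, hmZ⟩
    have h3 := hK5 P0 Q0 hPQ
    have h4 : (m' : ℤ) ∣ ((x : ℤ) + y) * (((g * x + 1 : ℤ) - cc A P0 Q0) - n i0) +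
        (((x : ℤ) - y) * ((g * x + 1) - (A i0).card)) :=
      dvd_add (h3.mul_left _) (h2.mul_right _)
    have e : ((x : ℤ) + y) * (((g * x + 1 : ℤ) - cc A P0 Q0) - n i0) +
        (((x : ℤ) - y) * ((g * x + 1) - (A i0).card)) -
        ((x : ℤ) + y) * (m' * 0) = x * (g * x + 1) - ((x : ℤ) + y) * cc A P0 Q0 := by
      linear_combination -h1
    rw [mul_zero, mul_zero, sub_zero] at e
    rwa [e] at h4
  obtain ⟨l, hl⟩ := hl
  have hl0 : 0 < l := by
    have : 0 < (m' : ℤ) * l := by rw [← hl]; linarith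
    exact (mul_pos_iff_of_pos_left hm'Z).mp this
  have hl1 : l < d := by
    have : (m' : ℤ) * l < m' * d := by rw [← hl, ← hmZ]; linarith
    exact lt_of_mul_lt_mul_left this hm'Z.le
  have ht : ∀ P Q, ∃ t : ℤ, P ≠ Q → ((cc A P Q : ℤ) - cc A P0 Q0) = m' * t := by
    intro P Q
    by_cases hne : P = Q
    · exact ⟨0, fun h0 => absurd hne h0⟩
    · have h1 := hK5 P Q hne
      have h2 := hK5 P0 Q0 hPQ
      obtain ⟨t, ht⟩ := dvd_sub h2 h1
      refine ⟨t, fun _ => ?_⟩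
      linarith
  choose t ht using ht
  refine ⟨l, fun P Q => if P = Q then 0 else t P Q, ?_, ?_, hl0, hl1⟩
  · intro P; simp
  · intro P Q hne
    have h1 := ht P Q hne
    simp only [hne, if_false]
    linear_combination ((x : ℤ) + y) * h1 - hl

/-- The matrix `W = s T - l (J - I)`. -/
def WW (x y : ℕ) (l : ℤ) (t : X → X → ℤ) (P Q : X) : ℤ :=
  if P = Q then 0 else ((x : ℤ) + y) * t P Q - l

theorem WW_eq (h : IntSys A n x y g) {d m' : ℕ} (hm : (x : ℤ) - y = m' * d) (hm' : m' ≠ 0)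
    {l : ℤ} {t : X → X → ℤ} (hT : TMat A x y g d m' l t) (P Q : X) :
    ((WW x y l t P Q : ℤ) : ℚ) = d * Sys.FF A n ((x : ℚ) / (x + y)) P Q := by
  by_cases hPQ : P = Q
  · subst hPQ
    rw [h.sys.FF_self]
    simp [WW]
  · have h1 := h.sys.FF_eq hPQ
    rw [h.rr_eq, prs_eq] at h1
    have h2 := hT.cceq P Q hPQ
    have h0 := h.sq0
    have h3 : ((x : ℚ) + y) * cc A P Q =
        x * (g * x + 1) + m' * (((x : ℚ) + y) * t P Q - l) := by exact_mod_cast h2
    have h4 : (x : ℚ) - y = m' * d := by exact_mod_cast hm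
    have h5 : (m' : ℚ) ≠ 0 := by exact_mod_cast hm'
    have h6 : ((x : ℚ) - y) * Sys.FF A n ((x : ℚ) / (x + y)) P Q =
        (x + y) * cc A P Q - x * (g * x + 1) := by
      field_simp at h1
      linear_combination h1
    have h7 : (m' : ℚ) * (d * Sys.FF A n ((x : ℚ) / (x + y)) P Q) =
        m' * (((x : ℚ) + y) * t P Q - l) := by
      rw [h4] at h6
      linear_combination h6 + h3
    have h8 := mul_left_cancel₀ h5 h7
    simp only [WW, hPQ, if_false]
    push_cast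
    exact h8.symm

/-- `κ i` as an integer. -/
def kz (A : ι → Finset X) (x g : ℕ) (i : ι) : ℤ := (g * x + 1 : ℤ) - (A i).card

lemma kz_cast (h : IntSys A n x y g) (i : ι) :
    ((kz A x g i : ℤ) : ℚ) = Sys.kap A ((x : ℚ) / (x + y)) i := by
  unfold kz Sys.kap
  rw [h.rr_eq, sz_eq]
  push_cast
  ring

theorem WW_sq (h : IntSys A n x y g) {d m' : ℕ} (hm : (x : ℤ) - y = m' * d) (hm' : m' ≠ 0)
    {l : ℤ} {t : X → X → ℤ} (hT : TMat A x y g d m' l t) (P Q : X) :
    ((∑ R, WW x y l t P R * WW x y l t R Q : ℤ) : ℚ) =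
      d ^ 2 * ∑ i, (kz A x g i : ℚ) ^ 2 * chi A i P * chi A i Q * (n i : ℚ)⁻¹ := by
  push_cast
  simp_rw [h.WW_eq hm hm' hT, h.kz_cast]
  rw [← h.sys.FF_sq P Q, Finset.mul_sum]
  exact Finset.sum_congr rfl fun R _ => by ring

omit [Fintype ι] [DecidableEq ι] [Fintype X] in
lemma chi_mul (A : ι → Finset X) (i : ι) (P Q : X) :
    chi A i P * chi A i Q = if P ∈ A i ∧ Q ∈ A i then 1 else 0 := by
  unfold chi
  by_cases h1 : P ∈ A i <;> by_cases h2 : Q ∈ A i <;> simp [h1, h2]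

theorem mk_eq (h : IntSys A n x y g) (i : ι) :
    ((x : ℤ) - y) * kz A x g i = (x + y) * n i - y * (g * x + 1) := by
  have h1 := h.K1 i
  unfold kz
  linear_combination -h1

theorem dvd_WW_sq_one (h : IntSys A n x y g) {d m' : ℕ} (hm : (x : ℤ) - y = m' * d)
    (hm' : m' ≠ 0) {l : ℤ} {t : X → X → ℤ} (hT : TMat A x y g d m' l t)
    (hpn : ∀ i, d ∣ n i) (hpr : (d : ℤ) ∣ g * x + 1) (P Q : X) :
    (d : ℤ) ∣ (m' : ℤ) ^ 2 * ∑ R, WW x y l t P R * WW x y l t R Q := by
  have h1 := h.WW_sq hm hm' hT P Q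
  have h0 := h.sq0
  have hy0 : (y : ℚ) ≠ 0 := by have := h.hy; exact_mod_cast this.ne'
  -- the sum of reciprocals
  obtain ⟨e, he⟩ : ∃ e : ℤ, (y : ℚ) * ∑ i, chi A i P * chi A i Q * (n i : ℚ)⁻¹ = e := by
    by_cases hPQ : P = Q
    · subst hPQ
      simp_rw [chi_mul_self]
      rw [h.sys.s1]
      refine ⟨x + y, ?_⟩
      have : 1 - (x : ℚ) / (x + y) = y / (x + y) := by field_simp; ring
      rw [this]
      push_cast
      field_simp
    · rw [h.sys.s2 P Q hPQ]
      refine ⟨x, ?_⟩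
      have : 1 - (x : ℚ) / (x + y) = y / (x + y) := by field_simp; ring
      rw [this]
      push_cast
      field_simp
  have h2 : (m' : ℚ) ^ 2 * ((∑ R, WW x y l t P R * WW x y l t R Q : ℤ) : ℚ) =
      ((x : ℚ) + y) ^ 2 * (∑ i ∈ univ.filter (fun i => P ∈ A i ∧ Q ∈ A i), (n i : ℚ)) -
        2 * (x + y) * y * (g * x + 1) * cc A P Q + y * (g * x + 1) ^ 2 * e := by
    rw [h1, ← he]
    have h3 : ∀ i, (m' : ℚ) ^ 2 * ((d : ℚ) ^ 2 * ((kz A x g i : ℚ) ^ 2 * chi A i P * chi A i Q *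
        (n i : ℚ)⁻¹)) = ((x : ℚ) + y) ^ 2 * ((chi A i P * chi A i Q) * n i) -
        2 * (x + y) * y * (g * x + 1) * (chi A i P * chi A i Q) +
        y * (g * x + 1) ^ 2 * (y * (chi A i P * chi A i Q * (n i : ℚ)⁻¹)) := by
      intro i
      have h4 := h.mk_eq i
      have h5 : ((m' : ℚ) * d) * kz A x g i = (x + y) * n i - y * (g * x + 1) := by
        have : ((m' : ℤ) * d) * kz A x g i = (x + y) * n i - y * (g * x + 1) := by rw [← hm, h4]
        exact_mod_cast this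
      have h6 := (h.sys.npos' i).ne'
      have h7 : (n i : ℚ) * (n i : ℚ)⁻¹ = 1 := mul_inv_cancel₀ h6
      have h8 : (m' : ℚ) ^ 2 * ((d : ℚ) ^ 2 * ((kz A x g i : ℚ) ^ 2 * chi A i P * chi A i Q *
        (n i : ℚ)⁻¹)) = (((m' : ℚ) * d) * kz A x g i) ^ 2 * (chi A i P * chi A i Q) *
          (n i : ℚ)⁻¹ := by ring
      rw [h8, h5]
      linear_combination ((x + y : ℚ) ^ 2 * n i - 2 * (x + y) * y * (g * x + 1)) *
        (chi A i P * chi A i Q) * h7
    rw [Finset.mul_sum, Finset.mul_sum, Finset.sum_congr rfl fun i _ => h3 i,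
      Finset.sum_add_distrib, Finset.sum_sub_distrib, ← Finset.mul_sum, ← Finset.mul_sum,
      ← Finset.mul_sum, ← Finset.mul_sum]
    congr 2
    · congr 1
      rw [Finset.sum_filter]
      refine Finset.sum_congr rfl fun i _ => ?_
      rw [chi_mul]
      split <;> simp
    · rw [← prs_eq]
      rfl
  have h9 : (m' : ℤ) ^ 2 * (∑ R, WW x y l t P R * WW x y l t R Q) =
      ((x : ℤ) + y) ^ 2 * (∑ i ∈ univ.filter (fun i => P ∈ A i ∧ Q ∈ A i), (n i : ℤ)) -
        2 * (x + y) * y * (g * x + 1) * cc A P Q + y * (g * x + 1) ^ 2 * e := by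
    exact_mod_cast h2
  rw [h9]
  refine dvd_add (dvd_sub (Dvd.dvd.mul_left (Finset.dvd_sum fun i _ => ?_) _) ?_) ?_
  · exact_mod_cast hpn i
  · exact (hpr.mul_left _).mul_right _
  · exact ((dvd_pow hpr two_ne_zero).mul_left _).mul_right _

theorem dvd_WW_sq_two (h : IntSys A n x y g) {d m' : ℕ} (hm : (x : ℤ) - y = m' * d)
    (hm' : m' ≠ 0) {l : ℤ} {t : X → X → ℤ} (hT : TMat A x y g d m' l t)
    (ν : ι → ℕ) (hν : ∀ i, n i = d * ν i) (P Q : X) :
    (d : ℤ) ∣ ((∏ i, ν i : ℕ) : ℤ) * ∑ R, WW x y l t P R * WW x y l t R Q := by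
  have h1 := h.WW_sq hm hm' hT P Q
  have hν0 : ∀ i, (ν i : ℚ) ≠ 0 := by
    intro i h0
    have h2 : ν i = 0 := by exact_mod_cast h0
    have := h.sys.npos i
    rw [hν i, h2, mul_zero] at this
    exact lt_irrefl _ this
  have h2 : ((∏ i, ν i : ℕ) : ℚ) * ((∑ R, WW x y l t P R * WW x y l t R Q : ℤ) : ℚ) =
      d * ((∑ i, (kz A x g i) ^ 2 * (if P ∈ A i ∧ Q ∈ A i then 1 else 0) *
        ((∏ j ∈ univ.erase i, ν j : ℕ) : ℤ) : ℤ) : ℚ) := by
    rw [h1]
    push_cast
    rw [Finset.mul_sum, Finset.mul_sum, Finset.mul_sum]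
    refine Finset.sum_congr rfl fun i _ => ?_
    have h3 : (n i : ℚ)⁻¹ = (d : ℚ)⁻¹ * (ν i : ℚ)⁻¹ := by
      rw [hν i]; push_cast; rw [mul_inv]
    have hd0 : (d : ℚ) ≠ 0 := by
      intro h0
      have h4 := h.sys.npos i
      rw [hν i] at h4
      have : d = 0 := by exact_mod_cast h0
      rw [this] at h4
      simp at h4
    have h5 : ∏ j, (ν j : ℚ) = ν i * ∏ j ∈ univ.erase i, (ν j : ℚ) :=
      (Finset.mul_prod_erase _ _ (Finset.mem_univ i)).symm
    have h6 := chi_mul A i P Q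
    rw [h3, h5]
    have h7 : (if P ∈ A i ∧ Q ∈ A i then (1 : ℚ) else 0) = chi A i P * chi A i Q := h6.symm
    rw [h7]
    have h8 := hν0 i
    field_simp
  have h9 : ((∏ i, ν i : ℕ) : ℤ) * (∑ R, WW x y l t P R * WW x y l t R Q) =
      d * (∑ i, (kz A x g i) ^ 2 * (if P ∈ A i ∧ Q ∈ A i then 1 else 0) *
        ((∏ j ∈ univ.erase i, ν j : ℕ) : ℤ)) := by
    exact_mod_cast h2
  rw [h9]
  exact dvd_mul_right _ _

/-- `d` divides all entries of `W ^ 2`. -/
theorem dvd_WW_sq (h : IntSys A n x y g) {d m' : ℕ} (hm : (x : ℤ) - y = m' * d)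
    (hm' : m' ≠ 0) {l : ℤ} {t : X → X → ℤ} (hT : TMat A x y g d m' l t)
    (hpn : ∀ i, d ∣ n i) (hpr : (d : ℤ) ∣ g * x + 1) (hcop : ∀ i, Nat.Coprime (n i / d) m')
    (P Q : X) (p k : ℕ) (hp : p.Prime) (hpk : p ^ k ∣ d) :
    ((p : ℤ) ^ k) ∣ ∑ R, WW x y l t P R * WW x y l t R Q := by
  have hpk' : ((p : ℤ) ^ k) ∣ (d : ℤ) := by exact_mod_cast hpk
  by_cases hpm : p ∣ m'
  · choose ν hν using hpn
    have hd0 : 0 < d := by
      rcases Nat.eq_zero_or_pos d with h0 | h0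
      · exfalso
        have h1 : (x : ℤ) - y = 0 := by rw [hm, h0]; simp
        have := h.hxy
        omega
      · exact h0
    have h1 := hpk'.trans (h.dvd_WW_sq_two hm hm' hT ν hν P Q)
    have h2 : IsCoprime ((p : ℤ) ^ k) ((∏ i, ν i : ℕ) : ℤ) := by
      apply IsCoprime.pow_left
      rw [Nat.isCoprime_iff_coprime]
      refine Nat.Coprime.prod_right fun i _ => ?_
      have h3 := hcop i
      rw [hν i, Nat.mul_div_cancel_left _ hd0] at h3
      exact (Nat.Coprime.coprime_dvd_right hpm h3).symm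
    exact h2.dvd_of_dvd_mul_left h1
  · have h1 := hpk'.trans (h.dvd_WW_sq_one hm hm' hT hpn hpr P Q)
    have h2 : IsCoprime ((p : ℤ) ^ k) ((m' : ℤ) ^ 2) := by
      apply IsCoprime.pow
      rw [Nat.isCoprime_iff_coprime]
      exact (Nat.Prime.coprime_iff_not_dvd hp).mpr hpm
    exact h2.dvd_of_dvd_mul_left h1

omit [DecidableEq ι] in
theorem tsymm (h : IntSys A n x y g) {d m' : ℕ} (hm' : m' ≠ 0)
    {l : ℤ} {t : X → X → ℤ} (hT : TMat A x y g d m' l t) (P Q : X) : t P Q = t Q P := by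
  by_cases hPQ : P = Q
  · rw [hPQ]
  · have h1 := hT.cceq P Q hPQ
    have h2 := hT.cceq Q P (Ne.symm hPQ)
    rw [cc_comm A Q P] at h2
    have hs : (0 : ℤ) < (x : ℤ) + y := by
      have := h.hy
      have : (0 : ℤ) < y := by exact_mod_cast this
      positivity
    have hm0 : (m' : ℤ) ≠ 0 := by exact_mod_cast hm'
    have h3 : (m' : ℤ) * (((x : ℤ) + y) * t P Q) = m' * (((x : ℤ) + y) * t Q P) := by
      linear_combination h2 - h1
    exact mul_left_cancel₀ hs.ne' (mul_left_cancel₀ hm0 h3)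

omit [Fintype X] [DecidableEq ι] in
lemma WW_val {d m' : ℕ} {l : ℤ} {t : X → X → ℤ} (hT : TMat A x y g d m' l t) (P R : X) :
    WW x y l t P R = ((x : ℤ) + y) * t P R - l + if P = R then l else 0 := by
  unfold WW
  by_cases hPR : P = R
  · subst hPR
    rw [if_pos rfl, if_pos rfl, hT.diag]
    ring
  · rw [if_neg hPR, if_neg hPR]
    ring

omit [DecidableEq ι] in
lemma WW_symm (h : IntSys A n x y g) {d m' : ℕ} (hm' : m' ≠ 0)
    {l : ℤ} {t : X → X → ℤ} (hT : TMat A x y g d m' l t) (P R : X) :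
    WW x y l t P R = WW x y l t R P := by
  unfold WW
  rw [h.tsymm hm' hT P R]
  by_cases hPR : P = R
  · rw [hPR]
  · rw [if_neg hPR, if_neg (Ne.symm hPR)]

/-- Row sums of `W`. -/
def ww (x y : ℕ) (l : ℤ) (t : X → X → ℤ) (P : X) : ℤ := ∑ R, WW x y l t P R

omit [DecidableEq ι] in
/-- The entry of `W ^ 2` at a pair of points at distance at least `3`. -/
theorem WW_sq_far (h : IntSys A n x y g) {d m' : ℕ} (hm' : m' ≠ 0)
    {l : ℤ} {t : X → X → ℤ} (hT : TMat A x y g d m' l t) {P Q : X} (hPQ : P ≠ Q)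
    (h0 : t P Q = 0) (h2 : ∀ R, t P R * t R Q = 0) :
    ∑ R, WW x y l t P R * WW x y l t R Q =
      -l * (ww x y l t P + ww x y l t Q) - l ^ 2 * (Fintype.card X : ℤ) := by
  have hw : ∀ P, ww x y l t P = ((x : ℤ) + y) * ∑ R, t P R - l * (Fintype.card X : ℤ) + l := by
    intro P
    unfold ww
    simp_rw [WW_val hT]
    rw [Finset.sum_add_distrib, Finset.sum_sub_distrib, ← Finset.mul_sum, Finset.sum_const,
      Finset.card_univ, Finset.sum_ite_eq, if_pos (Finset.mem_univ _), nsmul_eq_mul]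
    ring
  have h3 : ∀ R, WW x y l t P R * WW x y l t R Q =
      -l * (((x : ℤ) + y) * t P R) - l * (((x : ℤ) + y) * t Q R) + l ^ 2 +
        (if P = R then -l ^ 2 else 0) + (if Q = R then -l ^ 2 else 0) := by
    intro R
    rw [WW_val hT, WW_val hT, h.tsymm hm' hT Q R]
    have h4 := h2 R
    by_cases h5 : P = R
    · subst h5
      rw [if_pos rfl, if_neg hPQ, if_pos rfl, if_neg (Ne.symm hPQ), hT.diag, h0]
      ring
    · by_cases h6 : R = Q
      · subst h6
        rw [if_neg h5, if_pos rfl, if_neg h5, if_pos rfl, hT.diag, h0]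
        ring
      · rw [if_neg h5, if_neg h6, if_neg h5, if_neg (Ne.symm h6)]
        linear_combination ((x : ℤ) + y) ^ 2 * h4
  simp_rw [h3]
  rw [Finset.sum_add_distrib, Finset.sum_add_distrib, Finset.sum_add_distrib,
    Finset.sum_sub_distrib, ← Finset.mul_sum, ← Finset.mul_sum, ← Finset.mul_sum,
    ← Finset.mul_sum, Finset.sum_const, Finset.card_univ, nsmul_eq_mul, Finset.sum_ite_eq,
    Finset.sum_ite_eq, if_pos (Finset.mem_univ _), if_pos (Finset.mem_univ _), hw P, hw Q]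
  ring

/-- The support of a row of `t`. -/
def supp (t : X → X → ℤ) (P : X) : Finset X := univ.filter fun Q => t P Q ≠ 0

omit [DecidableEq ι] in
/-- Two points have a common point at distance at least `3`. -/
theorem exists_far (h : IntSys A n x y g) {d m' : ℕ} (hm' : m' ≠ 0)
    {l : ℤ} {t : X → X → ℤ} (hT : TMat A x y g d m' l t) (N : ℕ)
    (hN : ∀ P, (supp t P).card ≤ N) (hv : 2 * N ^ 2 + 2 < Fintype.card X) (P P' : X) :
    ∃ Q, (P ≠ Q ∧ t P Q = 0 ∧ ∀ R, t P R * t R Q = 0) ∧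
      (P' ≠ Q ∧ t P' Q = 0 ∧ ∀ R, t P' R * t R Q = 0) := by
  let near : X → Finset X := fun P => (supp t P).biUnion fun R => insert R ((supp t R).erase P)
  have hnear : ∀ P, (near P).card ≤ N ^ 2 := by
    intro P
    have h1 : (near P).card ≤ ∑ R ∈ supp t P, (insert R ((supp t R).erase P)).card :=
      Finset.card_biUnion_le
    have h2 : ∀ R ∈ supp t P, (insert R ((supp t R).erase P)).card ≤ N := by
      intro R hR
      have h3 : P ∈ supp t R := by
        rw [supp, Finset.mem_filter] at hR ⊢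
        refine ⟨Finset.mem_univ _, ?_⟩
        rw [h.tsymm hm' hT R P]
        exact hR.2
      have h4 := Finset.card_erase_of_mem h3
      have h5 := Finset.card_insert_le R ((supp t R).erase P)
      have h6 : 0 < (supp t R).card := Finset.card_pos.mpr ⟨P, h3⟩
      have h7 := hN R
      omega
    have h3 := Finset.sum_le_card_nsmul _ _ _ h2
    rw [smul_eq_mul] at h3
    have h4 := hN P
    calc (near P).card ≤ (supp t P).card * N := h1.trans h3
      _ ≤ N * N := Nat.mul_le_mul_right _ h4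
      _ = N ^ 2 := by ring
  have hfar : ∀ P Q, Q ∉ insert P (near P) → P ≠ Q ∧ t P Q = 0 ∧ ∀ R, t P R * t R Q = 0 := by
    intro P Q hQ
    rw [Finset.mem_insert, not_or] at hQ
    obtain ⟨hQ1, hQ2⟩ := hQ
    refine ⟨Ne.symm hQ1, ?_, ?_⟩
    · by_contra h1
      apply hQ2
      refine Finset.mem_biUnion.mpr ⟨Q, ?_, Finset.mem_insert_self _ _⟩
      rw [supp, Finset.mem_filter]
      exact ⟨Finset.mem_univ _, h1⟩
    · intro R
      by_contra h1
      have h2 : t P R ≠ 0 := left_ne_zero_of_mul h1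
      have h3 : t R Q ≠ 0 := right_ne_zero_of_mul h1
      apply hQ2
      refine Finset.mem_biUnion.mpr ⟨R, ?_, Finset.mem_insert_of_mem ?_⟩
      · rw [supp, Finset.mem_filter]
        exact ⟨Finset.mem_univ _, h2⟩
      · rw [Finset.mem_erase, supp, Finset.mem_filter]
        exact ⟨hQ1, Finset.mem_univ _, h3⟩
  have hcard : (insert P (near P) ∪ insert P' (near P')).card < Fintype.card X := by
    have h1 := Finset.card_union_le (insert P (near P)) (insert P' (near P'))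
    have h2 := Finset.card_insert_le P (near P)
    have h3 := Finset.card_insert_le P' (near P')
    have h4 := hnear P
    have h5 := hnear P'
    omega
  obtain ⟨Q, hQ⟩ : ∃ Q, Q ∉ insert P (near P) ∪ insert P' (near P') := by
    by_contra hcon
    push Not at hcon
    have : insert P (near P) ∪ insert P' (near P') = univ :=
      Finset.eq_univ_iff_forall.mpr hcon
    rw [this, Finset.card_univ] at hcard
    exact lt_irrefl _ hcard
  rw [Finset.mem_union, not_or] at hQ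
  exact ⟨Q, hfar P Q hQ.1, hfar P' Q hQ.2⟩

omit [DecidableEq ι] in
theorem sum_ww_sq (h : IntSys A n x y g) {d m' : ℕ} (hm' : m' ≠ 0)
    {l : ℤ} {t : X → X → ℤ} (hT : TMat A x y g d m' l t) :
    ∑ P, ww x y l t P ^ 2 = ∑ P, ∑ Q, ∑ R, WW x y l t P R * WW x y l t R Q := by
  have h1 : ∀ P, ww x y l t P ^ 2 = ∑ Q, ∑ R, WW x y l t Q P * WW x y l t P R := by
    intro P
    have h2 : ww x y l t P = ∑ Q, WW x y l t Q P := by
      unfold ww
      exact Finset.sum_congr rfl fun Q _ => h.WW_symm hm' hT P Q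
    rw [sq]
    nth_rewrite 1 [h2]
    unfold ww
    rw [Finset.sum_mul_sum]
  simp_rw [h1]
  rw [Finset.sum_comm]
  refine Finset.sum_congr rfl fun P _ => ?_
  rw [Finset.sum_comm]

omit [DecidableEq ι] in
/-- If the rows of `t` are sparse, then every prime power dividing `d` divides `l ^ 2`. -/
theorem prime_pow_dvd (h : IntSys A n x y g) {d m' : ℕ} (hm' : m' ≠ 0)
    {l : ℤ} {t : X → X → ℤ} (hT : TMat A x y g d m' l t) (N : ℕ)
    (hN : ∀ P, (supp t P).card ≤ N) (hv : 2 * N ^ 2 + 2 < Fintype.card X)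
    (p k : ℕ) (hp : p.Prime) (hpv : (p : ℤ) ^ k ∣ (Fintype.card X : ℤ) + 1)
    (hW : ∀ P Q, (p : ℤ) ^ k ∣ ∑ R, WW x y l t P R * WW x y l t R Q) :
    (p : ℤ) ^ k ∣ l ^ 2 := by
  by_contra hnd
  have hl0 := hT.l0
  obtain ⟨l', hl'⟩ : ∃ l' : ℕ, l = l' := ⟨l.toNat, (Int.toNat_of_nonneg hl0.le).symm⟩
  have hl'0 : l' ≠ 0 := by
    intro h0
    rw [h0] at hl'
    simp at hl'
    omega
  obtain ⟨j, η', hη', hlj'⟩ := Nat.exists_eq_pow_mul_and_not_dvd hl'0 p hp.ne_one
  have hlj : l = (p : ℤ) ^ j * η' := by rw [hl', hlj']; push_cast; ring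
  set q : ℤ := (p : ℤ) with hq
  have hq0 : q ≠ 0 := by rw [hq]; exact_mod_cast hp.ne_zero
  have hcopη : ∀ a : ℕ, IsCoprime (q ^ a) (η' : ℤ) := by
    intro a
    apply IsCoprime.pow_left
    rw [hq, Nat.isCoprime_iff_coprime]
    exact (Nat.Prime.coprime_iff_not_dvd hp).mpr hη'
  have hjk : 2 * j < k := by
    by_contra hc
    rw [not_lt] at hc
    apply hnd
    have h1 : q ^ k ∣ q ^ (2 * j) := pow_dvd_pow _ hc
    refine h1.trans ⟨(η' : ℤ) ^ 2, ?_⟩
    rw [hlj]; ring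
  obtain ⟨e, he⟩ : ∃ e, k = j + e := ⟨k - j, by omega⟩
  have hje : j < e := by omega
  have hfar : ∀ P Q, (P ≠ Q ∧ t P Q = 0 ∧ ∀ R, t P R * t R Q = 0) →
      q ^ e ∣ ww x y l t P + ww x y l t Q - l := by
    intro P Q hPQ
    have h1 := hW P Q
    rw [h.WW_sq_far hm' hT hPQ.1 hPQ.2.1 hPQ.2.2] at h1
    have h2 : q ^ k ∣ l * (ww x y l t P + ww x y l t Q - l) := by
      have h3 := dvd_add h1 (hpv.mul_left (l ^ 2))
      have e1 : -l * (ww x y l t P + ww x y l t Q) - l ^ 2 * (Fintype.card X : ℤ) +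
          l ^ 2 * ((Fintype.card X : ℤ) + 1) = -(l * (ww x y l t P + ww x y l t Q - l)) := by ring
      rw [e1] at h3
      exact (dvd_neg).mp h3
    have h3 : q ^ j * q ^ e ∣ q ^ j * ((η' : ℤ) * (ww x y l t P + ww x y l t Q - l)) := by
      rw [← pow_add, ← he]
      have e2 : q ^ j * ((η' : ℤ) * (ww x y l t P + ww x y l t Q - l)) =
          l * (ww x y l t P + ww x y l t Q - l) := by
        have : l * (ww x y l t P + ww x y l t Q - l) =
            (q ^ j * (η' : ℤ)) * (ww x y l t P + ww x y l t Q - l) := by rw [← hlj]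
        rw [this]; ring
      rw [e2]
      exact h2
    have h4 : q ^ e ∣ (η' : ℤ) * (ww x y l t P + ww x y l t Q - l) :=
      (mul_dvd_mul_iff_left (pow_ne_zero j hq0)).mp h3
    exact (hcopη e).dvd_of_dvd_mul_left h4
  have hconst : ∀ P P', q ^ e ∣ ww x y l t P - ww x y l t P' := by
    intro P P'
    obtain ⟨Q, h1, h2⟩ := h.exists_far hm' hT N hN hv P P'
    have h3 := dvd_sub (hfar P Q h1) (hfar P' Q h2)
    have e1 : ww x y l t P + ww x y l t Q - l - (ww x y l t P' + ww x y l t Q - l) =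
        ww x y l t P - ww x y l t P' := by ring
    rwa [e1] at h3
  have htwo : ∀ P, q ^ e ∣ 2 * ww x y l t P - l := by
    intro P
    obtain ⟨Q, h1, -⟩ := h.exists_far hm' hT N hN hv P P
    have h3 := dvd_add (hfar P Q h1) (hconst P Q)
    have e1 : ww x y l t P + ww x y l t Q - l + (ww x y l t P - ww x y l t Q) =
        2 * ww x y l t P - l := by ring
    rwa [e1] at h3
  have hsq : ∀ P, q ^ k ∣ 4 * ww x y l t P ^ 2 - l ^ 2 := by
    intro P
    have h1 := htwo P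
    have h2 : q ^ j ∣ 2 * ww x y l t P + l := by
      have h3 : q ^ j ∣ 2 * ww x y l t P - l := (pow_dvd_pow _ hje.le).trans h1
      have h4 : q ^ j ∣ l := by rw [hlj]; exact dvd_mul_right _ _
      have h5 := dvd_add h3 (h4.mul_left 2)
      have e1 : 2 * ww x y l t P - l + 2 * l = 2 * ww x y l t P + l := by ring
      rwa [e1] at h5
    have h3 := mul_dvd_mul h2 h1
    rw [← pow_add, ← he] at h3
    have e1 : (2 * ww x y l t P + l) * (2 * ww x y l t P - l) =
        4 * ww x y l t P ^ 2 - l ^ 2 := by ring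
    rwa [e1] at h3
  have hS : q ^ k ∣ ∑ P, ww x y l t P ^ 2 := by
    rw [h.sum_ww_sq hm' hT]
    exact Finset.dvd_sum fun P _ => Finset.dvd_sum fun Q _ => hW P Q
  have hS' : q ^ k ∣ ∑ P, (4 * ww x y l t P ^ 2 - l ^ 2) := Finset.dvd_sum fun P _ => hsq P
  rw [Finset.sum_sub_distrib, ← Finset.mul_sum, Finset.sum_const, Finset.card_univ,
    nsmul_eq_mul] at hS'
  apply hnd
  have h1 := dvd_sub (dvd_add hS' (hpv.mul_left (l ^ 2))) (hS.mul_left 4)
  have e1 : 4 * ∑ P, ww x y l t P ^ 2 - (Fintype.card X : ℤ) * l ^ 2 +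
      l ^ 2 * ((Fintype.card X : ℤ) + 1) - 4 * ∑ P, ww x y l t P ^ 2 = l ^ 2 := by ring
  rwa [e1] at h1

/-- The quadratic relation for a row of `t`. -/
theorem row_rel (h : IntSys A n x y g) {d m' : ℕ} (hm : (x : ℤ) - y = m' * d) (hm' : m' ≠ 0)
    {l : ℤ} {t : X → X → ℤ} (hT : TMat A x y g d m' l t) (Q : X) :
    ((x : ℤ) + y) * ∑ P, t P Q ^ 2 + (d - 2 * l) * ∑ P, t P Q = g * (l * (d - l)) := by
  have h1 := h.K6 Q
  have hs : ((x : ℤ) + y) ≠ 0 := by
    have := h.hy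
    have : (0 : ℤ) < y := by exact_mod_cast this
    positivity
  have hm0 : (m' : ℤ) ≠ 0 := by exact_mod_cast hm'
  have h2 : ∀ P ∈ univ.erase Q, (((x : ℤ) + y) * cc A P Q - x * (g * x + 1)) *
      (((x : ℤ) + y) * cc A P Q - x * (g * x + 1) + (x - y)) =
      (m' : ℤ) ^ 2 * (((x : ℤ) + y) ^ 2 * t P Q ^ 2 +
        ((x : ℤ) + y) * (d - 2 * l) * t P Q - l * (d - l)) := by
    intro P hP
    have hPQ := (Finset.mem_erase.mp hP).1
    have h3 := hT.cceq P Q hPQ
    have h4 : ((x : ℤ) + y) * cc A P Q - x * (g * x + 1) =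
        m' * (((x : ℤ) + y) * t P Q - l) := by linear_combination h3
    rw [h4, hm]
    ring
  rw [Finset.sum_congr rfl h2, ← Finset.mul_sum] at h1
  have h3 := (mul_eq_zero.mp h1).resolve_left (pow_ne_zero 2 hm0)
  rw [Finset.sum_sub_distrib, Finset.sum_add_distrib, ← Finset.mul_sum, ← Finset.mul_sum,
    Finset.sum_const, Finset.card_erase_of_mem (Finset.mem_univ Q), Finset.card_univ, h.cardX,
    Nat.add_sub_cancel, nsmul_eq_mul] at h3
  have h4 : ∑ P ∈ univ.erase Q, t P Q ^ 2 = ∑ P, t P Q ^ 2 := by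
    rw [← Finset.add_sum_erase _ _ (Finset.mem_univ Q), hT.diag]
    ring
  have h5 : ∑ P ∈ univ.erase Q, t P Q = ∑ P, t P Q := by
    rw [← Finset.add_sum_erase _ _ (Finset.mem_univ Q), hT.diag]
    ring
  rw [h4, h5] at h3
  push_cast at h3
  apply mul_left_cancel₀ hs
  linear_combination h3

/-- The size of the support of a row. -/
theorem supp_bound (h : IntSys A n x y g) {d m' : ℕ} (hm : (x : ℤ) - y = m' * d) (hm' : m' ≠ 0)
    {l : ℤ} {t : X → X → ℤ} (hT : TMat A x y g d m' l t) (Q : X) :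
    ((supp t Q).card : ℤ) * ((x : ℤ) + y - |(d : ℤ) - 2 * l|) ≤ g * (l * (d - l)) := by
  have h1 := h.row_rel hm hm' hT Q
  set S2 := ∑ P, t P Q ^ 2 with hS2
  set S1 := ∑ P, t P Q with hS1
  have h2 : ((supp t Q).card : ℤ) ≤ S2 := by
    rw [Finset.card_eq_sum_ones]
    push_cast
    rw [supp, Finset.sum_filter]
    refine Finset.sum_le_sum fun P _ => ?_
    rw [h.tsymm hm' hT P Q]
    split
    · next h3 =>
      have := Int.one_le_abs h3
      nlinarith [sq_abs (t Q P)]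
    · positivity
  have h3 : |S1| ≤ S2 := by
    refine (Finset.abs_sum_le_sum_abs _ _).trans (Finset.sum_le_sum fun P _ => ?_)
    rcases eq_or_ne (t P Q) 0 with h4 | h4
    · rw [h4]; simp
    · have := Int.one_le_abs h4
      nlinarith [sq_abs (t P Q)]
  have h4 : 0 ≤ ((x : ℤ) + y - |(d : ℤ) - 2 * l|) := by
    have h5 : |(d : ℤ) - 2 * l| ≤ d := by
      rw [abs_le]
      have := hT.l0
      have := hT.l1
      constructor <;> linarith
    have h6 : (d : ℤ) ≤ x - y := by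
      rw [hm]
      have : (1 : ℤ) ≤ m' := by exact_mod_cast Nat.one_le_iff_ne_zero.mpr hm'
      nlinarith [Int.natCast_nonneg d]
    have := h.hy
    have : (0 : ℤ) < y := by exact_mod_cast this
    linarith
  have h5 : -(|(d : ℤ) - 2 * l| * S2) ≤ (d - 2 * l) * S1 := by
    have h6 : |((d : ℤ) - 2 * l) * S1| ≤ |(d : ℤ) - 2 * l| * S2 := by
      rw [abs_mul]
      exact mul_le_mul_of_nonneg_left h3 (abs_nonneg _)
    have := neg_abs_le (((d : ℤ) - 2 * l) * S1)
    linarith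
  have h6 : ((supp t Q).card : ℤ) * ((x : ℤ) + y - |(d : ℤ) - 2 * l|) ≤
      S2 * ((x : ℤ) + y - |(d : ℤ) - 2 * l|) := mul_le_mul_of_nonneg_right h2 h4
  nlinarith

omit [DecidableEq ι] in
/-- The residue of `l` modulo `x + y`. -/
theorem l_mod (h : IntSys A n x y g) {d m' : ℕ} (hm : (x : ℤ) - y = m' * d)
    {l : ℤ} {t : X → X → ℤ} (hT : TMat A x y g d m' l t) {P Q : X} (hPQ : P ≠ Q) :
    ((x : ℤ) + y) ∣ 2 * l - d * (g * x + 1) := by
  have h1 := hT.cceq P Q hPQ
  have h2 : ((x : ℤ) + y) ∣ x * (2 * l - d * (g * x + 1)) := by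
    refine ⟨l - d * cc A P Q + (x - y) * t P Q, ?_⟩
    have h3 : (d : ℤ) * (((x : ℤ) + y) * cc A P Q) =
        d * (x * (g * x + 1)) + (m' * d) * (((x : ℤ) + y) * t P Q - l) := by
      rw [h1]; ring
    rw [← hm] at h3
    linear_combination h3
  have h4 : IsCoprime ((x : ℤ) + y) (x : ℤ) := by
    have h5 : IsCoprime (x : ℤ) (y : ℤ) := Nat.isCoprime_iff_coprime.mpr h.cop
    have := h5.symm.add_mul_left_left 1
    have e : (y : ℤ) + x * 1 = x + y := by ring
    rwa [e] at this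
  exact h4.dvd_of_dvd_mul_left h2

/-- The arithmetic of the bound. -/
theorem plane_num (g s d l N : ℤ) (hg : 1 ≤ g) (hl0 : 0 < l) (hl1 : l < d) (hds : d + 2 ≤ s)
    (h1 : N * (s - |d - 2 * l|) ≤ g * (l * (d - l))) (hN : 0 ≤ N)
    (h2 : g * s + 1 ≤ 2 * N ^ 2 + 2) : 4 * s ^ 3 < g * d ^ 4 := by
  by_contra hcon
  rw [not_lt] at hcon
  have hd2 : 2 ≤ d := by linarith
  have hs4 : 4 ≤ s := by linarith
  have hd4 : d ^ 4 ≤ g * d ^ 4 := by nlinarith [pow_pos (by linarith : (0 : ℤ) < d) 4]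
  -- step 1
  have hi : 20 * d ≤ 17 * s := by
    by_contra hc
    rw [not_le] at hc
    have h3 : (17 * s) ^ 4 < (20 * d) ^ 4 := pow_lt_pow_left₀ hc (by linarith) (by norm_num)
    have h4 : 14 ≤ s := by omega
    have h5 : 83521 * s ^ 4 < 640000 * s ^ 3 := by nlinarith
    have h6 : 0 < s ^ 3 := by positivity
    have h7 : s ^ 3 * (83521 * s) < s ^ 3 * 640000 := by nlinarith
    have h8 := lt_of_mul_lt_mul_left h7 h6.le
    linarith
  set δ := |d - 2 * l| with hδ
  have hδ2 : δ ^ 2 = (d - 2 * l) ^ 2 := sq_abs _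
  have hδd : δ < d := by
    rw [hδ, abs_lt]
    constructor <;> linarith
  have hδ0 : 0 ≤ δ := abs_nonneg _
  -- step 2
  have hii : 0 ≤ 31 * s * d ^ 2 - 131 * d ^ 2 * δ + 100 * s * δ ^ 2 := by
    have h3 : 0 ≤ d ^ 2 * (12400 * s ^ 2 - 17161 * d ^ 2) := by
      apply mul_nonneg (by positivity)
      nlinarith
    have h4 : 0 ≤ (400 * s) * (31 * s * d ^ 2 - 131 * d ^ 2 * δ + 100 * s * δ ^ 2) := by
      nlinarith [sq_nonneg (200 * s * δ - 131 * d ^ 2)]
    by_contra hc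
    rw [not_le] at hc
    have : (400 * s) * (31 * s * d ^ 2 - 131 * d ^ 2 * δ + 100 * s * δ ^ 2) < 0 :=
      mul_neg_of_pos_of_neg (by linarith) hc
    linarith
  -- step 3
  have hiii : 400 * s * N ≤ 131 * g * d ^ 2 := by
    have h3 : 4 * (N * (s - δ)) ≤ g * (d ^ 2 - δ ^ 2) := by
      rw [hδ2]; nlinarith
    have h4 : (100 * s) * (4 * (N * (s - δ))) ≤ (100 * s) * (g * (d ^ 2 - δ ^ 2)) :=
      mul_le_mul_of_nonneg_left h3 (by linarith)
    have h5 : g * (100 * s * (d ^ 2 - δ ^ 2)) ≤ g * (131 * d ^ 2 * (s - δ)) :=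
      mul_le_mul_of_nonneg_left (by linarith) (by linarith)
    have h6 : (s - δ) * (400 * s * N) ≤ (s - δ) * (131 * g * d ^ 2) := by linarith
    exact le_of_mul_le_mul_left h6 (by linarith)
  -- step 4
  have hiv : 160000 * N ^ 2 ≤ 68644 * (g * s) := by
    have h3 : (400 * s * N) ^ 2 ≤ (131 * g * d ^ 2) ^ 2 :=
      pow_le_pow_left₀ (by positivity) hiii 2
    have h4 : g * (g * d ^ 4) ≤ g * (4 * s ^ 3) := mul_le_mul_of_nonneg_left hcon (by linarith)
    have h5 : s ^ 2 * (160000 * N ^ 2) ≤ s ^ 2 * (68644 * (g * s)) := by nlinarith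
    exact le_of_mul_le_mul_left h5 (by positivity)
  have hv : g * s ≤ 7 := by linarith
  have hg1 : g = 1 := by
    by_contra hne
    have : 2 ≤ g := by omega
    nlinarith
  subst hg1
  have hN1 : N ≤ 1 := by
    by_contra hc
    rw [not_le] at hc
    have : 2 ≤ N := by omega
    have h3 : d ^ 2 ≤ (s - 2) ^ 2 := pow_le_pow_left₀ (by linarith) (by linarith) 2
    nlinarith
  nlinarith

end IntSys

namespace IsLambdaDesign

variable {v lam : ℕ} {L : Finset (Finset (Fin v))}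

/-- The data of a `λ`-design that is not type-1. -/
theorem exists_data (h : IsLambdaDesign v lam L) {P Q : Fin v}
    (hPQ : repl L Q < repl L P) (hn : ¬ IsType1 v L) :
    ∃ (A : Option {B // B ∈ L} → Finset (Fin v)) (n : Option {B // B ∈ L} → ℕ)
      (x y g d m' l : ℕ) (t : Fin v → Fin v → ℤ),
      IntSys A n x y g ∧ v = g * (x + y) + 1 ∧ repl L P = g * x + 1 ∧ repl L Q = g * y + 1 ∧
      rgcd L P Q = g ∧ (repl L P - repl L Q) / rgcd L P Q = x - y ∧
      (v - 1) / rgcd L P Q = x + y ∧ d = Nat.gcd lam (x - y) ∧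
      (x : ℤ) - y = m' * d ∧ m' ≠ 0 ∧ TMat A x y g d m' l t ∧ 0 < l ∧ l < d ∧
      ((x : ℤ) + y ∣ 2 * l - d * (g * x + 1)) ∧
      (d ∣ l ^ 2 ∨ 4 * (x + y) ^ 3 < g * d ^ 4) := by
  obtain ⟨E, x, y, g, hE1, hE2, hI, hr1, hr2⟩ := h.exists_intSys
  have hnc : ¬ ∃ c, ∀ P Q, P ≠ Q → cc (setOf' L E) P Q = c :=
    fun hc => hn (h.isType1_of_const hE1 hE2 hI hc)
  have hg := hI.hg
  have hxy := hI.hxy
  have hcard := hI.cardX
  rw [Fintype.card_fin] at hcard
  have hlt : g * y + 1 < g * x + 1 := by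
    have := Nat.mul_lt_mul_of_pos_left hxy hg
    omega
  have hPval : repl L P = g * x + 1 ∧ repl L Q = g * y + 1 := by
    by_cases h1 : P ∈ E <;> by_cases h2 : Q ∈ E
    · rw [hr2 P h1, hr2 Q h2] at hPQ; omega
    · rw [hr2 P h1, hr1 Q h2] at hPQ; omega
    · exact ⟨hr1 P h1, hr2 Q h2⟩
    · rw [hr1 P h1, hr1 Q h2] at hPQ; omega
  have hrg : rgcd L P Q = g := by
    unfold rgcd
    rw [hPval.1, hPval.2, Nat.add_sub_cancel, Nat.add_sub_cancel, Nat.gcd_mul_left,
      hI.cop.gcd_eq_one, mul_one]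
  have e1 : (repl L P - repl L Q) / rgcd L P Q = x - y := by
    rw [hrg, hPval.1, hPval.2]
    have : g * x + 1 - (g * y + 1) = g * (x - y) := by
      rw [Nat.mul_sub]; omega
    rw [this, Nat.mul_div_cancel_left _ hg]
  have e2 : (v - 1) / rgcd L P Q = x + y := by
    rw [hrg, hcard, Nat.add_sub_cancel, Nat.mul_div_cancel_left _ hg]
  set d := Nat.gcd lam (x - y) with hdd
  obtain ⟨l, t, hT⟩ := hI.exists_tmat none d ((x - y) / d) rfl rfl hnc
  set m' := (x - y) / d with hm'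
  have hmpos : 0 < x - y := by omega
  have hdpos : 0 < d := Nat.gcd_pos_of_pos_right _ hmpos
  have hddm : d ∣ x - y := Nat.gcd_dvd_right _ _
  have hmm : x - y = m' * d := by rw [hm']; exact (Nat.div_mul_cancel hddm).symm
  have hm'0 : m' ≠ 0 := by
    intro h0
    rw [h0] at hmm; omega
  have hmZ : (x : ℤ) - y = m' * d := by
    have : ((x - y : ℕ) : ℤ) = m' * d := by rw [hmm]; push_cast; ring
    rw [Nat.cast_sub hxy.le] at this
    exact this
  have hdlam : d ∣ lam := Nat.gcd_dvd_left _ _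
  have hcop : Nat.Coprime (lam / d) m' := by
    rw [hm', hdd]
    exact Nat.coprime_div_gcd_div_gcd (by rw [← hdd]; exact hdpos)
  -- congruences modulo `m`
  have hn0 : (numOf L lam none : ℕ) = lam := rfl
  have hK3 : ∀ i, ((x : ℤ) - y) ∣ (numOf L lam i : ℤ) - lam := by
    intro i
    have := hI.K3 none i
    rwa [hn0] at this
  have hdn : ∀ i, d ∣ numOf L lam i := by
    intro i
    have h1 := hK3 i
    have h2 : (d : ℤ) ∣ (x : ℤ) - y := ⟨m', by rw [hmZ]; ring⟩
    have h3 : (d : ℤ) ∣ (lam : ℤ) := by exact_mod_cast hdlam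
    have h4 : (d : ℤ) ∣ (numOf L lam i : ℤ) := by
      have := dvd_add (h2.trans h1) h3
      simpa using this
    exact_mod_cast h4
  have hK1 : ((x : ℤ) - y) ∣ x * (g * x + 1) - (x + y) * lam := by
    have := hI.K1 none
    rw [hn0] at this
    exact ⟨_, this.symm⟩
  have hcopx : IsCoprime (d : ℤ) (x : ℤ) := by
    have h1 : IsCoprime (x : ℤ) (y : ℤ) := Nat.isCoprime_iff_coprime.mpr hI.cop
    have h2 : IsCoprime ((x : ℤ) - y) x := by
      have := (h1.symm.add_mul_left_left (-1)).neg_left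
      have e : -((y : ℤ) + x * -1) = x - y := by ring
      rwa [e] at this
    exact h2.of_isCoprime_of_dvd_left ⟨m', by rw [hmZ]; ring⟩
  have hdr : (d : ℤ) ∣ g * x + 1 := by
    have h0 : (d : ℤ) ∣ (x : ℤ) - y := ⟨m', by rw [hmZ]; ring⟩
    have h1 : (d : ℤ) ∣ x * (g * x + 1) := by
      have h3 : (d : ℤ) ∣ (lam : ℤ) := by exact_mod_cast hdlam
      have := dvd_add (h0.trans hK1) (h3.mul_left ((x : ℤ) + y))
      have e : (x : ℤ) * (g * x + 1) - (x + y) * lam + (x + y) * lam = x * (g * x + 1) := by ring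
      rwa [e] at this
    exact hcopx.dvd_of_dvd_mul_left h1
  have hdv : (d : ℤ) ∣ (v : ℤ) + 1 := by
    have h0 : (d : ℤ) ∣ (x : ℤ) - y := ⟨m', by rw [hmZ]; ring⟩
    have h1 := dvd_sub (hdr.mul_left 2) (h0.mul_left (g : ℤ))
    have e : 2 * ((g : ℤ) * x + 1) - g * (x - y) = v + 1 := by
      rw [hcard]; push_cast; ring
    rwa [e] at h1
  -- the maximal support
  set N := Finset.sup univ (fun P => (IntSys.supp t P).card) with hNdef
  have hNle : ∀ P, (IntSys.supp t P).card ≤ N := fun P =>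
    Finset.le_sup (f := fun P => (IntSys.supp t P).card) (Finset.mem_univ P)
  obtain ⟨k, hk⟩ : ∃ k : ℕ, l = k := ⟨l.toNat, (Int.toNat_of_nonneg hT.l0.le).symm⟩
  have hPneQ : P ≠ Q := by
    intro h0
    rw [h0] at hPQ
    exact lt_irrefl _ hPQ
  have hl0 := hT.l0
  have hl1 := hT.l1
  have hl3 := hI.l_mod hmZ hT hPneQ
  rw [hk] at hl0 hl1 hl3
  refine ⟨setOf' L E, numOf L lam, x, y, g, d, m', k, t, hI, hcard, hPval.1, hPval.2, hrg, e1, e2,
    rfl, hmZ, hm'0, hk ▸ hT, by exact_mod_cast hl0, by exact_mod_cast hl1, hl3, ?_⟩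
  by_cases hc : 2 * N ^ 2 + 2 < v
  · left
    have hcopi : ∀ i, Nat.Coprime (numOf L lam i / d) m' := by
      intro i
      obtain ⟨νi, hνi⟩ := hdn i
      obtain ⟨ν0, hν0⟩ := hdlam
      rw [hνi, Nat.mul_div_cancel_left _ hdpos]
      rw [hν0, Nat.mul_div_cancel_left _ hdpos] at hcop
      have h1 := hK3 i
      rw [hνi] at h1
      have h2 : (m' : ℤ) * d ∣ (νi - ν0) * d := by
        rw [hmZ] at h1
        have e : ((d * νi : ℕ) : ℤ) - lam = (νi - ν0) * d := by
          rw [hν0]; push_cast; ring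
        rwa [e] at h1
      have h3 : (m' : ℤ) ∣ (νi : ℤ) - ν0 :=
        Int.dvd_of_mul_dvd_mul_right (by exact_mod_cast hdpos.ne') h2
      rw [← Nat.isCoprime_iff_coprime] at hcop ⊢
      obtain ⟨c, hc⟩ := h3
      have h4 : (νi : ℤ) = ν0 + m' * c := by linarith
      rw [h4]
      exact hcop.add_mul_left_left c
    have hdvl : ∀ p k : ℕ, p.Prime → p ^ k ∣ d → (p : ℤ) ^ k ∣ l ^ 2 := by
      intro p k hp hpd
      refine hI.prime_pow_dvd hm'0 hT N hNle (by rwa [Fintype.card_fin]) p k hp ?_ ?_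
      · rw [Fintype.card_fin]
        exact (by exact_mod_cast hpd : (p : ℤ) ^ k ∣ (d : ℤ)).trans hdv
      · intro P Q
        exact hI.dvd_WW_sq hmZ hm'0 hT hdn hdr hcopi P Q p k hp hpd
    rw [Nat.dvd_iff_prime_pow_dvd_dvd]
    intro p k' hp hpd
    have := hdvl p k' hp hpd
    rw [hk] at this
    exact_mod_cast this
  · right
    rw [not_lt] at hc
    -- a point with the maximal support
    have hne : (univ : Finset (Fin v)).Nonempty := ⟨P, Finset.mem_univ _⟩
    obtain ⟨Q0, -, hQ0⟩ := Finset.exists_mem_eq_sup univ hne (fun P => (IntSys.supp t P).card)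
    have hb := hI.supp_bound hmZ hm'0 hT Q0
    have hNQ : ((IntSys.supp t Q0).card : ℤ) = N := by rw [hNdef, hQ0]
    rw [hNQ] at hb
    have hds : (d : ℤ) + 2 ≤ x + y := by
      have h1 : (d : ℤ) ≤ x - y := by
        rw [hmZ]
        have : (1 : ℤ) ≤ m' := by exact_mod_cast Nat.one_le_iff_ne_zero.mpr hm'0
        nlinarith [Int.natCast_nonneg d]
      have h2 : (1 : ℤ) ≤ y := by exact_mod_cast hI.hy
      linarith
    have hnum := IntSys.plane_num g ((x : ℤ) + y) d l N (by exact_mod_cast hg) hT.l0 hT.l1 hds hb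
      (by positivity) (by
        have h1 : ((v : ℕ) : ℤ) ≤ 2 * N ^ 2 + 2 := by exact_mod_cast hc
        rw [hcard] at h1
        push_cast at h1
        linarith)
    exact_mod_cast hnum

/-- The parameters of a `λ`-design that is not type-1: there is a number `l` with
`0 < l < d = gcd (λ, x - y)`, `x + y ∣ 2 l - d r₁`, and `d ∣ l ^ 2` or `g d ^ 4 > 4 (x + y) ^ 3`. -/
theorem exists_l (h : IsLambdaDesign v lam L) {P Q : Fin v}
    (hPQ : repl L Q < repl L P) (hn : ¬ IsType1 v L) :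
    ∃ l : ℕ, 0 < l ∧ l < Nat.gcd lam ((repl L P - repl L Q) / rgcd L P Q) ∧
      (((v - 1) / rgcd L P Q : ℕ) : ℤ) ∣
        2 * l - Nat.gcd lam ((repl L P - repl L Q) / rgcd L P Q) * repl L P ∧
      (Nat.gcd lam ((repl L P - repl L Q) / rgcd L P Q) ∣ l ^ 2 ∨
        4 * ((v - 1) / rgcd L P Q) ^ 3 <
          rgcd L P Q * Nat.gcd lam ((repl L P - repl L Q) / rgcd L P Q) ^ 4) := by
  obtain ⟨A, n, x, y, g, d, m', l, t, hI, hv, hP, hQ, hrg, e1, e2, hd, hm, hm', hT, hl0, hl1, hl2,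
    hl3⟩ := h.exists_data hPQ hn
  rw [e1, e2, hrg, hP, ← hd]
  exact ⟨l, hl0, hl1, by exact_mod_cast hl2, hl3⟩

/-- A `λ`-design is type-1 if every number `l` with `0 < l < d = gcd (λ, x - y)` and
`x + y ∣ 2 l - d r₁` satisfies `¬ d ∣ l ^ 2` and `g d ^ 4 ≤ 4 (x + y) ^ 3`. -/
theorem isType1_of_plane (h : IsLambdaDesign v lam L) {P Q : Fin v}
    (hPQ : repl L Q < repl L P)
    (hd : ∀ l : ℕ, 0 < l → l < Nat.gcd lam ((repl L P - repl L Q) / rgcd L P Q) →
      (((v - 1) / rgcd L P Q : ℕ) : ℤ) ∣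
        2 * l - Nat.gcd lam ((repl L P - repl L Q) / rgcd L P Q) * repl L P →
      ¬ Nat.gcd lam ((repl L P - repl L Q) / rgcd L P Q) ∣ l ^ 2 ∧
        rgcd L P Q * Nat.gcd lam ((repl L P - repl L Q) / rgcd L P Q) ^ 4 ≤
          4 * ((v - 1) / rgcd L P Q) ^ 3) :
    IsType1 v L := by
  by_contra hn
  obtain ⟨l, h1, h2, h3, h4⟩ := h.exists_l hPQ hn
  obtain ⟨h5, h6⟩ := hd l h1 h2 h3
  rcases h4 with h4 | h4
  · exact h5 h4
  · omega

/-- A `λ`-design with `gcd (λ, x - y)` square-free and `g gcd (λ, x - y) ^ 4 ≤ 4 (x + y) ^ 3` is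
type-1. -/
theorem isType1_of_squarefree (h : IsLambdaDesign v lam L) {P Q : Fin v}
    (hPQ : repl L Q < repl L P)
    (hd : Squarefree (Nat.gcd lam ((repl L P - repl L Q) / rgcd L P Q)))
    (hs : rgcd L P Q * Nat.gcd lam ((repl L P - repl L Q) / rgcd L P Q) ^ 4 ≤
      4 * ((v - 1) / rgcd L P Q) ^ 3) :
    IsType1 v L := by
  refine h.isType1_of_plane hPQ ?_
  intro l hl0 hl1 _
  refine ⟨fun hl2 => ?_, hs⟩
  have h1 := (Squarefree.dvd_pow_iff_dvd hd two_ne_zero).mp hl2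
  exact absurd (Nat.le_of_dvd hl0 h1) (by omega)

end IsLambdaDesign

end Pool.Agent.Lib.MP_93e743_co
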