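import Mathlib

/-!
Integral matrices attached to a hypothetical `λ`-design that is not type-1, and the sparse case.
-/

namespace Pool.Agent.Lib.MP_93e743_co

open Finset

variable {ι X : Type*} [Fintype X] [DecidableEq X]

/-- The matrix `t` and its relations to the sets `A i`. -/
structure RMat (A : ι → Finset X) (b : ι → ℤ) (t : X → X → ℤ) (x y g d l : ℤ) : Prop where
  hy : 0 < y
  hxy : y < x
  hg : 0 < g
  hl : 0 < l
  hld : l < d
  hdm : d ∣ x - y
  hr : d ∣ g * x + 1
  cop : IsCoprime x y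
  cardX : (Fintype.card X : ℤ) = g * (x + y) + 1
  symm : ∀ P Q, t P Q = t Q P
  diag : ∀ P, t P P = 0
  card : ∀ i, ((A i).card : ℤ) = g * x + b i
  key : ∀ P, (x + y) * ∑ Q, t P Q ^ 2 + (d - 2 * l) * ∑ Q, t P Q = g * (l * (d - l))
  row : ∀ i P, (x + y) * ∑ Q ∈ A i, t P Q =
    l * b i + x * ∑ Q, t P Q - (d * b i - d + l) * (if P ∈ A i then 1 else 0)
  span : ∀ z : X → ℚ, (∀ i, ∑ Q ∈ A i, z Q = 0) → ∀ Q, z Q = 0
  avoid : ∀ P Q, ∃ i, P ∉ A i ∧ Q ∉ A i
  two : ∃ i j, b i ≠ b j

namespace RMat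

variable {A : ι → Finset X} {b : ι → ℤ} {t : X → X → ℤ} {x y g d l : ℤ}

lemma spos (h : RMat A b t x y g d l) : 0 < x + y := by
  have := h.hy; have := h.hxy; linarith

lemma d_lt (h : RMat A b t x y g d l) : d < x + y := by
  have h1 := h.hy
  have h2 := h.hxy
  have := Int.le_of_dvd (by linarith) h.hdm
  linarith

omit [DecidableEq X] in
lemma abs_le (t : X → X → ℤ) (P : X) : |∑ Q, t P Q| ≤ ∑ Q, t P Q ^ 2 := by
  refine (Finset.abs_sum_le_sum_abs _ _).trans (Finset.sum_le_sum fun Q _ => ?_)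
  rw [← sq_abs]
  rcases eq_or_ne (t P Q) 0 with h0 | h0
  · simp [h0]
  · have := Int.one_le_abs h0
    nlinarith [abs_nonneg (t P Q)]

lemma dvd_sub (h : RMat A b t x y g d l) (P Q : X) :
    (x + y) ∣ (∑ R, t P R) - ∑ R, t Q R := by
  obtain ⟨i, hP, hQ⟩ := h.avoid P Q
  have h1 := h.row i P
  have h2 := h.row i Q
  rw [if_neg hP] at h1
  rw [if_neg hQ] at h2
  have hc : IsCoprime (x + y) x := by
    have := h.cop.symm.add_mul_left_left 1
    simpa [add_comm] using this
  refine hc.dvd_of_dvd_mul_left (y := x) ?_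
  refine ⟨(∑ R ∈ A i, t P R) - ∑ R ∈ A i, t Q R, ?_⟩
  linear_combination h2 - h1

/-- Under the first hypothesis the row sums are constant. -/
lemma const (h : RMat A b t x y g d l) (h1 : 2 * (g * (l * (d - l))) < (x + y) ^ 2 - (d - 2 * l) ^ 2)
    (P Q : X) : ∑ R, t P R = ∑ R, t Q R := by
  by_contra hne
  wlog hlt : ∑ R, t Q R < ∑ R, t P R generalizing P Q with H
  · exact H Q P (Ne.symm hne) (lt_of_le_of_ne (not_lt.mp hlt) hne)
  set u := ∑ R, t P R with hu
  set w := ∑ R, t Q R with hw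
  have hs := h.spos
  have hd := h.d_lt
  have hl := h.hl
  have hld := h.hld
  set s := x + y with hsd
  set D := d - 2 * l with hD
  have hDs : D < s := by rw [hD]; linarith
  have hDs' : -s < D := by rw [hD]; linarith
  have hdiv := h.dvd_sub P Q
  have huw : s ≤ u - w := Int.le_of_dvd (by linarith) hdiv
  have hP := abs_le t P
  have hQ := abs_le t Q
  have kP := h.key P
  have kQ := h.key Q
  rw [← hu] at hP kP
  rw [← hw] at hQ kQ
  set e := g * (l * (d - l)) with he
  rw [← hsd] at kP kQ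
  rw [← hD] at kP kQ
  -- general inequalities
  have aP : (s + D) * u ≤ e := by
    have := le_abs_self u
    nlinarith
  have aQ : (s - D) * (-w) ≤ e := by
    have := neg_le_abs w
    nlinarith
  have he0 : 0 ≤ e := by
    rw [he]
    have := h.hg
    have : 0 ≤ l * (d - l) := mul_nonneg hl.le (by linarith)
    positivity
  have f1 : (s - D) * ((s + D) * u) ≤ (s - D) * e :=
    mul_le_mul_of_nonneg_left aP (by linarith)
  have f2 : (s + D) * ((s - D) * (-w)) ≤ (s + D) * e :=
    mul_le_mul_of_nonneg_left aQ (by linarith)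
  have f3 : (s ^ 2 - D ^ 2) * (u - w) ≤ 2 * s * e := by nlinarith
  have f4 : 0 < s ^ 2 - D ^ 2 := by nlinarith
  have f5 : (s ^ 2 - D ^ 2) * s ≤ 2 * s * e :=
    (mul_le_mul_of_nonneg_left huw f4.le).trans f3
  have f6 : s * (s ^ 2 - D ^ 2) ≤ s * (2 * e) := by linarith
  have := le_of_mul_le_mul_left f6 hs
  linarith

section Const

variable {θ : ℤ}

/-- The quadratic equation for the numbers `b i`. -/
lemma quad (h : RMat A b t x y g d l) (hθ : ∀ P, ∑ R, t P R = θ) (i : ι) :
    d * b i ^ 2 - (l * g * (x + y) + d - d * g * x - (x + y) * θ) * b i -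
      x * (θ + (d - l) * g) = 0 := by
  have h1 : ∑ P, (x + y) * ∑ Q ∈ A i, t P Q =
      ∑ P, (l * b i + x * θ - (d * b i - d + l) * (if P ∈ A i then (1 : ℤ) else 0)) := by
    refine Finset.sum_congr rfl fun P _ => ?_
    rw [h.row i P, hθ P]
  have h2 : ∑ P, (x + y) * ∑ Q ∈ A i, t P Q = (x + y) * (θ * (A i).card) := by
    rw [← Finset.mul_sum, Finset.sum_comm]
    congr 1
    have : ∀ Q ∈ A i, ∑ P, t P Q = θ := by
      intro Q _
      rw [← hθ Q]
      exact Finset.sum_congr rfl fun P _ => h.symm P Q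
    rw [Finset.sum_congr rfl this, Finset.sum_const, nsmul_eq_mul]
    ring
  have h3 : ∑ P, (l * b i + x * θ - (d * b i - d + l) * (if P ∈ A i then (1 : ℤ) else 0)) =
      (Fintype.card X : ℤ) * (l * b i + x * θ) - (d * b i - d + l) * (A i).card := by
    rw [Finset.sum_sub_distrib, Finset.sum_const, Finset.card_univ, nsmul_eq_mul,
      ← Finset.mul_sum]
    congr 2
    rw [Finset.sum_ite_mem, Finset.univ_inter]
    simp
  rw [h2, h3, h.cardX, h.card i] at h1
  linear_combination h1

lemma cop_d (h : RMat A b t x y g d l) : IsCoprime d x := by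
  obtain ⟨k, hk⟩ := h.hr
  exact ⟨k, -g, by linear_combination -hk⟩

/-- `θ` is congruent to `l g` modulo `d`. -/
lemma dvd_theta (h : RMat A b t x y g d l) (hθ : ∀ P, ∑ R, t P R = θ) : d ∣ θ - l * g := by
  obtain ⟨i, j, hij⟩ := h.two
  have hi := h.quad hθ i
  have hj := h.quad hθ j
  set K := l * g * (x + y) + d - d * g * x - (x + y) * θ with hK
  have h1 : (b i - b j) * (d * (b i + b j) - K) = 0 := by linear_combination hi - hj
  have h2 : K = d * (b i + b j) := by
    rcases mul_eq_zero.mp h1 with h3 | h3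
    · exact absurd (sub_eq_zero.mp h3) hij
    · linarith
  have h3 : x * (θ + (d - l) * g) = d * (-(b i * b j)) := by
    rw [h2] at hi
    linear_combination -hi
  refine h.cop_d.dvd_of_dvd_mul_left (y := x) ⟨-(b i * b j) - x * g, ?_⟩
  linear_combination h3

/-- `θ` is not an eigenvalue belonging to a set `A i`. -/
lemma ne_eig (h : RMat A b t x y g d l) (hθ : ∀ P, ∑ R, t P R = θ) (i : ι) :
    (x + y) * θ ≠ d - l - d * b i := by
  intro h1
  obtain ⟨k, hk⟩ := h.dvd_theta hθ
  obtain ⟨m', hm'⟩ := h.hdm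
  obtain ⟨ρ, hρ⟩ := h.hr
  have h2 : l = d * (2 * l * ρ + 2 * x * k - m' * θ - 1 + b i) := by
    linear_combination -h1 + 2 * l * hρ + 2 * x * hk - θ * hm'
  have h3 : d ∣ l := ⟨_, h2⟩
  have := Int.le_of_dvd h.hl h3
  have := h.hld
  linarith

/-- The matrix `s² T² - a s T - b`. -/
def zz (t : X → X → ℤ) (s a β : ℤ) (P R : X) : ℤ :=
  s ^ 2 * (∑ Q, t P Q * t Q R) - a * s * t P R - β * (if P = R then 1 else 0)

lemma zz_symm (h : RMat A b t x y g d l) (s a β : ℤ) (P R : X) :
    zz t s a β P R = zz t s a β R P := by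
  unfold zz
  have h1 : ∑ Q, t P Q * t Q R = ∑ Q, t R Q * t Q P :=
    Finset.sum_congr rfl fun Q _ => by rw [h.symm P Q, h.symm Q R, mul_comm]
  rw [h1, h.symm P R]
  by_cases hPR : P = R
  · rw [if_pos hPR, if_pos hPR.symm]
  · rw [if_neg hPR, if_neg (Ne.symm hPR)]

/-- the numbers `a` and `β` -/
def aa (x y g d l θ : ℤ) : ℤ := 2 * (d - l) - (l * g * (x + y) + d - d * g * x - (x + y) * θ)

/-- the numbers `a` and `β` -/
def bb (x y g d l θ : ℤ) : ℤ := (l * g * (x + y) + d - d * g * x - (x + y) * θ) * (d - l) +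
  d * (x * (θ + (d - l) * g)) - (d - l) ^ 2

lemma sum_zz (h : RMat A b t x y g d l) (hθ : ∀ P, ∑ R, t P R = θ) (i : ι) (P : X) :
    ∑ R ∈ A i, zz t (x + y) (aa x y g d l θ) (bb x y g d l θ) P R =
      (l * b i + x * θ) * ((x + y) * θ - (d * b i - d + l) - aa x y g d l θ) := by
  set s := x + y with hs
  set p := l * b i + x * θ with hp
  set q := d * b i - d + l with hq
  have hrow : ∀ Q, s * ∑ R ∈ A i, t Q R = p - q * (if Q ∈ A i then 1 else 0) := by
    intro Q
    rw [h.row i Q, hθ Q]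
  unfold zz
  rw [Finset.sum_sub_distrib, Finset.sum_sub_distrib, ← Finset.mul_sum, ← Finset.mul_sum,
    ← Finset.mul_sum]
  have h1 : s * ∑ R ∈ A i, ∑ Q, t P Q * t Q R =
      p * θ - q * ∑ R ∈ A i, t P R := by
    rw [Finset.sum_comm, Finset.mul_sum]
    have : ∀ Q, s * ∑ R ∈ A i, t P Q * t Q R =
        t P Q * (p - q * (if Q ∈ A i then 1 else 0)) := by
      intro Q
      rw [← Finset.mul_sum, ← hrow Q]
      ring
    rw [Finset.sum_congr rfl fun Q _ => this Q]
    have h2 : ∀ Q, t P Q * (p - q * (if Q ∈ A i then (1 : ℤ) else 0)) =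
        p * t P Q - q * (if Q ∈ A i then t P Q else 0) := by
      intro Q
      split <;> ring
    rw [Finset.sum_congr rfl fun Q _ => h2 Q, Finset.sum_sub_distrib, ← Finset.mul_sum,
      ← Finset.mul_sum, hθ P, Finset.sum_ite_mem, Finset.univ_inter]
  have h3 : ∑ R ∈ A i, (if P = R then (1 : ℤ) else 0) = if P ∈ A i then 1 else 0 := by
    rw [Finset.sum_ite_eq]
  rw [h3]
  have h4 := hrow P
  have h5 := h.quad hθ i
  set Y := ∑ R ∈ A i, t P R
  set χ : ℤ := if P ∈ A i then 1 else 0
  have h6 : s ^ 2 * ∑ R ∈ A i, ∑ Q, t P Q * t Q R = s * p * θ - q * (p - q * χ) := by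
    rw [← h4]
    linear_combination s * h1
  rw [h6]
  have h7 : q ^ 2 + aa x y g d l θ * q - bb x y g d l θ = 0 := by
    unfold aa bb
    rw [hq]
    linear_combination d * h5
  linear_combination -(aa x y g d l θ) * h4 + χ * h7

/-- `s² T² - a s T - b` is a multiple of the all-one matrix. -/
lemma zz_const (h : RMat A b t x y g d l) (hθ : ∀ P, ∑ R, t P R = θ) (P0 P R : X) :
    zz t (x + y) (aa x y g d l θ) (bb x y g d l θ) P R =
      zz t (x + y) (aa x y g d l θ) (bb x y g d l θ) P0 P0 := by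
  have key : ∀ P P' R, zz t (x + y) (aa x y g d l θ) (bb x y g d l θ) P R =
      zz t (x + y) (aa x y g d l θ) (bb x y g d l θ) P' R := by
    intro P P' R
    have h1 := h.span (fun Q => ((zz t (x + y) (aa x y g d l θ) (bb x y g d l θ) P Q -
      zz t (x + y) (aa x y g d l θ) (bb x y g d l θ) P' Q : ℤ) : ℚ)) (by
        intro i
        rw [← Int.cast_sum, Finset.sum_sub_distrib, h.sum_zz hθ i P, h.sum_zz hθ i P', sub_self,
          Int.cast_zero]) R
    have h2 : zz t (x + y) (aa x y g d l θ) (bb x y g d l θ) P R -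
      zz t (x + y) (aa x y g d l θ) (bb x y g d l θ) P' R = 0 := by exact_mod_cast h1
    linarith
  rw [key P P0 R, h.zz_symm, key R P0 P0]

/-- The multiple is not zero. -/
lemma zz_ne_zero (h : RMat A b t x y g d l) (hθ : ∀ P, ∑ R, t P R = θ) (P0 : X) :
    zz t (x + y) (aa x y g d l θ) (bb x y g d l θ) P0 P0 ≠ 0 := by
  intro h0
  have h1 : ∀ i, (l * b i + x * θ) * ((x + y) * θ - (d * b i - d + l) - aa x y g d l θ) = 0 := by
    intro i
    rw [← h.sum_zz hθ i P0]
    refine Finset.sum_eq_zero fun R _ => ?_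
    rw [h.zz_const hθ P0 P0 R, h0]
  by_cases hex : ∃ i, l * b i + x * θ = 0
  · obtain ⟨i, hi⟩ := hex
    have h2 := h.quad hθ i
    have hcard := h.card i
    have h3 : ((A i).card : ℤ) * ((x + y) * θ - (d - l - d * b i)) = 0 := by
      rw [hcard]
      linear_combination h2 + (g * (x + y) + 1) * hi
    rcases mul_eq_zero.mp h3 with h4 | h4
    · -- empty set
      rw [hcard] at h4
      have hb : b i = -(g * x) := by linarith
      have hx : 0 < x := by have := h.hy; have := h.hxy; linarith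
      have hθ' : θ = l * g := by
        have : x * (θ - l * g) = 0 := by rw [hb] at hi; linear_combination hi
        rcases mul_eq_zero.mp this with h5 | h5
        · exact absurd h5 hx.ne'
        · linarith
      have h6 := h.key P0
      have h7 := abs_le t P0
      rw [hθ P0] at h6 h7
      have hg := h.hg
      have hl := h.hl
      have h8 : θ ≤ ∑ Q, t P0 Q ^ 2 := (le_abs_self θ).trans h7
      have h9 : (x + y) * ∑ Q, t P0 Q ^ 2 = g * l ^ 2 := by
        rw [hθ'] at h6; linear_combination h6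
      have h10 : (x + y) * (l * g) ≤ g * l ^ 2 := by
        rw [← h9, ← hθ']
        exact mul_le_mul_of_nonneg_left h8 h.spos.le
      have h11 : (g * l) * (x + y) ≤ (g * l) * l := by linarith
      have h12 := le_of_mul_le_mul_left h11 (by positivity)
      have := h.d_lt
      have := h.hld
      linarith
    · exact h.ne_eig hθ i (by linarith)
  · push Not at hex
    obtain ⟨i, j, hij⟩ := h.two
    have hi := (mul_eq_zero.mp (h1 i)).resolve_left (hex i)
    have hj := (mul_eq_zero.mp (h1 j)).resolve_left (hex j)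
    have hd : 0 < d := by have := h.hl; have := h.hld; linarith
    have h2 : d * (b i - b j) = 0 := by linear_combination hj - hi
    rcases mul_eq_zero.mp h2 with h3 | h3
    · exact hd.ne' h3
    · exact hij (sub_eq_zero.mp h3)

/-- The counting bound `v - 1 ≤ N²`. -/
lemma count (h : RMat A b t x y g d l) (hθ : ∀ P, ∑ R, t P R = θ) {N : ℤ}
    (hN : ∀ P, ∑ R, t P R ^ 2 = N) : g * (x + y) ≤ N ^ 2 := by
  have hne : Nonempty X := by
    rw [← Fintype.card_pos_iff]
    have h1 := h.cardX
    have := h.hg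
    have := h.spos
    have : (0 : ℤ) < Fintype.card X := by rw [h1]; positivity
    exact_mod_cast this
  obtain ⟨P⟩ := hne
  have hc := h.zz_ne_zero hθ P
  -- zero entries
  have h1 : ∀ R, R ≠ P → t P R = 0 → 1 ≤ |∑ Q, t P Q * t Q R| := by
    intro R hRP h0
    apply Int.one_le_abs
    intro h2
    apply hc
    rw [← h.zz_const hθ P P R]
    unfold zz
    rw [h2, h0, if_neg (Ne.symm hRP)]
    ring
  have h2 : ∀ R, |∑ Q, t P Q * t Q R| ≤ ∑ Q, |t P Q| * |t Q R| := by
    intro R
    refine (Finset.abs_sum_le_sum_abs _ _).trans (le_of_eq ?_)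
    exact Finset.sum_congr rfl fun Q _ => abs_mul _ _
  have h3 : ∀ Q, ∑ R, |t Q R| ≤ N := by
    intro Q
    rw [← hN Q]
    refine Finset.sum_le_sum fun R _ => ?_
    rw [← sq_abs]
    rcases eq_or_ne (t Q R) 0 with h0 | h0
    · simp [h0]
    · have := Int.one_le_abs h0
      nlinarith [abs_nonneg (t Q R)]
  have hN0 : 0 ≤ N := by
    rw [← hN P]; positivity
  have h4 : ∑ R, ∑ Q, |t P Q| * |t Q R| ≤ N ^ 2 := by
    rw [Finset.sum_comm]
    calc ∑ Q, ∑ R, |t P Q| * |t Q R| = ∑ Q, |t P Q| * ∑ R, |t Q R| :=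
          Finset.sum_congr rfl fun Q _ => by rw [Finset.mul_sum]
      _ ≤ ∑ Q, |t P Q| * N :=
          Finset.sum_le_sum fun Q _ => mul_le_mul_of_nonneg_left (h3 Q) (abs_nonneg _)
      _ = (∑ Q, |t P Q|) * N := by rw [Finset.sum_mul]
      _ ≤ N * N := mul_le_mul_of_nonneg_right (h3 P) hN0
      _ = N ^ 2 := by ring
  -- pointwise: for all R
  have h5 : ∀ R, 1 ≤ (∑ Q, |t P Q| * |t Q R|) + t P R ^ 2 +
      (if R = P then (1 - N) else 0) := by
    intro R
    have h6 : 0 ≤ ∑ Q, |t P Q| * |t Q R| :=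
      Finset.sum_nonneg fun Q _ => mul_nonneg (abs_nonneg _) (abs_nonneg _)
    by_cases hRP : R = P
    · rw [if_pos hRP]
      have h7 : ∑ Q, |t P Q| * |t Q R| = N := by
        rw [← hN P]
        refine Finset.sum_congr rfl fun Q _ => ?_
        rw [hRP, h.symm Q P, ← sq, sq_abs]
      rw [h7]
      have := sq_nonneg (t P R)
      linarith
    · rw [if_neg hRP]
      rcases eq_or_ne (t P R) 0 with h0 | h0
      · have := h1 R hRP h0
        have := h2 R
        have := sq_nonneg (t P R)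
        linarith
      · have h8 := Int.one_le_abs h0
        have h9 : 1 ≤ t P R ^ 2 := by
          rw [← sq_abs]; nlinarith
        linarith
  have h6 : ∑ _R : X, (1 : ℤ) ≤ ∑ R, ((∑ Q, |t P Q| * |t Q R|) + t P R ^ 2 +
      (if R = P then (1 - N) else 0)) := Finset.sum_le_sum fun R _ => h5 R
  rw [Finset.sum_add_distrib, Finset.sum_add_distrib, hN P, Finset.sum_ite_eq',
    if_pos (Finset.mem_univ _), Finset.sum_const, Finset.card_univ, nsmul_eq_mul, h.cardX] at h6
  linarith

/-- A design in the sparse range is impossible. -/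
theorem false_of (h : RMat A b t x y g d l)
    (h1 : 2 * (g * (l * (d - l))) < (x + y) ^ 2 - (d - 2 * l) ^ 2)
    (h2 : l * (d - l) * (x + y + |d - 2 * l|) ≤ 2 * ((x + y) * (x + y - |d - 2 * l|))) : False := by
  have hne : Nonempty X := by
    rw [← Fintype.card_pos_iff]
    have h3 := h.cardX
    have := h.hg
    have := h.spos
    have : (0 : ℤ) < Fintype.card X := by rw [h3]; positivity
    exact_mod_cast this
  obtain ⟨P0⟩ := hne
  set θ := ∑ R, t P0 R with hθ0
  set N := ∑ R, t P0 R ^ 2 with hN0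
  have hθ : ∀ P, ∑ R, t P R = θ := fun P => h.const h1 P P0
  have hs := h.spos
  have hN : ∀ P, ∑ R, t P R ^ 2 = N := by
    intro P
    have k1 := h.key P
    have k2 := h.key P0
    rw [hθ P] at k1
    rw [← hθ0, ← hN0] at k2
    have : (x + y) * (∑ R, t P R ^ 2 - N) = 0 := by linear_combination k1 - k2
    rcases mul_eq_zero.mp this with h3 | h3
    · exact absurd h3 hs.ne'
    · linarith
  have hc := h.count hθ hN
  have key := h.key P0
  rw [← hθ0, ← hN0] at key
  have habs : |θ| ≤ N := by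
    have := abs_le t P0
    rwa [← hθ0, ← hN0] at this
  have hd := h.d_lt
  have hl := h.hl
  have hld := h.hld
  have hg := h.hg
  set s := x + y with hsd
  set D := d - 2 * l with hD
  set δ := |D| with hδ
  set e := l * (d - l) with he
  have he0 : 0 < e := mul_pos hl (by linarith)
  have hδ0 : 0 ≤ δ := abs_nonneg _
  have hδs : δ < s := by
    rw [hδ, abs_lt]; constructor <;> rw [hD] <;> linarith
  have hD2 : D ^ 2 = δ ^ 2 := (sq_abs D).symm
  have hprod : |D * θ| ≤ δ * N := by
    rw [abs_mul]; exact mul_le_mul_of_nonneg_left habs hδ0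
  have hlow : (s - δ) * N ≤ g * e := by
    have := neg_abs_le (D * θ)
    nlinarith
  have hN0' : 0 ≤ N := (abs_nonneg θ).trans habs
  have hNpos : 0 < N := by
    rcases hN0'.lt_or_eq with h3 | h3
    · exact h3
    · rw [← h3] at habs key
      have hθz : θ = 0 := by
        have := abs_nonneg θ
        exact abs_eq_zero.mp (le_antisymm habs this)
      rw [hθz] at key
      have : 0 < g * e := by positivity
      linarith
  -- s (s - δ) ≤ e N
  have h3 : s * (s - δ) ≤ e * N := by
    have h4 : s * ((s - δ) * N) ≤ s * (g * e) := mul_le_mul_of_nonneg_left hlow hs.le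
    have h5 : e * (g * s) ≤ e * N ^ 2 := mul_le_mul_of_nonneg_left hc he0.le
    have h6 : N * (s * (s - δ)) ≤ N * (e * N) := by nlinarith
    exact le_of_mul_le_mul_left h6 hNpos
  -- 2 N < s + δ
  have h4 : 2 * N < s + δ := by
    have h5 : (s - δ) * (2 * N) < (s - δ) * (s + δ) := by
      rw [hD2] at h1
      nlinarith
    exact lt_of_mul_lt_mul_left h5 (by linarith)
  have h5 : e * (2 * N) < e * (s + δ) := mul_lt_mul_of_pos_left h4 he0
  linarith

end Const

end RMat

end Pool.Agent.Lib.MP_93e743_co
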