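import Pool.Agent.Lib.MP_93e743_co.Plane

/-!
The cubic relation for the matrix `W`, and the bound for the ratio `x / (x + y)`.
-/

namespace Pool.Agent.Lib.MP_93e743_co

open Finset

variable {ι X : Type*} [Fintype ι] [Fintype X] [DecidableEq ι] [DecidableEq X]

namespace Sys

variable {A : ι → Finset X} {n : ι → ℕ} {α : ℚ}

/-- `∑ κ_i² [P ∈ A_i] / n_i`. -/
def psi (A : ι → Finset X) (n : ι → ℕ) (α : ℚ) (P : X) : ℚ :=
  ∑ i, kap A α i ^ 2 * chi A i P * (n i : ℚ)⁻¹

lemma itr_gen (h : Sys A n α) (i j : ι) :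
    itr A i j = α * (rr X α - kap A α i - kap A α j) + (if i = j then (n i : ℚ) else 0) := by
  by_cases hij : i = j
  · subst hij
    rw [if_pos rfl, h.n_eq i]
    have : itr A i i = sz A i := by
      unfold itr sz
      exact Finset.sum_congr rfl fun P _ => chi_mul_self A i P
    rw [this]
    unfold kap
    ring
  · rw [if_neg hij, h.itr_eq hij]
    unfold kap
    ring

/-- `F a_j = κ_j a_j - α ψ`. -/
theorem FF_chi (h : Sys A n α) (P : X) (j : ι) :
    ∑ R, FF A n α P R * chi A j R = kap A α j * chi A j P - α * psi A n α P := by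
  have h1 : ∀ R, FF A n α P R * chi A j R = ∑ i,
      (kap A α i * chi A i P * (n i : ℚ)⁻¹) * (chi A i R * chi A j R) := by
    intro R
    unfold FF
    rw [Finset.sum_mul]
    exact Finset.sum_congr rfl fun i _ => by ring
  simp_rw [h1]
  rw [Finset.sum_comm]
  have h2 : ∀ i, ∑ R, (kap A α i * chi A i P * (n i : ℚ)⁻¹) * (chi A i R * chi A j R) =
      (α * (rr X α - kap A α j)) * (kap A α i * chi A i P * (n i : ℚ)⁻¹) -
        α * (kap A α i ^ 2 * chi A i P * (n i : ℚ)⁻¹) +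
        (if i = j then kap A α i * chi A i P else 0) := by
    intro i
    rw [← Finset.mul_sum]
    change _ * itr A i j = _
    rw [h.itr_gen i j]
    have h3 : (n i : ℚ) * (n i : ℚ)⁻¹ = 1 := mul_inv_cancel₀ (h.npos' i).ne'
    split
    · linear_combination (kap A α i * chi A i P) * h3
    · ring
  rw [Finset.sum_congr rfl fun i _ => h2 i, Finset.sum_add_distrib, Finset.sum_sub_distrib,
    ← Finset.mul_sum, ← Finset.mul_sum, h.kap_s1 P, Finset.sum_ite_eq',
    if_pos (Finset.mem_univ _)]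
  unfold psi
  ring

/-- `F 1 = - ψ`. -/
theorem FF_row (h : Sys A n α) (P : X) : ∑ R, FF A n α P R = - psi A n α P := by
  unfold FF
  rw [Finset.sum_comm]
  have h2 : ∀ i, ∑ R, kap A α i * chi A i P * chi A i R * (n i : ℚ)⁻¹ =
      rr X α * (kap A α i * chi A i P * (n i : ℚ)⁻¹) -
        kap A α i ^ 2 * chi A i P * (n i : ℚ)⁻¹ := by
    intro i
    have h3 : ∀ R, kap A α i * chi A i P * chi A i R * (n i : ℚ)⁻¹ =
      (kap A α i * chi A i P * (n i : ℚ)⁻¹) * chi A i R := fun R => by ring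
    simp_rw [h3]
    rw [← Finset.mul_sum]
    change _ * sz A i = _
    have h4 : sz A i = rr X α - kap A α i := by unfold kap; ring
    rw [h4]
    ring
  rw [Finset.sum_congr rfl fun i _ => h2 i, Finset.sum_sub_distrib, ← Finset.mul_sum,
    h.kap_s1 P]
  unfold psi
  ring

theorem FF_sq_self (h : Sys A n α) (P : X) :
    ∑ R, FF A n α P R * FF A n α R P = psi A n α P := by
  rw [h.FF_sq P P]
  unfold psi
  refine Finset.sum_congr rfl fun i _ => ?_
  rw [mul_assoc (kap A α i ^ 2), chi_mul_self]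

theorem sum_kap (h : Sys A n α) : ∑ i, kap A α i = rr X α := by
  unfold kap
  rw [Finset.sum_sub_distrib, Finset.sum_const, Finset.card_univ, h.card, nsmul_eq_mul]
  have h1 : ∑ i, sz A i = (Fintype.card X : ℚ) * rr X α := by
    unfold sz
    rw [Finset.sum_comm]
    simp_rw [h.repl_eq]
    rw [Finset.sum_const, Finset.card_univ, nsmul_eq_mul]
  rw [h1]
  push_cast
  ring

theorem sum_kap_inv (h : Sys A n α) : ∑ i, kap A α i * (n i : ℚ)⁻¹ = α⁻¹ := by
  have h1 : (2 * α - 1) * ∑ i, kap A α i * (n i : ℚ)⁻¹ =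
      (∑ _i : ι, (1 : ℚ)) - (1 - α) * rr X α * ∑ i, (n i : ℚ)⁻¹ := by
    rw [Finset.mul_sum, Finset.mul_sum, ← Finset.sum_sub_distrib]
    refine Finset.sum_congr rfl fun i _ => ?_
    have h2 := h.kap_eq i
    have h4 : (n i : ℚ) * (n i : ℚ)⁻¹ = 1 := mul_inv_cancel₀ (h.npos' i).ne'
    linear_combination ((n i : ℚ)⁻¹) * h2 + h4
  rw [h.s0, Finset.sum_const, Finset.card_univ, h.card, nsmul_eq_mul, mul_one] at h1
  apply mul_left_cancel₀ h.two_alpha
  rw [h1]
  have h5 := h.ne1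
  have h6 := h.ne0
  unfold rr
  push_cast
  field_simp
  ring

/-- `∑ κ_i² / n_i = r / α`. -/
theorem sum_kap_sq (h : Sys A n α) : ∑ i, kap A α i ^ 2 * (n i : ℚ)⁻¹ = rr X α * α⁻¹ := by
  have h1 : (2 * α - 1) * ∑ i, kap A α i ^ 2 * (n i : ℚ)⁻¹ =
      (∑ i, kap A α i) - (1 - α) * rr X α * ∑ i, kap A α i * (n i : ℚ)⁻¹ := by
    rw [Finset.mul_sum, Finset.mul_sum, ← Finset.sum_sub_distrib]
    refine Finset.sum_congr rfl fun i _ => ?_
    have h2 := h.kap_eq i
    have h4 : (n i : ℚ) * (n i : ℚ)⁻¹ = 1 := mul_inv_cancel₀ (h.npos' i).ne'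
    linear_combination (kap A α i * (n i : ℚ)⁻¹) * h2 + kap A α i * h4
  rw [h.sum_kap, h.sum_kap_inv] at h1
  apply mul_left_cancel₀ h.two_alpha
  rw [h1]
  have h6 := h.ne0
  field_simp
  ring

/-- The cubic relation. -/
theorem FF_cube (h : Sys A n α) (P : X) :
    ∑ R, (∑ S, FF A n α P S * FF A n α S R) * FF A n α R P + α * psi A n α P ^ 2 =
      (∑ R, FF A n α P R * psi A n α R) + rr X α * psi A n α P := by
  have hsym : ∀ R, FF A n α R P = FF A n α P R := by
    intro R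
    unfold FF
    exact Finset.sum_congr rfl fun i _ => by ring
  have h1 : ∑ R, (∑ S, FF A n α P S * FF A n α S R) * FF A n α R P =
      ∑ i, kap A α i ^ 2 * chi A i P * (n i : ℚ)⁻¹ *
        (kap A α i * chi A i P - α * psi A n α P) := by
    have h2 : ∀ R, (∑ S, FF A n α P S * FF A n α S R) * FF A n α R P =
        ∑ i, kap A α i ^ 2 * chi A i P * (n i : ℚ)⁻¹ * (FF A n α P R * chi A i R) := by
      intro R
      rw [h.FF_sq P R, hsym R, Finset.sum_mul]
      exact Finset.sum_congr rfl fun i _ => by ring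
    simp_rw [h2]
    rw [Finset.sum_comm]
    refine Finset.sum_congr rfl fun i _ => ?_
    rw [← Finset.mul_sum, h.FF_chi P i]
  have h3 : ∑ R, FF A n α P R * psi A n α R =
      ∑ i, kap A α i ^ 2 * (n i : ℚ)⁻¹ * (kap A α i * chi A i P - α * psi A n α P) := by
    have h2 : ∀ R, FF A n α P R * psi A n α R =
        ∑ i, kap A α i ^ 2 * (n i : ℚ)⁻¹ * (FF A n α P R * chi A i R) := by
      intro R
      unfold psi
      rw [Finset.mul_sum]
      exact Finset.sum_congr rfl fun i _ => by ring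
    simp_rw [h2]
    rw [Finset.sum_comm]
    refine Finset.sum_congr rfl fun i _ => ?_
    rw [← Finset.mul_sum, h.FF_chi P i]
  have h4 : ∑ i, kap A α i ^ 2 * chi A i P * (n i : ℚ)⁻¹ *
        (kap A α i * chi A i P - α * psi A n α P) =
      (∑ i, kap A α i ^ 3 * chi A i P * (n i : ℚ)⁻¹) - α * psi A n α P * psi A n α P := by
    conv_rhs => rw [show α * psi A n α P * psi A n α P =
      (α * psi A n α P) * ∑ i, kap A α i ^ 2 * chi A i P * (n i : ℚ)⁻¹ from rfl]
    rw [Finset.mul_sum, ← Finset.sum_sub_distrib]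
    refine Finset.sum_congr rfl fun i _ => ?_
    linear_combination (kap A α i ^ 3 * (n i : ℚ)⁻¹) * chi_mul_self A i P
  have h5 : ∑ i, kap A α i ^ 2 * (n i : ℚ)⁻¹ * (kap A α i * chi A i P - α * psi A n α P) =
      (∑ i, kap A α i ^ 3 * chi A i P * (n i : ℚ)⁻¹) - rr X α * psi A n α P := by
    have h6 : rr X α * psi A n α P =
        (α * psi A n α P) * ∑ i, kap A α i ^ 2 * (n i : ℚ)⁻¹ := by
      rw [h.sum_kap_sq]
      have := h.ne0
      field_simp
    rw [h6, Finset.mul_sum, ← Finset.sum_sub_distrib]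
    exact Finset.sum_congr rfl fun i _ => by ring
  rw [h1, h3, h4, h5]
  ring

end Sys

/-! ### Trace expansions -/

section trace

/-- The triple sum `tr (U ^ 3)`. -/
def tr3 (U : X → X → ℤ) : ℤ := ∑ P, ∑ Q, ∑ R, U P Q * U Q R * U R P

omit [DecidableEq X] in
lemma tr3_shift (U : X → X → ℤ) (hU : ∀ P Q, U P Q = U Q P) (l : ℤ) :
    tr3 (fun P Q => U P Q - l) = tr3 U - 3 * l * (∑ P, (∑ Q, U P Q) ^ 2) +
      3 * l ^ 2 * (Fintype.card X : ℤ) * (∑ P, ∑ Q, U P Q) - l ^ 3 * (Fintype.card X : ℤ) ^ 3 := by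
  have h1 : ∀ P Q R, (U P Q - l) * (U Q R - l) * (U R P - l) =
      U P Q * U Q R * U R P - l * (U P Q * U Q R) - l * (U Q R * U R P) - l * (U R P * U P Q) +
        l ^ 2 * U P Q + l ^ 2 * U Q R + l ^ 2 * U R P - l ^ 3 := by
    intro P Q R; ring
  have key : tr3 (fun P Q => U P Q - l) = tr3 U - l * (∑ P, ∑ Q, ∑ R, U P Q * U Q R) -
      l * (∑ P, ∑ Q, ∑ R, U Q R * U R P) - l * (∑ P, ∑ Q, ∑ R, U R P * U P Q) +
      l ^ 2 * (∑ P, ∑ Q, ∑ _R : X, U P Q) + l ^ 2 * (∑ _P : X, ∑ Q, ∑ R, U Q R) +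
      l ^ 2 * (∑ P : X, ∑ _Q : X, ∑ R, U R P) - ∑ _P : X, ∑ _Q : X, ∑ _R : X, l ^ 3 := by
    unfold tr3
    simp only [h1, Finset.sum_sub_distrib, Finset.sum_add_distrib, Finset.mul_sum]
  have h2 : ∑ P, ∑ Q, ∑ R, U P Q * U Q R = ∑ P, (∑ Q, U P Q) ^ 2 := by
    rw [Finset.sum_comm]
    refine Finset.sum_congr rfl fun Q _ => ?_
    rw [sq, Finset.sum_mul_sum]
    refine Finset.sum_congr rfl fun P _ => Finset.sum_congr rfl fun R _ => ?_
    rw [hU P Q]
  have h3 : ∑ P, ∑ Q, ∑ R, U Q R * U R P = ∑ P, (∑ Q, U P Q) ^ 2 := by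
    have e : ∀ P, ∑ Q, ∑ R, U Q R * U R P = ∑ R, ∑ Q, U Q R * U R P := fun P =>
      Finset.sum_comm
    simp_rw [e]
    rw [Finset.sum_comm]
    refine Finset.sum_congr rfl fun R _ => ?_
    rw [Finset.sum_comm, sq, Finset.sum_mul_sum]
    refine Finset.sum_congr rfl fun P _ => Finset.sum_congr rfl fun Q _ => ?_
    rw [hU P R]
  have h4 : ∑ P, ∑ Q, ∑ R, U R P * U P Q = ∑ P, (∑ Q, U P Q) ^ 2 := by
    refine Finset.sum_congr rfl fun P _ => ?_
    rw [sq, Finset.sum_mul_sum]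
    refine Finset.sum_congr rfl fun Q _ => Finset.sum_congr rfl fun R _ => ?_
    rw [hU R P]
    ring
  have h5 : ∑ P : X, ∑ Q, ∑ R, U Q R = (Fintype.card X : ℤ) * ∑ P, ∑ Q, U P Q := by
    rw [Finset.sum_const, Finset.card_univ, nsmul_eq_mul]
  have h6 : ∑ P : X, ∑ Q : X, ∑ R, U R P = (Fintype.card X : ℤ) * ∑ P, ∑ Q, U P Q := by
    rw [Finset.sum_comm, Finset.sum_const, Finset.card_univ, nsmul_eq_mul]
    congr 1
    rw [Finset.sum_comm]
  have h7 : ∑ P : X, ∑ Q, ∑ _R : X, U P Q = (Fintype.card X : ℤ) * ∑ P, ∑ Q, U P Q := by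
    simp_rw [Finset.sum_const, Finset.card_univ, nsmul_eq_mul, ← Finset.mul_sum]
  have h8 : ∑ _P : X, ∑ _Q : X, ∑ _R : X, l ^ 3 = l ^ 3 * (Fintype.card X : ℤ) ^ 3 := by
    simp_rw [Finset.sum_const, Finset.card_univ, nsmul_eq_mul]
    ring
  rw [key, h2, h3, h4, h5, h6, h7, h8]
  ring

lemma tr3_add_one (t : X → X → ℤ) (ht : ∀ P, t P P = 0) (hsym : ∀ P Q, t P Q = t Q P) (s l : ℤ) :
    tr3 (fun P Q => s * t P Q + if P = Q then l else 0) =
      s ^ 3 * tr3 t + 3 * s ^ 2 * l * (∑ P, ∑ Q, t P Q ^ 2) + l ^ 3 * (Fintype.card X : ℤ) := by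
  have h1 : ∀ P Q R, (s * t P Q + if P = Q then l else 0) * (s * t Q R + if Q = R then l else 0) *
      (s * t R P + if R = P then l else 0) =
      s ^ 3 * (t P Q * t Q R * t R P) + (if R = P then l * s ^ 2 * (t P Q * t Q R) else 0) +
      (if Q = R then l * s ^ 2 * (t P Q * t R P) else 0) +
      (if P = Q then l * s ^ 2 * (t Q R * t R P) else 0) +
      (if P = Q then (if Q = R then l ^ 3 else 0) else 0) := by
    intro P Q R
    by_cases hPQ : P = Q
    · subst hPQ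
      by_cases hPR : P = R
      · subst hPR
        simp [ht]
        ring
      · simp [ht, hPR, Ne.symm hPR]
        ring
    · by_cases hQR : Q = R
      · subst hQR
        simp [ht, hPQ, Ne.symm hPQ]
        ring
      · by_cases hRP : R = P
        · subst hRP
          simp [ht, hPQ, hQR]
          ring
        · simp [hPQ, hQR, hRP]
          ring
  unfold tr3
  simp only [h1, Finset.sum_add_distrib]
  have h2 : ∑ P, ∑ Q, ∑ R, (if R = P then l * s ^ 2 * (t P Q * t Q R) else 0) =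
      l * s ^ 2 * (∑ P, ∑ Q, t P Q ^ 2) := by
    simp_rw [Finset.sum_ite_eq', if_pos (Finset.mem_univ _), Finset.mul_sum]
    refine Finset.sum_congr rfl fun P _ => Finset.sum_congr rfl fun Q _ => ?_
    rw [hsym Q P]; ring
  have h3 : ∑ P, ∑ Q, ∑ R, (if Q = R then l * s ^ 2 * (t P Q * t R P) else 0) =
      l * s ^ 2 * (∑ P, ∑ Q, t P Q ^ 2) := by
    simp_rw [Finset.sum_ite_eq, if_pos (Finset.mem_univ _), Finset.mul_sum]
    refine Finset.sum_congr rfl fun P _ => Finset.sum_congr rfl fun Q _ => ?_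
    rw [hsym Q P]; ring
  have h4 : ∑ P, ∑ Q, ∑ R, (if P = Q then l * s ^ 2 * (t Q R * t R P) else 0) =
      l * s ^ 2 * (∑ P, ∑ Q, t P Q ^ 2) := by
    have e : ∀ P Q, ∑ R, (if P = Q then l * s ^ 2 * (t Q R * t R P) else 0) =
        if P = Q then ∑ R, l * s ^ 2 * (t Q R * t R P) else 0 := by
      intro P Q; split <;> simp
    simp_rw [e, Finset.sum_ite_eq, if_pos (Finset.mem_univ _), Finset.mul_sum]
    refine Finset.sum_congr rfl fun P _ => Finset.sum_congr rfl fun Q _ => ?_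
    rw [hsym Q P]; ring
  have h5 : ∑ P : X, ∑ Q, ∑ R, (if P = Q then (if Q = R then l ^ 3 else 0) else 0) =
      l ^ 3 * (Fintype.card X : ℤ) := by
    have e : ∀ P Q : X, ∑ R, (if P = Q then (if Q = R then l ^ 3 else 0) else 0) =
        if P = Q then l ^ 3 else 0 := by
      intro P Q; split <;> simp
    simp_rw [e, Finset.sum_ite_eq, if_pos (Finset.mem_univ _), Finset.sum_const,
      Finset.card_univ, nsmul_eq_mul]
    ring
  rw [h2, h3, h4, h5]
  simp_rw [← Finset.mul_sum]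
  ring

/-- Sums over the triangles. -/
def trs (t : X → X → ℤ) (f : ℤ → ℤ → ℤ → ℤ) : ℤ := ∑ P, ∑ Q, ∑ R, f (t P Q) (t Q R) (t R P)

omit [DecidableEq X] in
lemma trs_rot (t : X → X → ℤ) (f : ℤ → ℤ → ℤ → ℤ) :
    trs t (fun a b c => f b c a) = trs t f := by
  unfold trs
  rw [Finset.sum_comm]
  refine Finset.sum_congr rfl fun Q _ => ?_
  rw [Finset.sum_comm]

omit [DecidableEq X] in
lemma trs_rev (t : X → X → ℤ) (hsym : ∀ P Q, t P Q = t Q P) (f : ℤ → ℤ → ℤ → ℤ) :
    trs t (fun a b c => f b a c) = trs t f := by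
  have h1 : trs t f = ∑ P, ∑ Q, ∑ R, f (t Q P) (t R Q) (t P R) := by
    unfold trs
    refine Finset.sum_congr rfl fun P _ => Finset.sum_congr rfl fun Q _ =>
      Finset.sum_congr rfl fun R _ => ?_
    rw [hsym P Q, hsym Q R, hsym R P]
  rw [h1]
  unfold trs
  have h2 : ∀ P, ∑ Q, ∑ R, f (t Q P) (t R Q) (t P R) = ∑ R, ∑ Q, f (t Q P) (t R Q) (t P R) :=
    fun P => Finset.sum_comm
  simp_rw [h2]
  have h3 : ∀ P, ∑ Q, ∑ R, f (t Q R) (t P Q) (t R P) = ∑ R, ∑ Q, f (t Q R) (t P Q) (t R P) :=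
    fun P => Finset.sum_comm
  simp_rw [h3]
  rw [Finset.sum_comm]

/-- The corner function. -/
def corner (a b : ℤ) : ℤ := max (-a) 0 * (3 * max b 0 ^ 2 + max (-b) 0 ^ 2)

lemma max_cases (a : ℤ) : (0 ≤ a ∧ max a 0 = a ∧ max (-a) 0 = 0) ∨
    (a ≤ 0 ∧ max a 0 = 0 ∧ max (-a) 0 = -a) := by
  rcases le_total 0 a with h | h
  · exact Or.inl ⟨h, max_eq_left h, max_eq_right (by linarith)⟩
  · exact Or.inr ⟨h, max_eq_right h, max_eq_left (by linarith)⟩

lemma corner_ineq (a b c : ℤ) :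
    -(6 * (a * b * c)) ≤ corner a b + corner b a + corner b c + corner c b + corner c a +
      corner a c := by
  unfold corner
  rcases max_cases a with ⟨ha, e1, e2⟩ | ⟨ha, e1, e2⟩ <;>
    rcases max_cases b with ⟨hb, e3, e4⟩ | ⟨hb, e3, e4⟩ <;>
    rcases max_cases c with ⟨hc, e5, e6⟩ | ⟨hc, e5, e6⟩ <;>
    rw [e1, e2, e3, e4, e5, e6]
  · nlinarith [mul_nonneg (mul_nonneg ha hb) hc]
  · nlinarith [mul_nonneg (neg_nonneg.mpr hc) (sq_nonneg (a - b))]
  · nlinarith [mul_nonneg (neg_nonneg.mpr hb) (sq_nonneg (a - c))]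
  · nlinarith [mul_nonneg (mul_nonneg ha (neg_nonneg.mpr hb)) (neg_nonneg.mpr hc),
      mul_nonneg (neg_nonneg.mpr hb) (sq_nonneg a), mul_nonneg (neg_nonneg.mpr hc) (sq_nonneg a),
      mul_nonneg (neg_nonneg.mpr hb) (sq_nonneg c), mul_nonneg (neg_nonneg.mpr hc) (sq_nonneg b)]
  · nlinarith [mul_nonneg (neg_nonneg.mpr ha) (sq_nonneg (b - c))]
  · nlinarith [mul_nonneg (mul_nonneg hb (neg_nonneg.mpr ha)) (neg_nonneg.mpr hc),
      mul_nonneg (neg_nonneg.mpr ha) (sq_nonneg b), mul_nonneg (neg_nonneg.mpr hc) (sq_nonneg b),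
      mul_nonneg (neg_nonneg.mpr ha) (sq_nonneg c), mul_nonneg (neg_nonneg.mpr hc) (sq_nonneg a)]
  · nlinarith [mul_nonneg (mul_nonneg hc (neg_nonneg.mpr ha)) (neg_nonneg.mpr hb),
      mul_nonneg (neg_nonneg.mpr ha) (sq_nonneg c), mul_nonneg (neg_nonneg.mpr hb) (sq_nonneg c),
      mul_nonneg (neg_nonneg.mpr ha) (sq_nonneg b), mul_nonneg (neg_nonneg.mpr hb) (sq_nonneg a)]
  · nlinarith [mul_nonneg (neg_nonneg.mpr ha) (sq_nonneg (b - c)),
      mul_nonneg (neg_nonneg.mpr hb) (sq_nonneg (a - c)),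
      mul_nonneg (neg_nonneg.mpr hc) (sq_nonneg (a - b))]

omit [DecidableEq X] in
/-- The combinatorial bound for the cubic term. -/
theorem comb_bound (t : X → X → ℤ) (hsym : ∀ P Q, t P Q = t Q P) :
    8 * ((∑ Q, (∑ R, t Q R ^ 2) * ∑ R, t Q R) - tr3 t) ≤ 9 * ∑ Q, (∑ R, t Q R ^ 2) ^ 2 := by
  set pp : X → X → ℤ := fun P Q => max (t P Q) 0 with hpp
  set mm : X → X → ℤ := fun P Q => max (-t P Q) 0 with hmm
  set H := ∑ Q, (∑ R, mm Q R) * ∑ R, (3 * pp Q R ^ 2 + mm Q R ^ 2) with hH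
  have h1 : trs t (fun a b _ => corner a b) = H := by
    unfold trs
    rw [Finset.sum_comm]
    refine Finset.sum_congr rfl fun Q _ => ?_
    rw [Finset.sum_mul_sum]
    refine Finset.sum_congr rfl fun P _ => Finset.sum_congr rfl fun R _ => ?_
    rw [hsym P Q]
    rfl
  have h2 : -(6 * tr3 t) ≤ 6 * H := by
    have e1 : -(6 * tr3 t) = trs t (fun a b c => -(6 * (a * b * c))) := by
      unfold trs tr3
      simp only [Finset.mul_sum, Finset.sum_neg_distrib]
    have e2 : trs t (fun a b c => -(6 * (a * b * c))) ≤ trs t (fun a b c =>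
        corner a b + corner b a + corner b c + corner c b + corner c a + corner a c) := by
      unfold trs
      exact Finset.sum_le_sum fun P _ => Finset.sum_le_sum fun Q _ =>
        Finset.sum_le_sum fun R _ => corner_ineq _ _ _
    have e3 : trs t (fun a b c =>
        corner a b + corner b a + corner b c + corner c b + corner c a + corner a c) =
        trs t (fun a b _ => corner a b) + trs t (fun a b _ => corner b a) +
        trs t (fun _ b c => corner b c) + trs t (fun _ b c => corner c b) +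
        trs t (fun a _ c => corner c a) + trs t (fun a _ c => corner a c) := by
      unfold trs
      simp only [Finset.sum_add_distrib]
    have f2 : trs t (fun a b _ => corner b a) = H := by
      rw [← h1]; exact trs_rev t hsym (fun a b _ => corner a b)
    have f3 : trs t (fun _ b c => corner b c) = H := by
      rw [← h1]; exact trs_rot t (fun a b _ => corner a b)
    have f4 : trs t (fun _ b c => corner c b) = H := by
      rw [← f2]; exact trs_rot t (fun a b _ => corner b a)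
    have f5 : trs t (fun a _ c => corner c a) = H := by
      rw [← f3]; exact trs_rot t (fun _ b c => corner b c)
    have f6 : trs t (fun a _ c => corner a c) = H := by
      rw [← f4]; exact trs_rot t (fun _ b c => corner c b)
    rw [h1, f2, f3, f4, f5, f6] at e3
    linarith
  have h3 : 8 * ((∑ Q, (∑ R, t Q R ^ 2) * ∑ R, t Q R) + H) ≤ 9 * ∑ Q, (∑ R, t Q R ^ 2) ^ 2 := by
    rw [hH, ← Finset.sum_add_distrib, Finset.mul_sum, Finset.mul_sum]
    refine Finset.sum_le_sum fun Q _ => ?_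
    have g1 : ∑ R, t Q R ^ 2 = (∑ R, pp Q R ^ 2) + ∑ R, mm Q R ^ 2 := by
      rw [← Finset.sum_add_distrib]
      refine Finset.sum_congr rfl fun R _ => ?_
      simp only [hpp, hmm]
      rcases max_cases (t Q R) with ⟨-, e1, e2⟩ | ⟨-, e1, e2⟩ <;> rw [e1, e2] <;> ring
    have g2 : ∑ R, t Q R = (∑ R, pp Q R) - ∑ R, mm Q R := by
      rw [← Finset.sum_sub_distrib]
      refine Finset.sum_congr rfl fun R _ => ?_
      simp only [hpp, hmm]
      rcases max_cases (t Q R) with ⟨-, e1, e2⟩ | ⟨-, e1, e2⟩ <;> rw [e1, e2] <;> ring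
    have g3 : ∑ R, (3 * pp Q R ^ 2 + mm Q R ^ 2) =
        3 * (∑ R, pp Q R ^ 2) + ∑ R, mm Q R ^ 2 := by
      rw [Finset.sum_add_distrib, ← Finset.mul_sum]
    have g4 : ∑ R, pp Q R ≤ ∑ R, pp Q R ^ 2 := by
      refine Finset.sum_le_sum fun R _ => ?_
      have h0 : 0 ≤ pp Q R := le_max_right _ _
      rcases h0.eq_or_lt with h | h
      · rw [← h]; simp
      · nlinarith
    have g5 : ∑ R, mm Q R ≤ ∑ R, mm Q R ^ 2 := by
      refine Finset.sum_le_sum fun R _ => ?_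
      have h0 : 0 ≤ mm Q R := le_max_right _ _
      rcases h0.eq_or_lt with h | h
      · rw [← h]; simp
      · nlinarith
    have g6 : 0 ≤ ∑ R, pp Q R := Finset.sum_nonneg fun R _ => le_max_right _ _
    have g7 : 0 ≤ ∑ R, mm Q R := Finset.sum_nonneg fun R _ => le_max_right _ _
    rw [g1, g2, g3]
    set a := ∑ R, pp Q R
    set b := ∑ R, mm Q R
    set c := ∑ R, pp Q R ^ 2
    set e := ∑ R, mm Q R ^ 2
    nlinarith [sq_nonneg (c - 3 * e), mul_nonneg (sub_nonneg.mpr g4) (by linarith : 0 ≤ c + e),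
      mul_nonneg (sub_nonneg.mpr g5) (by linarith : 0 ≤ c)]
  linarith

end trace

namespace IntSys

variable {A : ι → Finset X} {n : ι → ℕ} {x y g : ℕ}

theorem ww_eq (h : IntSys A n x y g) {d m' : ℕ} (hm : (x : ℤ) - y = m' * d) (hm' : m' ≠ 0)
    {l : ℤ} {t : X → X → ℤ} (hT : TMat A x y g d m' l t) (P : X) :
    ((ww x y l t P : ℤ) : ℚ) = - (d * Sys.psi A n ((x : ℚ) / (x + y)) P) := by
  unfold ww
  push_cast
  simp_rw [h.WW_eq hm hm' hT]
  rw [← Finset.mul_sum, h.sys.FF_row]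
  ring

/-- The cubic relation for `W`. -/
theorem WW_cubic (h : IntSys A n x y g) {d m' : ℕ} (hm : (x : ℤ) - y = m' * d) (hm' : m' ≠ 0)
    {l : ℤ} {t : X → X → ℤ} (hT : TMat A x y g d m' l t) :
    ((x : ℤ) + y) * tr3 (WW x y l t) + (d * x + (x + y) * d) * (∑ P, ww x y l t P ^ 2) +
      (x + y) * d ^ 2 * (g * x + 1) * (∑ P, ww x y l t P) = 0 := by
  have h0 := h.sq0
  -- pointwise
  have hp : ∀ P, ((x : ℚ) + y) * (∑ R, (∑ S, (WW x y l t P S : ℚ) * WW x y l t S R) *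
      WW x y l t R P) + x * d * (ww x y l t P : ℚ) ^ 2 =
      - ((x + y) * d * ∑ R, (WW x y l t P R : ℚ) * ww x y l t R) -
        (x + y) * (g * x + 1) * d ^ 2 * ww x y l t P := by
    intro P
    have h1 := h.sys.FF_cube P
    rw [h.rr_eq] at h1
    simp_rw [h.WW_eq hm hm' hT, h.ww_eq hm hm' hT]
    have e1 : ∀ R, (∑ S, (d : ℚ) * Sys.FF A n ((x : ℚ) / (x + y)) P S *
        (d * Sys.FF A n ((x : ℚ) / (x + y)) S R)) * (d * Sys.FF A n ((x : ℚ) / (x + y)) R P) =
        (d : ℚ) ^ 3 * ((∑ S, Sys.FF A n ((x : ℚ) / (x + y)) P S *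
          Sys.FF A n ((x : ℚ) / (x + y)) S R) * Sys.FF A n ((x : ℚ) / (x + y)) R P) := by
      intro R
      have e2 : ∑ S, (d : ℚ) * Sys.FF A n ((x : ℚ) / (x + y)) P S *
        (d * Sys.FF A n ((x : ℚ) / (x + y)) S R) = d ^ 2 * ∑ S, Sys.FF A n ((x : ℚ) / (x + y)) P S *
          Sys.FF A n ((x : ℚ) / (x + y)) S R := by
        rw [Finset.mul_sum]
        exact Finset.sum_congr rfl fun S _ => by ring
      rw [e2]; ring
    simp_rw [e1]
    rw [← Finset.mul_sum]
    have e3 : ∑ R, (d : ℚ) * Sys.FF A n ((x : ℚ) / (x + y)) P R *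
        -(d * Sys.psi A n ((x : ℚ) / (x + y)) R) =
        - (d ^ 2 * ∑ R, Sys.FF A n ((x : ℚ) / (x + y)) P R *
          Sys.psi A n ((x : ℚ) / (x + y)) R) := by
      rw [Finset.mul_sum, ← Finset.sum_neg_distrib]
      exact Finset.sum_congr rfl fun S _ => by ring
    rw [e3]
    have e4 : ((x : ℚ) + y) * ((x : ℚ) / (x + y)) = x := by field_simp
    linear_combination (((x : ℚ) + y) * d ^ 3) * h1 -
      (d ^ 3 * Sys.psi A n ((x : ℚ) / (x + y)) P ^ 2) * e4
  have hpz : ∀ P, ((x : ℤ) + y) * (∑ R, (∑ S, WW x y l t P S * WW x y l t S R) *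
      WW x y l t R P) + x * d * (ww x y l t P) ^ 2 =
      - ((x + y) * d * ∑ R, WW x y l t P R * ww x y l t R) -
        (x + y) * (g * x + 1) * d ^ 2 * ww x y l t P := by
    intro P
    exact_mod_cast hp P
  have h2 := Finset.sum_congr (rfl : (univ : Finset X) = univ) fun P _ => hpz P
  rw [Finset.sum_add_distrib, Finset.sum_sub_distrib, Finset.sum_neg_distrib, ← Finset.mul_sum,
    ← Finset.mul_sum, ← Finset.mul_sum, ← Finset.mul_sum] at h2
  have h3 : ∑ P, ∑ R, (∑ S, WW x y l t P S * WW x y l t S R) * WW x y l t R P =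
      tr3 (WW x y l t) := by
    unfold tr3
    refine Finset.sum_congr rfl fun P _ => ?_
    simp_rw [Finset.sum_mul]
    rw [Finset.sum_comm]
  have h4 : ∑ P, ∑ R, WW x y l t P R * ww x y l t R = ∑ P, ww x y l t P ^ 2 := by
    rw [Finset.sum_comm]
    refine Finset.sum_congr rfl fun R _ => ?_
    rw [← Finset.sum_mul]
    have : ∑ P, WW x y l t P R = ww x y l t R := by
      unfold ww
      exact Finset.sum_congr rfl fun Q _ => h.WW_symm hm' hT Q R
    rw [this]; ring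
  rw [h3, h4] at h2
  linear_combination h2

/-- The cubic relation for `T`. -/
theorem cubic_rel (h : IntSys A n x y g) {d m' : ℕ} (hm : (x : ℤ) - y = m' * d) (hm' : m' ≠ 0)
    {l : ℤ} {t : X → X → ℤ} (hT : TMat A x y g d m' l t) :
    (g * (((x : ℤ) + y) * l - d * x) + (2 * l - d)) * (((x : ℤ) + y) * ∑ P, ∑ Q, t P Q ^ 2) =
      ((x : ℤ) + y) ^ 2 * ((∑ P, (∑ Q, t P Q ^ 2) * ∑ Q, t P Q) - tr3 t) +
        (((x : ℤ) + y) * l - d * x) * (∑ P, (∑ Q, t P Q) ^ 2) -
        l * (d - l) * (∑ P, ∑ Q, t P Q) := by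
  have hsym := h.tsymm hm' hT
  have hs : ((x : ℤ) + y) ≠ 0 := by
    have := h.hy
    have : (0 : ℤ) < y := by exact_mod_cast this
    positivity
  set s : ℤ := (x : ℤ) + y with hsdef
  have hv : (Fintype.card X : ℤ) = g * s + 1 := by rw [h.cardX, hsdef]; push_cast; ring
  -- the matrix `U`
  set U : X → X → ℤ := fun P Q => s * t P Q + if P = Q then l else 0 with hU
  have hUs : ∀ P Q, U P Q = U Q P := by
    intro P Q
    simp only [hU]
    rw [hsym P Q]
    by_cases hPQ : P = Q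
    · rw [hPQ]
    · rw [if_neg hPQ, if_neg (Ne.symm hPQ)]
  have hWU : WW x y l t = fun P Q => U P Q - l := by
    funext P Q
    rw [WW_val hT P Q]
    simp only [hU]
    ring
  have hu : ∀ P, ∑ Q, U P Q = s * (∑ Q, t P Q) + l := by
    intro P
    simp only [hU]
    rw [Finset.sum_add_distrib, ← Finset.mul_sum, Finset.sum_ite_eq, if_pos (Finset.mem_univ _)]
  have hw : ∀ P, ww x y l t P = s * (∑ Q, t P Q) + l - l * (g * s + 1) := by
    intro P
    unfold ww
    rw [hWU]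
    simp only
    rw [Finset.sum_sub_distrib, hu P, Finset.sum_const, Finset.card_univ, nsmul_eq_mul, hv]
    ring
  have h1 := h.WW_cubic hm hm' hT
  rw [hWU, tr3_shift U hUs l, tr3_add_one t hT.diag hsym s l, hv] at h1
  simp_rw [hu, hw] at h1
  -- sums
  have s1 : ∑ P, (s * (∑ Q, t P Q) + l) = s * (∑ P, ∑ Q, t P Q) + l * (g * s + 1) := by
    rw [Finset.sum_add_distrib, ← Finset.mul_sum, Finset.sum_const, Finset.card_univ,
      nsmul_eq_mul, hv]
    ring
  have s2 : ∑ P, (s * (∑ Q, t P Q) + l) ^ 2 = s ^ 2 * (∑ P, (∑ Q, t P Q) ^ 2) +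
      2 * s * l * (∑ P, ∑ Q, t P Q) + l ^ 2 * (g * s + 1) := by
    have e : ∀ P, (s * (∑ Q, t P Q) + l) ^ 2 = s ^ 2 * (∑ Q, t P Q) ^ 2 +
      2 * s * l * (∑ Q, t P Q) + l ^ 2 := fun P => by ring
    simp_rw [e]
    rw [Finset.sum_add_distrib, Finset.sum_add_distrib, ← Finset.mul_sum, ← Finset.mul_sum,
      Finset.sum_const, Finset.card_univ, nsmul_eq_mul, hv]
    ring
  have s3 : ∑ P, (s * (∑ Q, t P Q) + l - l * (g * s + 1)) =
      s * (∑ P, ∑ Q, t P Q) + l * (g * s + 1) - l * (g * s + 1) * (g * s + 1) := by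
    rw [Finset.sum_sub_distrib, s1, Finset.sum_const, Finset.card_univ, nsmul_eq_mul, hv]
    ring
  have s4 : ∑ P, (s * (∑ Q, t P Q) + l - l * (g * s + 1)) ^ 2 =
      s ^ 2 * (∑ P, (∑ Q, t P Q) ^ 2) + 2 * s * (l - l * (g * s + 1)) * (∑ P, ∑ Q, t P Q) +
        (l - l * (g * s + 1)) ^ 2 * (g * s + 1) := by
    have e : ∀ P, (s * (∑ Q, t P Q) + l - l * (g * s + 1)) ^ 2 = s ^ 2 * (∑ Q, t P Q) ^ 2 +
      2 * s * (l - l * (g * s + 1)) * (∑ Q, t P Q) + (l - l * (g * s + 1)) ^ 2 :=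
      fun P => by ring
    simp_rw [e]
    rw [Finset.sum_add_distrib, Finset.sum_add_distrib, ← Finset.mul_sum, ← Finset.mul_sum,
      Finset.sum_const, Finset.card_univ, nsmul_eq_mul, hv]
    ring
  rw [s1, s2, s3, s4] at h1
  -- row relations
  have hrow : ∀ Q, s * (∑ R, t Q R ^ 2) = g * (l * (d - l)) + (2 * l - d) * ∑ R, t Q R := by
    intro Q
    have e := h.row_rel hm hm' hT Q
    have e1 : ∑ P, t P Q ^ 2 = ∑ R, t Q R ^ 2 :=
      Finset.sum_congr rfl fun R _ => by rw [hsym R Q]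
    have e2 : ∑ P, t P Q = ∑ R, t Q R := Finset.sum_congr rfl fun R _ => by rw [hsym R Q]
    rw [e1, e2] at e
    linear_combination e
  have r1 : s * (∑ P, ∑ Q, t P Q ^ 2) =
      g * (l * (d - l)) * (g * s + 1) + (2 * l - d) * ∑ P, ∑ Q, t P Q := by
    rw [Finset.mul_sum, Finset.mul_sum]
    simp_rw [hrow]
    rw [Finset.sum_add_distrib, Finset.sum_const, Finset.card_univ, nsmul_eq_mul, hv]
    ring
  have r2 : s * (∑ P, (∑ Q, t P Q ^ 2) * ∑ Q, t P Q) =
      g * (l * (d - l)) * (∑ P, ∑ Q, t P Q) + (2 * l - d) * ∑ P, (∑ Q, t P Q) ^ 2 := by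
    rw [Finset.mul_sum, Finset.mul_sum, Finset.mul_sum, ← Finset.sum_add_distrib]
    refine Finset.sum_congr rfl fun P _ => ?_
    linear_combination (∑ Q, t P Q) * hrow P
  set t3 := tr3 t
  set N1 := ∑ P, ∑ Q, t P Q ^ 2
  set Nt := ∑ P, (∑ Q, t P Q ^ 2) * ∑ Q, t P Q
  set T2 := ∑ P, (∑ Q, t P Q) ^ 2
  set Th := ∑ P, ∑ Q, t P Q
  have hs2 : s ^ 2 ≠ 0 := pow_ne_zero 2 hs
  apply mul_left_cancel₀ hs2
  linear_combination h1 + (s ^ 2 * (g * (s * l - d * x) + (2 * l - d)) - 3 * s ^ 2 * l) * r1 -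
    s ^ 3 * r2

/-- The bound for the ratio: with `s = x + y`, `K = s l - d x`, `δ = 2 l - d`, `e = l (d - l)`,
`8 s (s - |δ|) |g K + δ| ≤ g e (9 s² + 8 |K|) + 8 e (s - |δ|)`. -/
theorem ratio_bound (h : IntSys A n x y g) {d m' : ℕ} (hm : (x : ℤ) - y = m' * d) (hm' : m' ≠ 0)
    {l : ℤ} {t : X → X → ℤ} (hT : TMat A x y g d m' l t) :
    8 * ((x : ℤ) + y) * ((x : ℤ) + y - |2 * l - d|) *
      |g * (((x : ℤ) + y) * l - d * x) + (2 * l - d)| ≤
    g * (l * (d - l)) * (9 * ((x : ℤ) + y) ^ 2 + 8 * |((x : ℤ) + y) * l - d * x|) +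
      8 * (l * (d - l)) * ((x : ℤ) + y - |2 * l - d|) := by
  have hsym := h.tsymm hm' hT
  have hl0 := hT.l0
  have hl1 := hT.l1
  have hcub := h.cubic_rel hm hm' hT
  have hg : (0 : ℤ) < g := by exact_mod_cast h.hg
  have hs : 0 < ((x : ℤ) + y) := by
    have := h.hy
    have : (0 : ℤ) < y := by exact_mod_cast this
    positivity
  have hrow : ∀ Q, ((x : ℤ) + y) * (∑ R, t Q R ^ 2) =
      g * (l * (d - l)) + (2 * l - d) * ∑ R, t Q R := by
    intro Q
    have e := h.row_rel hm hm' hT Q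
    have e1 : ∑ P, t P Q ^ 2 = ∑ R, t Q R ^ 2 :=
      Finset.sum_congr rfl fun R _ => by rw [hsym R Q]
    have e2 : ∑ P, t P Q = ∑ R, t Q R := Finset.sum_congr rfl fun R _ => by rw [hsym R Q]
    rw [e1, e2] at e
    linear_combination e
  have hds : (d : ℤ) < x + y := by
    have h1 : (d : ℤ) ≤ x - y := by
      rw [hm]
      have : (1 : ℤ) ≤ m' := by exact_mod_cast Nat.one_le_iff_ne_zero.mpr hm'
      nlinarith [Int.natCast_nonneg d]
    have := h.hy
    have : (0 : ℤ) < y := by exact_mod_cast this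
    linarith
  set s : ℤ := (x : ℤ) + y with hsdef
  set K := s * l - d * x with hK
  set δ := 2 * l - (d : ℤ) with hδ
  set e := l * ((d : ℤ) - l) with he
  have he0 : 0 < e := mul_pos hl0 (by linarith)
  have hδd : |δ| < d := by rw [hδ, abs_lt]; constructor <;> linarith
  have hsδ : 0 < s - |δ| := by linarith
  -- rows
  have hτ : ∀ Q, |∑ R, t Q R| ≤ ∑ R, t Q R ^ 2 := by
    intro Q
    refine (Finset.abs_sum_le_sum_abs _ _).trans (Finset.sum_le_sum fun R _ => ?_)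
    rcases eq_or_ne (t Q R) 0 with h4 | h4
    · rw [h4]; simp
    · have := Int.one_le_abs h4
      nlinarith [sq_abs (t Q R)]
  have hN : ∀ Q, (s - |δ|) * (∑ R, t Q R ^ 2) ≤ g * e := by
    intro Q
    have h1 := hrow Q
    have h2 : δ * (∑ R, t Q R) ≤ |δ| * ∑ R, t Q R ^ 2 := by
      calc δ * (∑ R, t Q R) ≤ |δ * (∑ R, t Q R)| := le_abs_self _
        _ = |δ| * |∑ R, t Q R| := abs_mul _ _
        _ ≤ _ := mul_le_mul_of_nonneg_left (hτ Q) (abs_nonneg _)
    linarith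
  have hN0 : ∀ Q, 0 ≤ ∑ R, t Q R ^ 2 := fun Q => Finset.sum_nonneg fun R _ => sq_nonneg _
  have hXne : Nonempty X := by
    rw [← Fintype.card_pos_iff, h.cardX]; omega
  have hNpos : ∀ Q, 0 < ∑ R, t Q R ^ 2 := by
    intro Q
    rcases (hN0 Q).eq_or_lt with h0 | h0
    · exfalso
      have h1 := hrow Q
      have h2 := hτ Q
      rw [← h0] at h1 h2
      have h3 : ∑ R, t Q R = 0 := abs_nonpos_iff.mp h2
      rw [h3] at h1
      have := mul_pos hg he0
      linarith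
    · exact h0
  set N1 := ∑ P, ∑ Q, t P Q ^ 2 with hN1
  set Nt := ∑ P, (∑ Q, t P Q ^ 2) * ∑ Q, t P Q with hNt
  set T2 := ∑ P, (∑ Q, t P Q) ^ 2 with hT2
  set Th := ∑ P, ∑ Q, t P Q with hTh
  set N2 := ∑ Q, (∑ R, t Q R ^ 2) ^ 2 with hN2
  have hN1pos : 0 < N1 := Finset.sum_pos (fun P _ => hNpos P) Finset.univ_nonempty
  have hN2N1 : (s - |δ|) * N2 ≤ g * e * N1 := by
    rw [hN2, hN1, Finset.mul_sum, Finset.mul_sum]
    refine Finset.sum_le_sum fun Q _ => ?_
    have := mul_le_mul_of_nonneg_right (hN Q) (hN0 Q)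
    linarith
  have hT2N2 : T2 ≤ N2 := by
    refine Finset.sum_le_sum fun Q _ => ?_
    exact sq_le_sq' (by have := neg_abs_le (∑ R, t Q R); have := hτ Q; linarith)
      ((le_abs_self _).trans (hτ Q))
  have hT20 : 0 ≤ T2 := Finset.sum_nonneg fun Q _ => sq_nonneg _
  have hThN1 : |Th| ≤ N1 :=
    (Finset.abs_sum_le_sum_abs _ _).trans (Finset.sum_le_sum fun Q _ => hτ Q)
  have hc1 : 8 * (Nt - tr3 t) ≤ 9 * N2 := comb_bound t hsym
  have hc2 : -(8 * (Nt - tr3 t)) ≤ 9 * N2 := by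
    have h1 := comb_bound (fun P Q => -t P Q) (fun P Q => by rw [hsym P Q])
    have h2 : tr3 (fun P Q => -t P Q) = - tr3 t := by
      unfold tr3
      simp_rw [← Finset.sum_neg_distrib]
      exact Finset.sum_congr rfl fun P _ => Finset.sum_congr rfl fun Q _ =>
        Finset.sum_congr rfl fun R _ => by ring
    have h3 : ∑ Q, (∑ R, (-t Q R) ^ 2) * (∑ R, -t Q R) = - Nt := by
      rw [hNt, ← Finset.sum_neg_distrib]
      refine Finset.sum_congr rfl fun Q _ => ?_
      simp_rw [neg_sq, Finset.sum_neg_distrib]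
      ring
    have h4 : ∑ Q, (∑ R, (-t Q R) ^ 2) ^ 2 = N2 := by
      simp_rw [neg_sq]
      rfl
    rw [h2, h3, h4] at h1
    linarith
  have hc : 8 * |Nt - tr3 t| ≤ 9 * N2 := by
    rcases abs_cases (Nt - tr3 t) with ⟨h1, -⟩ | ⟨h1, -⟩ <;> rw [h1] <;> linarith
  -- conclusion
  have habs : |g * K + δ| * (s * N1) ≤ s ^ 2 * |Nt - tr3 t| + |K| * T2 + e * |Th| := by
    have h1 : |(g * K + δ) * (s * N1)| = |g * K + δ| * (s * N1) := by
      rw [abs_mul, abs_of_pos (mul_pos hs hN1pos)]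
    rw [← h1, hcub]
    calc |s ^ 2 * (Nt - tr3 t) + K * T2 - e * Th|
        ≤ |s ^ 2 * (Nt - tr3 t) + K * T2| + |e * Th| := abs_sub _ _
      _ ≤ |s ^ 2 * (Nt - tr3 t)| + |K * T2| + |e * Th| := by
        have := abs_add_le (s ^ 2 * (Nt - tr3 t)) (K * T2)
        linarith
      _ = _ := by
        rw [abs_mul, abs_mul, abs_mul, abs_of_pos (by positivity : 0 < s ^ 2),
          abs_of_nonneg hT20, abs_of_pos he0]
  have hK0 := abs_nonneg K
  have f1 : s ^ 2 * (8 * |Nt - tr3 t|) * (s - |δ|) ≤ s ^ 2 * (9 * (g * e * N1)) := by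
    have g1 : s ^ 2 * (8 * |Nt - tr3 t|) * (s - |δ|) ≤ s ^ 2 * (9 * N2) * (s - |δ|) :=
      mul_le_mul_of_nonneg_right (mul_le_mul_of_nonneg_left hc (by positivity)) hsδ.le
    have g2 : s ^ 2 * (9 * N2) * (s - |δ|) = s ^ 2 * (9 * ((s - |δ|) * N2)) := by ring
    have g3 : s ^ 2 * (9 * ((s - |δ|) * N2)) ≤ s ^ 2 * (9 * (g * e * N1)) :=
      mul_le_mul_of_nonneg_left (by linarith) (by positivity)
    linarith
  have f2 : |K| * T2 * (s - |δ|) ≤ |K| * (g * e * N1) := by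
    have g1 : |K| * T2 * (s - |δ|) ≤ |K| * N2 * (s - |δ|) :=
      mul_le_mul_of_nonneg_right (mul_le_mul_of_nonneg_left hT2N2 hK0) hsδ.le
    have g2 : |K| * N2 * (s - |δ|) = |K| * ((s - |δ|) * N2) := by ring
    have g3 : |K| * ((s - |δ|) * N2) ≤ |K| * (g * e * N1) :=
      mul_le_mul_of_nonneg_left hN2N1 hK0
    linarith
  have f3 : e * |Th| * (s - |δ|) ≤ e * N1 * (s - |δ|) :=
    mul_le_mul_of_nonneg_right (mul_le_mul_of_nonneg_left hThN1 he0.le) hsδ.le
  have f4 := mul_le_mul_of_nonneg_right habs hsδ.le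
  have f5 : N1 * (8 * s * (s - |δ|) * |g * K + δ|) ≤
      N1 * (g * e * (9 * s ^ 2 + 8 * |K|) + 8 * e * (s - |δ|)) := by
    linarith
  exact le_of_mul_le_mul_left f5 hN1pos

end IntSys

/-- `2 l ≠ d`. -/
theorem ratio_ne_half {x y g d l : ℤ} (hg : 1 ≤ g) (hl0 : 0 < l) (hy : 1 ≤ y)
    (hdm : d + 2 * y ≤ x + y)
    (h : 8 * (x + y) * (x + y - |2 * l - d|) * |g * (l * y - (d - l) * x) + (2 * l - d)| ≤
      g * (l * (d - l)) * (9 * (x + y) ^ 2 + 8 * |l * y - (d - l) * x|) +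
        8 * (l * (d - l)) * (x + y - |2 * l - d|)) : 2 * l ≠ d := by
  intro hld
  subst hld
  have hm : 2 * l ≤ x - y := by linarith
  set m := x - y with hmd
  have hx : x = y + m := by rw [hmd]; ring
  have e1 : l * y - (2 * l - l) * x = -(l * m) := by rw [hmd]; ring
  have e2 : |l * y - (2 * l - l) * x| = l * m := by
    rw [e1, abs_neg, abs_of_pos (mul_pos hl0 (by linarith))]
  have e3 : |g * (l * y - (2 * l - l) * x) + (2 * l - 2 * l)| = g * (l * m) := by
    rw [e1]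
    have : g * -(l * m) + (2 * l - 2 * l) = -(g * (l * m)) := by ring
    rw [this, abs_neg, abs_of_pos (mul_pos (by linarith) (mul_pos hl0 (by linarith)))]
  rw [e2, e3] at h
  have e4 : |2 * l - 2 * l| = 0 := by simp
  rw [e4, sub_zero] at h
  set s := x + y with hs
  have hsm : m + 2 ≤ s := by linarith
  have hm0 : 2 ≤ m := by linarith
  have h1 : l * (8 * s ^ 2 * g * m) ≤ l * (g * l * (9 * s ^ 2 + 8 * (l * m)) + 8 * l * s) := by
    linarith
  have h2 := le_of_mul_le_mul_left h1 hl0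
  have h3 : 2 * (g * l * (9 * s ^ 2 + 8 * (l * m)) + 8 * l * s) ≤
      m * (g * (9 * s ^ 2 + 4 * m ^ 2) + 8 * s) := by
    have h4 : (2 * l) * (g * (9 * s ^ 2 + 4 * ((2 * l) * m)) + 8 * s) ≤
        m * (g * (9 * s ^ 2 + 4 * ((2 * l) * m)) + 8 * s) := by
      apply mul_le_mul_of_nonneg_right hm
      have h0 : 0 ≤ (2 * l) * m := mul_nonneg (by linarith) (by linarith)
      have h1 : 0 ≤ g * (9 * s ^ 2 + 4 * ((2 * l) * m)) :=
        mul_nonneg (by linarith) (by nlinarith [sq_nonneg s])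
      linarith
    have h5 : (2 * l) * m ≤ m * m := mul_le_mul_of_nonneg_right hm (by linarith)
    have h6 : m * (g * (9 * s ^ 2 + 4 * ((2 * l) * m)) + 8 * s) ≤
        m * (g * (9 * s ^ 2 + 4 * (m * m)) + 8 * s) := by
      apply mul_le_mul_of_nonneg_left _ (by linarith)
      have : g * (9 * s ^ 2 + 4 * ((2 * l) * m)) ≤ g * (9 * s ^ 2 + 4 * (m * m)) :=
        mul_le_mul_of_nonneg_left (by linarith) (by linarith)
      linarith
    nlinarith
  have h4 : m * (16 * s ^ 2 * g) ≤ m * (g * (9 * s ^ 2 + 4 * m ^ 2) + 8 * s) := by linarith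
  have h5 := le_of_mul_le_mul_left h4 (by linarith)
  have h6 : m ^ 2 ≤ (s - 2) ^ 2 := pow_le_pow_left₀ (by linarith) (by linarith) 2
  have h7 : g * m ^ 2 ≤ g * (s - 2) ^ 2 := mul_le_mul_of_nonneg_left h6 (by linarith)
  have h8 : 0 ≤ (g - 1) * (s - 1) := mul_nonneg (by linarith) (by linarith)
  have h9 : 0 < g * s ^ 2 := by
    have : 0 < s := by linarith
    positivity
  nlinarith

/-- The simple form of the bound for the ratio. -/
theorem ratio_simple {x y g d l : ℤ} (hl0 : 0 < l) (hl1 : l < d)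
    (hgd : 2 * (x + y) < (g + 2) * d) (hd4 : 4 * d ≤ x + y)
    (h : 8 * (x + y) * (x + y - |2 * l - d|) * |g * (l * y - (d - l) * x) + (2 * l - d)| ≤
      g * (l * (d - l)) * (9 * (x + y) ^ 2 + 8 * |l * y - (d - l) * x|) +
        8 * (l * (d - l)) * (x + y - |2 * l - d|)) :
    |l * y - (d - l) * x| < 2 * (l * (d - l)) := by
  by_contra hcon
  rw [not_lt] at hcon
  have habs : |g * (l * y - (d - l) * x) + (2 * l - d)| ≥
      g * |l * y - (d - l) * x| - |2 * l - d| := by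
    have h1 : g * |l * y - (d - l) * x| ≤ |g * (l * y - (d - l) * x)| := by
      rw [abs_mul]
      exact mul_le_mul_of_nonneg_right (le_abs_self g) (abs_nonneg _)
    have h2 : |g * (l * y - (d - l) * x)| ≤
        |g * (l * y - (d - l) * x) + (2 * l - d)| + |2 * l - d| := by
      have := abs_sub (g * (l * y - (d - l) * x) + (2 * l - d)) (2 * l - d)
      rwa [add_sub_cancel_right] at this
    linarith
  set K := l * y - (d - l) * x
  set D := |2 * l - d| with hD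
  set e := l * (d - l) with he
  set s := x + y
  set k := |K|
  have hd0 : 2 ≤ d := by linarith
  have hDd : D + 2 ≤ d := by
    rw [hD]
    have : |2 * l - d| ≤ d - 2 := by
      rw [abs_le]; constructor <;> linarith
    linarith
  have hD0 : 0 ≤ D := abs_nonneg _
  have hed : d - 1 ≤ e := by
    rw [he]; nlinarith
  have he0 : 0 < e := mul_pos hl0 (by linarith)
  have h4e : 4 * e ≤ d ^ 2 := by
    rw [he]; nlinarith [sq_nonneg (2 * l - d)]
  have hs8 : 8 ≤ s := by linarith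
  have h64 : 64 * e ≤ s ^ 2 := by
    have h1 : (4 * d) ^ 2 ≤ s ^ 2 := pow_le_pow_left₀ (by linarith) hd4 2
    linarith
  have hg7 : 7 ≤ g := by
    have h1 : 8 * d < (g + 2) * d := by linarith
    have h2 : 8 < g + 2 := lt_of_mul_lt_mul_right h1 (by linarith)
    linarith
  have hP : 3 * s ≤ 4 * (s - D) := by linarith
  have hgk : 0 ≤ g * k - D := by
    have h1 : 7 * k ≤ g * k := mul_le_mul_of_nonneg_right hg7 (by linarith)
    linarith
  have f1 : 6 * s ^ 2 * (g * k - D) ≤ 8 * s * (s - D) * (g * k - D) := by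
    apply mul_le_mul_of_nonneg_right _ hgk
    nlinarith
  have f2 : 8 * s * (s - D) * (g * k - D) ≤ 8 * s * (s - D) * |g * K + (2 * l - d)| := by
    apply mul_le_mul_of_nonneg_left habs
    apply mul_nonneg <;> linarith
  have f3 : 8 * e * (s - D) ≤ 8 * e * s := mul_le_mul_of_nonneg_left (by linarith) (by linarith)
  have f4 : 6 * s ^ 2 * (g * k - D) ≤ g * e * (9 * s ^ 2 + 8 * k) + 8 * e * s := by linarith
  have f5 : g * (2 * e) * (6 * s ^ 2 - 8 * e) ≤ g * k * (6 * s ^ 2 - 8 * e) := by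
    apply mul_le_mul_of_nonneg_right
    · exact mul_le_mul_of_nonneg_left hcon (by linarith)
    · linarith
  have f6 : 6 * s ^ 2 * D ≤ 6 * s ^ 2 * e := mul_le_mul_of_nonneg_left (by linarith) (by positivity)
  have f7 : g * e * (16 * e) ≤ g * e * (s ^ 2) :=
    mul_le_mul_of_nonneg_left (by linarith) (by positivity)
  have f8 : g * e * (2 * s ^ 2) ≤ 6 * s ^ 2 * e + 8 * e * s := by linarith
  have f9 : (e * s) * (g * (2 * s)) ≤ (e * s) * (6 * s + 8) := by linarith
  have f10 := le_of_mul_le_mul_left f9 (by positivity)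
  nlinarith

namespace IsLambdaDesign

variable {v lam : ℕ} {L : Finset (Finset (Fin v))}

/-- The numbers attached to a `λ`-design that is not type-1. -/
theorem exists_ratio (h : IsLambdaDesign v lam L) {P Q : Fin v} {x y g d : ℕ}
    (hP : repl L P = g * x + 1) (hQ : repl L Q = g * y + 1) (hg : 0 < g) (hxy : y < x)
    (hc : Nat.Coprime x y) (hd : d = Nat.gcd lam (x - y)) (hn : ¬ IsType1 v L) :
    0 < y ∧ (d : ℤ) + 2 * y ≤ x + y ∧ 2 * (x + y) < (g + 2) * d ∧
    ∃ l : ℕ, 0 < l ∧ l < d ∧ ((x : ℤ) + y ∣ 2 * l - d * (g * x + 1)) ∧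
      (d ∣ l ^ 2 ∨ 4 * (x + y) ^ 3 < g * d ^ 4) ∧
      8 * ((x : ℤ) + y) * ((x : ℤ) + y - |2 * (l : ℤ) - d|) *
        |g * (l * y - (d - l) * x) + (2 * (l : ℤ) - d)| ≤
      g * (l * (d - l)) * (9 * ((x : ℤ) + y) ^ 2 + 8 * |(l : ℤ) * y - (d - l) * x|) +
        8 * (l * (d - l)) * ((x : ℤ) + y - |2 * (l : ℤ) - d|) := by
  have hPQ : repl L Q < repl L P := by
    rw [hP, hQ]
    have := Nat.mul_lt_mul_of_pos_left hxy hg
    omega
  obtain ⟨A, n, x', y', g', d', m', l, t, hI, hv, hP', hQ', hrg, e1, e2, hd', hm, hm', hT, hl0, hl1,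
    hl2, hl3⟩ := h.exists_data hPQ hn
  have hgg : g' = g := by
    have h1 : rgcd L P Q = g := by
      unfold rgcd
      rw [hP, hQ, Nat.add_sub_cancel, Nat.add_sub_cancel, Nat.gcd_mul_left, hc.gcd_eq_one, mul_one]
    rw [← hrg, h1]
  subst hgg
  have hxx : x' = x := by
    have h1 : g' * x' + 1 = g' * x + 1 := by rw [← hP', hP]
    exact Nat.eq_of_mul_eq_mul_left hg (by omega)
  have hyy : y' = y := by
    have h1 : g' * y' + 1 = g' * y + 1 := by rw [← hQ', hQ]
    exact Nat.eq_of_mul_eq_mul_left hg (by omega)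
  subst hxx hyy
  have hdd : d' = d := by rw [hd, hd']
  subst hdd
  have hy : (0 : ℤ) < y' := by exact_mod_cast hI.hy
  refine ⟨hI.hy, ?_, ?_, l, hl0, hl1, hl2, hl3, ?_⟩
  · have h1 : (d' : ℤ) ≤ x' - y' := by
      rw [hm]
      have : (1 : ℤ) ≤ m' := by exact_mod_cast Nat.one_le_iff_ne_zero.mpr hm'
      nlinarith [Int.natCast_nonneg d']
    linarith
  · by_contra hcon
    rw [not_lt] at hcon
    apply hn
    refine h.isType1_of_gcd hPQ (Or.inr ?_)
    rw [e1, e2, hrg, ← hd']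
    exact hcon
  · have h1 := hI.ratio_bound hm hm' hT
    have e : ((x' : ℤ) + y') * l - d' * x' = l * y' - (d' - l) * x' := by ring
    rw [e] at h1
    exact h1

end IsLambdaDesign

end Pool.Agent.Lib.MP_93e743_co
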