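import Pool.Agent.Lib.MP_93e743_co.Plane
import Pool.Agent.Lib.MP_93e743_co.RMat

/-!
The sparse case: constant row sums.
-/

namespace Pool.Agent.Lib.MP_93e743_co

open Finset

variable {ι X : Type*} [Fintype ι] [Fintype X] [DecidableEq ι] [DecidableEq X]

namespace IntSys

variable {A : ι → Finset X} {n : ι → ℕ} {x y g : ℕ}

/-- The multiplication by `|A i|`. -/
theorem K8 (h : IntSys A n x y g) (i : ι) (P : X) :
    chi A i P * ((y : ℚ) * (g * x + 1) - (x + y) * n i) =
      ∑ Q ∈ univ.erase P, ((x : ℚ) * (g * x + 1) - (x + y) * cc A P Q) *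
        (chi A i Q - (x : ℚ) / (x + y)) := by
  have h0 := h.sq0
  set α : ℚ := (x : ℚ) / (x + y) with hα
  have hα1 : 1 - α = (y : ℚ) / (x + y) := by rw [hα]; field_simp; ring
  have hy : (y : ℚ) ≠ 0 := by exact_mod_cast h.hy.ne'
  have hx : (x : ℚ) ≠ 0 := by
    have := h.hxy
    have : x ≠ 0 := by omega
    exact_mod_cast this
  set f : ι → ℚ := fun j => chi A j P * ((y : ℚ) * (g * x + 1) - (x + y) * n j) with hf
  have hmul : ∀ j, f j * (n j : ℚ)⁻¹ =
      (y : ℚ) * (g * x + 1) * (chi A j P * (n j : ℚ)⁻¹) - (x + y) * chi A j P := by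
    intro j
    have h1 : (n j : ℚ) * (n j : ℚ)⁻¹ = 1 := mul_inv_cancel₀ (h.sys.npos' j).ne'
    rw [hf]
    linear_combination (-(x + y : ℚ) * chi A j P) * h1
  have hs1 := h.sys.s1 P
  have hrep := h.sys.repl_eq P
  rw [h.rr_eq] at hrep
  have hW : ∑ j, f j * (n j : ℚ)⁻¹ = 0 := by
    rw [Finset.sum_congr rfl fun j _ => hmul j, Finset.sum_sub_distrib, ← Finset.mul_sum,
      ← Finset.mul_sum, hs1, hrep, hα1]
    field_simp
    ring
  have hWQ : ∀ Q, Q ≠ P → ∑ j, f j * (n j : ℚ)⁻¹ * (chi A j Q - α) =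
      (x : ℚ) * (g * x + 1) - (x + y) * cc A P Q := by
    intro Q hQ
    have h2 := h.sys.s2 P Q (Ne.symm hQ)
    have h3 : ∀ j, f j * (n j : ℚ)⁻¹ * (chi A j Q - α) =
        (y : ℚ) * (g * x + 1) * (chi A j P * chi A j Q * (n j : ℚ)⁻¹) -
          (x + y) * (chi A j P * chi A j Q) - α * (f j * (n j : ℚ)⁻¹) := by
      intro j
      have h4 := hmul j
      linear_combination (chi A j Q) * h4
    rw [Finset.sum_congr rfl fun j _ => h3 j, Finset.sum_sub_distrib, Finset.sum_sub_distrib,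
      ← Finset.mul_sum, ← Finset.mul_sum, ← Finset.mul_sum, hW, h2]
    have h4 : ∑ j, chi A j P * chi A j Q = (cc A P Q : ℚ) := prs_eq A P Q
    rw [h4, hα1, hα]
    field_simp
    ring
  have hWP : ∑ j, f j * (n j : ℚ)⁻¹ * (chi A j P - α) = 0 := by
    have h3 : ∀ j, f j * (n j : ℚ)⁻¹ * (chi A j P - α) = (1 - α) * (f j * (n j : ℚ)⁻¹) := by
      intro j
      have h4 : f j * chi A j P = f j := by
        rw [hf]
        have := chi_mul_self A j P
        linear_combination ((y : ℚ) * (g * x + 1) - (x + y) * n j) * this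
      linear_combination (n j : ℚ)⁻¹ * h4
    rw [Finset.sum_congr rfl fun j _ => h3 j, ← Finset.mul_sum, hW, mul_zero]
  -- expand
  have h5 : ∑ j, f j * (n j : ℚ)⁻¹ * (if i = j then (n i : ℚ) else 0) = f i := by
    rw [Finset.sum_eq_single i]
    · rw [if_pos rfl, mul_assoc, inv_mul_cancel₀ (h.sys.npos' i).ne', mul_one]
    · intro j _ hj
      rw [if_neg (Ne.symm hj), mul_zero]
    · intro hi; exact absurd (Finset.mem_univ i) hi
  have h6 : ∑ j, f j * (n j : ℚ)⁻¹ * (if i = j then (n i : ℚ) else 0) =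
      α * (1 - α) * (∑ j, f j * (n j : ℚ)⁻¹) +
        ∑ Q, (chi A i Q - α) * ∑ j, f j * (n j : ℚ)⁻¹ * (chi A j Q - α) := by
    have h7 : ∀ j, f j * (n j : ℚ)⁻¹ * (if i = j then (n i : ℚ) else 0) =
        α * (1 - α) * (f j * (n j : ℚ)⁻¹) +
          ∑ Q, (chi A i Q - α) * (f j * (n j : ℚ)⁻¹ * (chi A j Q - α)) := by
      intro j
      rw [← h.sys.dual i j, mul_add, Finset.mul_sum]
      congr 1
      · ring
      · exact Finset.sum_congr rfl fun Q _ => by ring
    rw [Finset.sum_congr rfl fun j _ => h7 j, Finset.sum_add_distrib, ← Finset.mul_sum,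
      Finset.sum_comm]
    congr 1
    exact Finset.sum_congr rfl fun Q _ => by rw [Finset.mul_sum]
  have h8 : f i = chi A i P * ((y : ℚ) * (g * x + 1) - (x + y) * n i) := rfl
  rw [← h8, ← h5, h6, hW, mul_zero, zero_add, ← Finset.add_sum_erase _ _ (Finset.mem_univ P), hWP,
    mul_zero, zero_add]
  refine Finset.sum_congr rfl fun Q hQ => ?_
  rw [hWQ Q (Finset.mem_erase.mp hQ).1]
  ring

omit [Fintype ι] [Fintype X] [DecidableEq ι] in
lemma chi_eq (A : ι → Finset X) (i : ι) (P : X) : chi A i P = ((if P ∈ A i then 1 else 0 : ℤ) : ℚ) := by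
  unfold chi; split <;> simp

/-- The row relation. -/
theorem row_eq (h : IntSys A n x y g) {d m' : ℕ} (hm : (x : ℤ) - y = m' * d) (hm' : m' ≠ 0)
    {l : ℤ} {t : X → X → ℤ} (hT : TMat A x y g d m' l t) (i : ι) (P : X) :
    ((x : ℤ) + y) * ∑ Q ∈ A i, t P Q =
      l * ((A i).card - g * x) + x * ∑ Q, t P Q -
        (d * ((A i).card - g * x) - d + l) * (if P ∈ A i then 1 else 0) := by
  have h1 := h.K8 i P
  have h0 := h.sq0
  have hm0 : (m' : ℚ) ≠ 0 := by exact_mod_cast hm'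
  set χ : ℤ := (if P ∈ A i then 1 else 0) with hχ
  have hχ' : chi A i P = (χ : ℚ) := chi_eq A i P
  have hmq : (x : ℚ) - y = m' * d := by exact_mod_cast hm
  -- the sums
  have h2 : ∀ Q ∈ univ.erase P, ((x : ℚ) * (g * x + 1) - (x + y) * cc A P Q) *
        (chi A i Q - (x : ℚ) / (x + y)) =
      m' * (l * chi A i Q - l * ((x : ℚ) / (x + y)) - (x + y) * (t P Q * chi A i Q) +
        x * t P Q) := by
    intro Q hQ
    have h3 := hT.cceq P Q (Ne.symm (Finset.mem_erase.mp hQ).1)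
    have h4 : ((x : ℚ) + y) * cc A P Q = x * (g * x + 1) + m' * (((x : ℚ) + y) * t P Q - l) := by
      exact_mod_cast h3
    rw [h4]
    field_simp
    ring
  rw [Finset.sum_congr rfl h2, ← Finset.mul_sum] at h1
  have h5 : ∑ Q ∈ univ.erase P, (l * chi A i Q - l * ((x : ℚ) / (x + y)) -
      (x + y) * (t P Q * chi A i Q) + x * t P Q) =
      l * ((A i).card - χ) - l * (g * x) - (x + y) * (∑ Q ∈ A i, (t P Q : ℚ)) +
        x * ∑ Q, (t P Q : ℚ) := by
    rw [Finset.sum_add_distrib, Finset.sum_sub_distrib, Finset.sum_sub_distrib, ← Finset.mul_sum,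
      ← Finset.mul_sum, ← Finset.mul_sum, ← Finset.mul_sum, Finset.sum_const,
      Finset.card_erase_of_mem (Finset.mem_univ P), Finset.card_univ, h.cardX, Nat.add_sub_cancel,
      nsmul_eq_mul]
    have e1 : ∑ Q ∈ univ.erase P, chi A i Q = (A i).card - (χ : ℚ) := by
      have := Finset.add_sum_erase univ (fun Q => chi A i Q) (Finset.mem_univ P)
      have e2 : ∑ Q, chi A i Q = (A i).card := sz_eq A i
      rw [e2, hχ'] at this
      linarith
    have e3 : ∑ Q ∈ univ.erase P, (t P Q : ℚ) * chi A i Q = ∑ Q ∈ A i, (t P Q : ℚ) := by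
      have := Finset.add_sum_erase univ (fun Q => (t P Q : ℚ) * chi A i Q) (Finset.mem_univ P)
      have e4 : ∑ Q, (t P Q : ℚ) * chi A i Q = ∑ Q ∈ A i, (t P Q : ℚ) := by
        unfold chi
        simp_rw [mul_ite, mul_one, mul_zero]
        rw [Finset.sum_ite_mem, Finset.univ_inter]
      rw [e4, hT.diag P] at this
      simpa using this
    have e5 : ∑ Q ∈ univ.erase P, (t P Q : ℚ) = ∑ Q, (t P Q : ℚ) := by
      have := Finset.add_sum_erase univ (fun Q => (t P Q : ℚ)) (Finset.mem_univ P)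
      rw [hT.diag P] at this
      simpa using this
    rw [e1, e3, e5]
    push_cast
    field_simp
  rw [h5, hχ'] at h1
  have hK1 := h.K1 i
  have hK1q : ((x : ℚ) - y) * (A i).card = x * (g * x + 1) - (x + y) * n i := by
    exact_mod_cast hK1
  have h6 : (m' : ℚ) * ((χ : ℚ) * (d * ((A i).card - g * x) - d)) =
      m' * (l * ((A i).card - χ) - l * (g * x) - (x + y) * (∑ Q ∈ A i, (t P Q : ℚ)) +
        x * ∑ Q, (t P Q : ℚ)) := by
    rw [← h1]
    linear_combination (-(χ : ℚ) * ((A i).card - g * x - 1)) * hmq + (χ : ℚ) * hK1q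
  have h7 := mul_left_cancel₀ hm0 h6
  have h8 : ((x : ℚ) + y) * ∑ Q ∈ A i, (t P Q : ℚ) =
      l * ((A i).card - g * x) + x * ∑ Q, (t P Q : ℚ) -
        (d * ((A i).card - g * x) - d + l) * χ := by
    linear_combination h7
  exact_mod_cast h8

/-- The indicators of the sets span. -/
theorem span_zero (h : IntSys A n x y g) (z : X → ℚ) (hz : ∀ i, ∑ Q ∈ A i, z Q = 0) (R : X) :
    z R = 0 := by
  have hz' : ∀ i, ∑ Q, z Q * chi A i Q = 0 := by
    intro i
    rw [← hz i]
    unfold chi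
    simp_rw [mul_ite, mul_one, mul_zero]
    rw [Finset.sum_ite_mem, Finset.univ_inter]
  have hα1 := h.sys.ne1
  set α : ℚ := (x : ℚ) / (x + y)
  have h1 : ∑ i, (∑ Q, z Q * chi A i Q) * (n i : ℚ)⁻¹ = (1 - α)⁻¹ * ∑ Q, z Q := by
    simp_rw [Finset.sum_mul]
    rw [Finset.sum_comm, Finset.mul_sum]
    refine Finset.sum_congr rfl fun Q _ => ?_
    rw [← h.sys.s1 Q, Finset.sum_mul]
    exact Finset.sum_congr rfl fun i _ => by ring
  have hsum : ∑ Q, z Q = 0 := by
    have h2 : ∑ i, (∑ Q, z Q * chi A i Q) * (n i : ℚ)⁻¹ = 0 :=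
      Finset.sum_eq_zero fun i _ => by rw [hz' i, zero_mul]
    rw [h2] at h1
    exact (mul_eq_zero.mp h1.symm).resolve_left (inv_ne_zero hα1)
  have h3 : ∑ i, (∑ Q, z Q * chi A i Q) * (chi A i R * (n i : ℚ)⁻¹) =
      α * (1 - α)⁻¹ * (∑ Q, z Q) + z R := by
    simp_rw [Finset.sum_mul]
    rw [Finset.sum_comm]
    have h4 : ∀ Q, ∑ i, z Q * chi A i Q * (chi A i R * (n i : ℚ)⁻¹) =
        α * (1 - α)⁻¹ * z Q + if Q = R then z R else 0 := by
      intro Q
      have h5 : ∑ i, z Q * chi A i Q * (chi A i R * (n i : ℚ)⁻¹) =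
          z Q * ∑ i, chi A i Q * chi A i R * (n i : ℚ)⁻¹ := by
        rw [Finset.mul_sum]
        exact Finset.sum_congr rfl fun i _ => by ring
      rw [h5]
      by_cases hQR : Q = R
      · subst hQR
        rw [if_pos rfl]
        simp_rw [chi_mul_self]
        rw [h.sys.s1 Q]
        have h6 : (1 - α)⁻¹ = α * (1 - α)⁻¹ + 1 := by
          have h7 : (1 - α) * (1 - α)⁻¹ = 1 := mul_inv_cancel₀ hα1
          linear_combination h7
        linear_combination z Q * h6
      · rw [if_neg hQR, h.sys.s2 Q R hQR]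
        ring
    rw [Finset.sum_congr rfl fun Q _ => h4 Q, Finset.sum_add_distrib, ← Finset.mul_sum,
      Finset.sum_ite_eq', if_pos (Finset.mem_univ _)]
  have h6 : ∑ i, (∑ Q, z Q * chi A i Q) * (chi A i R * (n i : ℚ)⁻¹) = 0 :=
    Finset.sum_eq_zero fun i _ => by rw [hz' i, zero_mul]
  rw [h6, hsum, mul_zero, zero_add] at h3
  exact h3.symm

/-- Two points are avoided by a set. -/
theorem exists_avoid (h : IntSys A n x y g) (P Q : X) : ∃ i, P ∉ A i ∧ Q ∉ A i := by
  by_contra hcon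
  push Not at hcon
  have hα0 := h.sys.ne0
  have hα1 := h.sys.ne1
  have hpos : (0 : ℚ) < (x : ℚ) / (x + y) := lt_trans (by norm_num) h.sys.half
  have hlt := h.sys.lt_one
  set α : ℚ := (x : ℚ) / (x + y)
  have h1 : ∀ i, (1 - chi A i P) * (1 - chi A i Q) * (n i : ℚ)⁻¹ = 0 := by
    intro i
    unfold chi
    by_cases hP : P ∈ A i
    · simp [hP]
    · simp [hcon i hP]
  have h2 : ∑ i, (1 - chi A i P) * (1 - chi A i Q) * (n i : ℚ)⁻¹ = 0 :=
    Finset.sum_eq_zero fun i _ => h1 i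
  have h3 : ∀ i, (1 - chi A i P) * (1 - chi A i Q) * (n i : ℚ)⁻¹ =
      (n i : ℚ)⁻¹ - chi A i P * (n i : ℚ)⁻¹ - chi A i Q * (n i : ℚ)⁻¹ +
        chi A i P * chi A i Q * (n i : ℚ)⁻¹ := by intro i; ring
  rw [Finset.sum_congr rfl fun i _ => h3 i, Finset.sum_add_distrib, Finset.sum_sub_distrib,
    Finset.sum_sub_distrib, h.sys.s0, h.sys.s1, h.sys.s1] at h2
  by_cases hPQ : P = Q
  · subst hPQ
    simp_rw [chi_mul_self] at h2
    rw [h.sys.s1] at h2
    have h4 : (α * (1 - α))⁻¹ - (1 - α)⁻¹ - (1 - α)⁻¹ + (1 - α)⁻¹ = α⁻¹ := by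
      field_simp
      ring
    rw [h4] at h2
    exact (inv_ne_zero hα0) h2
  · rw [h.sys.s2 P Q hPQ] at h2
    have h4 : (α * (1 - α))⁻¹ - (1 - α)⁻¹ - (1 - α)⁻¹ + α * (1 - α)⁻¹ = (1 - α) * α⁻¹ := by
      field_simp
      ring
    rw [h4] at h2
    exact (mul_ne_zero hα1 (inv_ne_zero hα0)) h2

/-- The sizes of the sets are not all equal. -/
theorem exists_card_ne (h : IntSys A n x y g) : ∃ i j, (A i).card ≠ (A j).card := by
  by_contra hcon
  push Not at hcon
  have h0 := h.sq0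
  have hy : (0 : ℚ) < y := by exact_mod_cast h.hy
  have hxy : (y : ℚ) < x := by exact_mod_cast h.hxy
  have hX : Nonempty X := by
    rw [← Fintype.card_pos_iff, h.cardX]; omega
  obtain ⟨P⟩ := hX
  obtain ⟨i0, -, -⟩ := h.exists_avoid P P
  have hn : ∀ i, (n i : ℚ) = n i0 := by
    intro i
    have h1 := h.K1 i
    have h2 := h.K1 i0
    rw [hcon i i0] at h1
    have h3 : ((x : ℤ) + y) * (n i - n i0) = 0 := by linear_combination h1 - h2
    have h4 : (n i : ℤ) - n i0 = 0 := by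
      rcases mul_eq_zero.mp h3 with h5 | h5
      · exfalso
        have : (x : ℚ) + y = 0 := by exact_mod_cast h5
        exact h0 this
      · exact h5
    have h5 : (n i : ℤ) = n i0 := by linarith
    exact_mod_cast h5
  have hn0 := (h.sys.npos' i0).ne'
  have h1 := h.sys.s0
  have h2 := h.sys.s1 P
  have h3 := h.sys.repl_eq P
  rw [h.rr_eq] at h3
  simp_rw [hn] at h1 h2
  rw [Finset.sum_const, Finset.card_univ, h.sys.card, h.cardX, nsmul_eq_mul] at h1
  rw [← Finset.sum_mul, h3] at h2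
  have e1 : 1 - (x : ℚ) / (x + y) = y / (x + y) := by field_simp; ring
  rw [e1] at h1 h2
  have hx0 : (x : ℚ) ≠ 0 := by linarith
  have hs : (0 : ℚ) < x + y := by linarith
  have h5 : ((x : ℚ) + y) * n i0 = (g * x + 1) * y := by
    rw [← div_eq_mul_inv, div_eq_iff hn0, inv_div, div_mul_eq_mul_div, eq_div_iff hy.ne'] at h2
    linarith
  have h6 : ((g : ℚ) * (x + y) + 2) * (x * y) = (x + y) ^ 2 * n i0 := by
    rw [← div_eq_mul_inv, div_eq_iff hn0, div_mul_div_comm, inv_div, div_mul_eq_mul_div,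
      eq_div_iff (by positivity)] at h1
    push_cast at h1
    linarith
  have h7 : (y : ℚ) * ((x : ℚ) - y) = 0 := by
    linear_combination h6 + ((x : ℚ) + y) * h5
  rcases mul_eq_zero.mp h7 with h8 | h8 <;> linarith

theorem exists_rmat (h : IntSys A n x y g) {d m' : ℕ} (hm : (x : ℤ) - y = m' * d) (hm' : m' ≠ 0)
    (hr : (d : ℤ) ∣ g * x + 1) {l : ℤ} {t : X → X → ℤ} (hT : TMat A x y g d m' l t) :
    RMat A (fun i => ((A i).card : ℤ) - g * x) t x y g d l where
  hy := by exact_mod_cast h.hy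
  hxy := by exact_mod_cast h.hxy
  hg := by exact_mod_cast h.hg
  hl := hT.l0
  hld := hT.l1
  hdm := ⟨m', by rw [hm]; ring⟩
  hr := hr
  cop := Nat.isCoprime_iff_coprime.mpr h.cop
  cardX := by rw [h.cardX]; push_cast; ring
  symm := h.tsymm hm' hT
  diag := hT.diag
  card := fun i => by ring
  key := fun P => by
    have h1 := h.row_rel hm hm' hT P
    simp_rw [h.tsymm hm' hT P]
    exact h1
  row := h.row_eq hm hm' hT
  span := h.span_zero
  avoid := h.exists_avoid
  two := by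
    obtain ⟨i, j, hij⟩ := h.exists_card_ne
    refine ⟨i, j, fun h1 => hij ?_⟩
    have : ((A i).card : ℤ) = (A j).card := by linarith
    exact_mod_cast this

end IntSys

/-- The numerical conditions. -/
theorem sparse_num {g s d l : ℤ} (hg : 0 < g) (hl : 0 < l) (hld : l < d) (hds : d + 2 ≤ s)
    (h1 : g * d ^ 2 < 2 * s ^ 2) (h2 : d ≤ 6 ∨ d ^ 2 + 64 ≤ 8 * s) :
    2 * (g * (l * (d - l))) < s ^ 2 - (d - 2 * l) ^ 2 ∧
      l * (d - l) * (s + |d - 2 * l|) ≤ 2 * (s * (s - |d - 2 * l|)) := by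
  have he : 4 * (l * (d - l)) = d ^ 2 - (d - 2 * l) ^ 2 := by ring
  set D := d - 2 * l with hD
  set e := l * (d - l) with hE
  have he0 : 0 < e := mul_pos hl (by linarith)
  have hδ0 : 0 ≤ |D| := abs_nonneg _
  have hδd : |D| < d := by
    rw [abs_lt]; constructor <;> rw [hD] <;> linarith
  have hD2 : D ^ 2 = |D| ^ 2 := (sq_abs D).symm
  constructor
  · rcases (by omega : g = 1 ∨ 2 ≤ g) with h3 | h3
    · subst h3
      rw [hD2] at he ⊢
      nlinarith
    · nlinarith [sq_nonneg D]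
  · rcases h2 with h2 | h2
    · -- small d
      have hl6 : l < 6 := by linarith
      have hd2 : 2 ≤ d := by omega
      interval_cases d <;> interval_cases l <;> simp only [hE, hD] <;> norm_num <;>
        nlinarith
    · rw [hD2] at he
      set δ := |D|
      nlinarith [mul_nonneg hδ0 hδ0, sq_nonneg (δ - 8), mul_nonneg (sq_nonneg (δ - 8)) (by linarith : (0:ℤ) ≤ s),
        mul_nonneg hδ0 (by linarith : (0:ℤ) ≤ s), mul_nonneg (mul_nonneg hδ0 hδ0) hδ0]

namespace IsLambdaDesign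

variable {v lam : ℕ} {L : Finset (Finset (Fin v))}

/-- A `λ`-design with `g gcd (λ, x - y) ^ 2 < 2 (x + y) ^ 2` and `gcd (λ, x - y)` small is
type-1. -/
theorem isType1_of_sparse (h : IsLambdaDesign v lam L) {P Q : Fin v}
    (hPQ : repl L Q < repl L P)
    (h1 : rgcd L P Q * Nat.gcd lam ((repl L P - repl L Q) / rgcd L P Q) ^ 2 <
      2 * ((v - 1) / rgcd L P Q) ^ 2)
    (h2 : Nat.gcd lam ((repl L P - repl L Q) / rgcd L P Q) ≤ 6 ∨
      Nat.gcd lam ((repl L P - repl L Q) / rgcd L P Q) ^ 2 + 64 ≤ 8 * ((v - 1) / rgcd L P Q)) :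
    IsType1 v L := by
  by_contra hn
  obtain ⟨E, x, y, g, hE1, hE2, hI, hr1, hr2⟩ := h.exists_intSys
  have hnc : ¬ ∃ c, ∀ P Q, P ≠ Q → cc (setOf' L E) P Q = c :=
    fun hc => hn (h.isType1_of_const hE1 hE2 hI hc)
  have hg := hI.hg
  have hxy := hI.hxy
  have hcard := hI.cardX
  rw [Fintype.card_fin] at hcard
  have hlt : g * y + 1 < g * x + 1 := by
    have := Nat.mul_lt_mul_of_pos_left hxy hg
    omega
  have hPval : repl L P = g * x + 1 ∧ repl L Q = g * y + 1 := by
    by_cases h1 : P ∈ E <;> by_cases h2 : Q ∈ E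
    · rw [hr2 P h1, hr2 Q h2] at hPQ; omega
    · rw [hr2 P h1, hr1 Q h2] at hPQ; omega
    · exact ⟨hr1 P h1, hr2 Q h2⟩
    · rw [hr1 P h1, hr1 Q h2] at hPQ; omega
  have hrg : rgcd L P Q = g := by
    unfold rgcd
    rw [hPval.1, hPval.2, Nat.add_sub_cancel, Nat.add_sub_cancel, Nat.gcd_mul_left,
      hI.cop.gcd_eq_one, mul_one]
  have e1 : (repl L P - repl L Q) / rgcd L P Q = x - y := by
    rw [hrg, hPval.1, hPval.2]
    have : g * x + 1 - (g * y + 1) = g * (x - y) := by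
      rw [Nat.mul_sub]; omega
    rw [this, Nat.mul_div_cancel_left _ hg]
  have e2 : (v - 1) / rgcd L P Q = x + y := by
    rw [hrg, hcard, Nat.add_sub_cancel, Nat.mul_div_cancel_left _ hg]
  rw [e1, e2, hrg] at h1
  rw [e1, e2] at h2
  set d := Nat.gcd lam (x - y) with hdd
  obtain ⟨l, t, hT⟩ := hI.exists_tmat none d ((x - y) / d) rfl rfl hnc
  set m' := (x - y) / d with hm'
  have hmpos : 0 < x - y := by omega
  have hdpos : 0 < d := Nat.gcd_pos_of_pos_right _ hmpos
  have hddm : d ∣ x - y := Nat.gcd_dvd_right _ _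
  have hmm : x - y = m' * d := by rw [hm']; exact (Nat.div_mul_cancel hddm).symm
  have hm'0 : m' ≠ 0 := by
    intro h0
    rw [h0] at hmm; omega
  have hmZ : (x : ℤ) - y = m' * d := by
    have : ((x - y : ℕ) : ℤ) = m' * d := by rw [hmm]; push_cast; ring
    rw [Nat.cast_sub hxy.le] at this
    exact this
  have hdlam : d ∣ lam := Nat.gcd_dvd_left _ _
  have hn0 : (numOf L lam none : ℕ) = lam := rfl
  have hK1 : ((x : ℤ) - y) ∣ x * (g * x + 1) - (x + y) * lam := by
    have := hI.K1 none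
    rw [hn0] at this
    exact ⟨_, this.symm⟩
  have hcopx : IsCoprime (d : ℤ) (x : ℤ) := by
    have h1 : IsCoprime (x : ℤ) (y : ℤ) := Nat.isCoprime_iff_coprime.mpr hI.cop
    have h2 : IsCoprime ((x : ℤ) - y) x := by
      have := (h1.symm.add_mul_left_left (-1)).neg_left
      have e : -((y : ℤ) + x * -1) = x - y := by ring
      rwa [e] at this
    exact h2.of_isCoprime_of_dvd_left ⟨m', by rw [hmZ]; ring⟩
  have hdr : (d : ℤ) ∣ g * x + 1 := by
    have h0 : (d : ℤ) ∣ (x : ℤ) - y := ⟨m', by rw [hmZ]; ring⟩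
    have h1 : (d : ℤ) ∣ x * (g * x + 1) := by
      have h3 : (d : ℤ) ∣ (lam : ℤ) := by exact_mod_cast hdlam
      have := dvd_add (h0.trans hK1) (h3.mul_left ((x : ℤ) + y))
      have e : (x : ℤ) * (g * x + 1) - (x + y) * lam + (x + y) * lam = x * (g * x + 1) := by ring
      rwa [e] at this
    exact hcopx.dvd_of_dvd_mul_left h1
  have hR := hI.exists_rmat hmZ hm'0 hdr hT
  have hdle : d ≤ x - y := Nat.le_of_dvd hmpos hddm
  have hypos := hI.hy
  have hds : (d : ℤ) + 2 ≤ (x : ℤ) + y := by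
    have : d + 2 ≤ x + y := by omega
    exact_mod_cast this
  have key := sparse_num (g := (g : ℤ)) (s := (x : ℤ) + y) (d := (d : ℤ)) (l := l)
    (by exact_mod_cast hg) hT.l0 hT.l1 hds (by exact_mod_cast h1) (by exact_mod_cast h2)
  exact hR.false_of key.1 key.2

end IsLambdaDesign

end Pool.Agent.Lib.MP_93e743_co
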