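import Pool.Agent.Lib.MP_93e743_co.Defs

/-!
Pairwise independent events of the same probability `α > 1/2` on a probability space with one more
atom than events.
-/

namespace Pool.Agent.Lib.MP_93e743_co

open Finset

variable {ι X : Type*} [Fintype ι] [Fintype X] [DecidableEq ι] [DecidableEq X]

/-- Indicator. -/
def chi (A : ι → Finset X) (i : ι) (P : X) : ℚ := if P ∈ A i then 1 else 0

omit [Fintype ι] [Fintype X] [DecidableEq ι] in
lemma chi_mul_self (A : ι → Finset X) (i : ι) (P : X) : chi A i P * chi A i P = chi A i P := by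
  unfold chi; split <;> norm_num

/-- The system of sets attached to a `λ`-design. -/
structure Sys (A : ι → Finset X) (n : ι → ℕ) (α : ℚ) : Prop where
  card : Fintype.card ι = Fintype.card X + 1
  npos : ∀ i, 0 < n i
  half : 1 / 2 < α
  lt_one : α < 1
  s0 : ∑ i, (n i : ℚ)⁻¹ = (α * (1 - α))⁻¹
  s1 : ∀ P, ∑ i, chi A i P * (n i : ℚ)⁻¹ = (1 - α)⁻¹
  s2 : ∀ P Q, P ≠ Q → ∑ i, chi A i P * chi A i Q * (n i : ℚ)⁻¹ = α * (1 - α)⁻¹

namespace Sys

variable {A : ι → Finset X} {n : ι → ℕ} {α : ℚ}

lemma npos' (h : Sys A n α) (i : ι) : (0 : ℚ) < n i := by exact_mod_cast h.npos i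

lemma ne1 (h : Sys A n α) : (1 - α) ≠ 0 := by have := h.lt_one; intro h'; linarith

lemma ne0 (h : Sys A n α) : α ≠ 0 := by have := h.half; intro h'; rw [h'] at this; norm_num at this

/-- Dual orthogonality. -/
theorem dual (h : Sys A n α) (i j : ι) :
    α * (1 - α) + ∑ P, (chi A i P - α) * (chi A j P - α) = if i = j then (n i : ℚ) else 0 := by
  have hα := h.ne0
  have hα1 := h.ne1
  let C : Matrix (Option X) ι ℚ := fun o i => match o with
    | none => α * (1 - α) * (n i : ℚ)⁻¹
    | some P => (chi A i P - α) * (n i : ℚ)⁻¹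
  let R : Matrix ι (Option X) ℚ := fun i o => match o with
    | none => 1
    | some P => chi A i P - α
  have hCR : C * R = 1 := by
    ext o o'
    rw [Matrix.mul_apply]
    rcases o with _ | P <;> rcases o' with _ | Q
    · simp only [C, R, Matrix.one_apply_eq, mul_one]
      rw [← Finset.mul_sum, h.s0, mul_inv_cancel₀ (mul_ne_zero hα hα1)]
    · simp only [C, R]
      rw [Matrix.one_apply_ne (by simp)]
      have : ∀ i, α * (1 - α) * (n i : ℚ)⁻¹ * (chi A i Q - α) =
          α * (1 - α) * (chi A i Q * (n i : ℚ)⁻¹) - α * (1 - α) * α * (n i : ℚ)⁻¹ := by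
        intro i; ring
      simp_rw [this]
      rw [Finset.sum_sub_distrib, ← Finset.mul_sum, ← Finset.mul_sum, h.s0, h.s1]
      field_simp
      ring
    · simp only [C, R]
      rw [Matrix.one_apply_ne (by simp)]
      simp_rw [mul_one, sub_mul]
      rw [Finset.sum_sub_distrib, ← Finset.mul_sum, h.s0, h.s1]
      field_simp
      ring
    · simp only [C, R]
      have : ∀ i, (chi A i P - α) * (n i : ℚ)⁻¹ * (chi A i Q - α) =
          chi A i P * chi A i Q * (n i : ℚ)⁻¹ - α * (chi A i P * (n i : ℚ)⁻¹)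
            - α * (chi A i Q * (n i : ℚ)⁻¹) + α ^ 2 * (n i : ℚ)⁻¹ := by
        intro i; ring
      simp_rw [this]
      rw [Finset.sum_add_distrib, Finset.sum_sub_distrib, Finset.sum_sub_distrib, ← Finset.mul_sum,
        ← Finset.mul_sum, ← Finset.mul_sum, h.s0, h.s1, h.s1]
      by_cases hPQ : P = Q
      · subst hPQ
        rw [Matrix.one_apply_eq]
        simp_rw [chi_mul_self]
        rw [h.s1]
        field_simp
        ring
      · rw [Matrix.one_apply_ne (by simpa using hPQ), h.s2 P Q hPQ]
        field_simp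
        ring
  have hRC : R * C = 1 := by
    rw [Matrix.mul_eq_one_comm_of_card_eq]
    · exact hCR
    · rw [Fintype.card_option]; exact h.card
  have h1 := congrFun (congrFun hRC i) j
  rw [Matrix.mul_apply, Fintype.sum_option] at h1
  simp only [C, R, one_mul] at h1
  have hnj := (h.npos' j).ne'
  have h2 : (∑ P, (chi A i P - α) * ((chi A j P - α) * (n j : ℚ)⁻¹)) =
      (∑ P, (chi A i P - α) * (chi A j P - α)) * (n j : ℚ)⁻¹ := by
    rw [Finset.sum_mul]
    exact Finset.sum_congr rfl fun P _ => by ring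
  rw [h2, ← add_mul, Matrix.one_apply] at h1
  by_cases hij : i = j
  · subst hij
    rw [if_pos rfl] at h1 ⊢
    rwa [mul_inv_eq_one₀ hnj] at h1
  · rw [if_neg hij] at h1 ⊢
    rcases mul_eq_zero.mp h1 with h3 | h3
    · exact h3
    · exact absurd h3 (inv_ne_zero hnj)


/-- The size of `A i` as a rational number. -/
def sz (A : ι → Finset X) (i : ι) : ℚ := ∑ P, chi A i P

/-- The size of `A i ∩ A j` as a rational number. -/
def itr (A : ι → Finset X) (i j : ι) : ℚ := ∑ P, chi A i P * chi A j P

/-- The number of sets that contain `P` and `Q`. -/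
def prs (A : ι → Finset X) (P Q : X) : ℚ := ∑ i, chi A i P * chi A i Q

/-- The replication number. -/
def rr (X : Type*) [Fintype X] (α : ℚ) : ℚ := α * ((Fintype.card X : ℚ) - 1) + 1

omit [Fintype ι] [DecidableEq ι] in
lemma sum_sub_sub (A : ι → Finset X) (α : ℚ) (i j : ι) :
    ∑ P, (chi A i P - α) * (chi A j P - α) =
      itr A i j - α * (sz A i + sz A j) + (Fintype.card X : ℚ) * α ^ 2 := by
  have : ∀ P, (chi A i P - α) * (chi A j P - α) =
      chi A i P * chi A j P - α * chi A i P - α * chi A j P + α ^ 2 := by intro P; ring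
  simp_rw [this]
  rw [Finset.sum_add_distrib, Finset.sum_sub_distrib, Finset.sum_sub_distrib, ← Finset.mul_sum,
    ← Finset.mul_sum, Finset.sum_const, Finset.card_univ, nsmul_eq_mul]
  unfold itr sz
  ring

theorem n_eq (h : Sys A n α) (i : ι) :
    (n i : ℚ) = α * rr X α - (2 * α - 1) * sz A i := by
  have h1 := h.dual i i
  rw [if_pos rfl, sum_sub_sub] at h1
  have h2 : itr A i i = sz A i := by
    unfold itr sz
    exact Finset.sum_congr rfl fun P _ => chi_mul_self A i P
  rw [h2] at h1
  unfold rr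
  linarith

theorem itr_eq (h : Sys A n α) {i j : ι} (hij : i ≠ j) :
    itr A i j = α * (sz A i + sz A j) - α * rr X α := by
  have h1 := h.dual i j
  rw [if_neg hij, sum_sub_sub] at h1
  unfold rr
  linarith

theorem repl_eq (h : Sys A n α) (P : X) : ∑ i, chi A i P = rr X α := by
  have hα := h.ne0
  have hα1 := h.ne1
  have h1 : ∀ i, chi A i P - α = (α * rr X α - (2 * α - 1) * sz A i) * (chi A i P - α) *
      (n i : ℚ)⁻¹ := by
    intro i
    rw [← h.n_eq i]
    field_simp [(h.npos' i).ne']
  have h2 : ∑ i, (chi A i P - α) = ∑ i, (α * rr X α - (2 * α - 1) * sz A i) * (chi A i P - α) *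
      (n i : ℚ)⁻¹ := Finset.sum_congr rfl fun i _ => h1 i
  have h3 : ∑ i, (chi A i P - α) * (n i : ℚ)⁻¹ = 0 := by
    simp_rw [sub_mul]
    rw [Finset.sum_sub_distrib, ← Finset.mul_sum, h.s0, h.s1]
    field_simp
    ring
  have h4 : ∑ i, sz A i * (chi A i P - α) * (n i : ℚ)⁻¹ = 1 := by
    have : ∀ i, sz A i * (chi A i P - α) * (n i : ℚ)⁻¹ =
        ∑ Q, (chi A i Q * (chi A i P - α) * (n i : ℚ)⁻¹) := by
      intro i
      unfold sz
      rw [Finset.sum_mul, Finset.sum_mul]
    simp_rw [this]
    rw [Finset.sum_comm]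
    have hQ : ∀ Q, ∑ i, chi A i Q * (chi A i P - α) * (n i : ℚ)⁻¹ = if Q = P then 1 else 0 := by
      intro Q
      have : ∀ i, chi A i Q * (chi A i P - α) * (n i : ℚ)⁻¹ =
          chi A i Q * chi A i P * (n i : ℚ)⁻¹ - α * (chi A i Q * (n i : ℚ)⁻¹) := by
        intro i; ring
      simp_rw [this]
      rw [Finset.sum_sub_distrib, ← Finset.mul_sum, h.s1]
      split
      · next hQP =>
        subst hQP
        simp_rw [chi_mul_self]
        rw [h.s1]
        field_simp
      · next hQP =>
        rw [h.s2 Q P hQP]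
        ring
    simp_rw [hQ]
    simp
  have h5 : ∑ i, (α * rr X α - (2 * α - 1) * sz A i) * (chi A i P - α) * (n i : ℚ)⁻¹ =
      α * rr X α * (∑ i, (chi A i P - α) * (n i : ℚ)⁻¹) -
        (2 * α - 1) * ∑ i, sz A i * (chi A i P - α) * (n i : ℚ)⁻¹ := by
    rw [Finset.mul_sum, Finset.mul_sum, ← Finset.sum_sub_distrib]
    exact Finset.sum_congr rfl fun i _ => by ring
  rw [h5, h3, h4, Finset.sum_sub_distrib, Finset.sum_const, Finset.card_univ, h.card,
    nsmul_eq_mul] at h2
  push_cast at h2
  unfold rr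
  linarith

/-- The key identity. -/
theorem key (h : Sys A n α) (Q : X) :
    ∑ P ∈ univ.erase Q, (prs A P Q - α * rr X α) * (prs A P Q - α * rr X α + (2 * α - 1)) = 0 := by
  set r := rr X α with hr
  set v := (Fintype.card X : ℚ) with hv
  have hrv : α * (v - 1) = r - 1 := by rw [hr, rr]; ring
  -- sums over all P
  set aQ := ∑ i, chi A i Q * sz A i with haQ
  have hS1 : ∑ P, prs A P Q = aQ := by
    unfold prs
    rw [Finset.sum_comm]
    refine Finset.sum_congr rfl fun i _ => ?_
    rw [← Finset.sum_mul]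
    unfold sz
    ring
  have hrep : ∑ i, chi A i Q = r := h.repl_eq Q
  have hS2 : ∑ P, prs A P Q ^ 2 = 2 * α * r * aQ - α * r ^ 3 + α * r ^ 2 - (2 * α - 1) * aQ := by
    have h1 : ∀ P, prs A P Q ^ 2 = ∑ i, ∑ j, chi A i P * chi A j P * (chi A i Q * chi A j Q) := by
      intro P
      unfold prs
      rw [sq, Finset.sum_mul_sum]
      exact Finset.sum_congr rfl fun i _ => Finset.sum_congr rfl fun j _ => by ring
    simp_rw [h1]
    rw [Finset.sum_comm]
    have h2 : ∀ i, ∑ P, ∑ j, chi A i P * chi A j P * (chi A i Q * chi A j Q) =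
        ∑ j, (α * (sz A i + sz A j) - α * r + (if i = j then (n i : ℚ) else 0)) *
          (chi A i Q * chi A j Q) := by
      intro i
      rw [Finset.sum_comm]
      refine Finset.sum_congr rfl fun j _ => ?_
      rw [← Finset.sum_mul]
      congr 1
      change itr A i j = _
      by_cases hij : i = j
      · subst hij
        rw [if_pos rfl, h.n_eq i]
        have : itr A i i = sz A i := by
          unfold itr sz
          exact Finset.sum_congr rfl fun P _ => chi_mul_self A i P
        rw [this, ← hr]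
        ring
      · rw [if_neg hij, h.itr_eq hij, ← hr]
        ring
    rw [Finset.sum_congr rfl fun i _ => h2 i]
    have h3 : ∀ i, ∑ j, (α * (sz A i + sz A j) - α * r + (if i = j then (n i : ℚ) else 0)) *
          (chi A i Q * chi A j Q) =
        chi A i Q * (α * sz A i * r + α * aQ - α * r * r) + (n i : ℚ) * chi A i Q := by
      intro i
      have h4 : ∀ j, (α * (sz A i + sz A j) - α * r + (if i = j then (n i : ℚ) else 0)) *
          (chi A i Q * chi A j Q) = (chi A i Q * (α * sz A i - α * r)) * chi A j Q +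
            (chi A i Q * α) * (chi A j Q * sz A j) +
              (if i = j then (n i : ℚ) * (chi A i Q * chi A j Q) else 0) := by
        intro j
        split <;> ring
      simp_rw [h4]
      rw [Finset.sum_add_distrib, Finset.sum_add_distrib, ← Finset.mul_sum, ← Finset.mul_sum,
        Finset.sum_ite_eq, if_pos (Finset.mem_univ _), hrep, chi_mul_self]
      rw [← haQ]
      ring
    rw [Finset.sum_congr rfl fun i _ => h3 i, Finset.sum_add_distrib]
    have h5 : ∑ i, chi A i Q * (α * sz A i * r + α * aQ - α * r * r) =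
        α * r * aQ + (α * aQ - α * r * r) * r := by
      have : ∀ i, chi A i Q * (α * sz A i * r + α * aQ - α * r * r) =
          (α * r) * (chi A i Q * sz A i) + (α * aQ - α * r * r) * chi A i Q := by intro i; ring
      simp_rw [this]
      rw [Finset.sum_add_distrib, ← Finset.mul_sum, ← Finset.mul_sum, hrep]
    have h6 : ∑ i, (n i : ℚ) * chi A i Q = α * r * r - (2 * α - 1) * aQ := by
      have : ∀ i, (n i : ℚ) * chi A i Q =
          (α * r) * chi A i Q - (2 * α - 1) * (chi A i Q * sz A i) := by
        intro i; rw [h.n_eq i, ← hr]; ring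
      simp_rw [this]
      rw [Finset.sum_sub_distrib, ← Finset.mul_sum, ← Finset.mul_sum, hrep]
    rw [h5, h6]
    ring
  have hQQ : prs A Q Q = r := by
    rw [← hrep]
    unfold prs
    exact Finset.sum_congr rfl fun i _ => chi_mul_self A i Q
  have htot : ∑ P, (prs A P Q - α * r) * (prs A P Q - α * r + (2 * α - 1)) =
      (r - α * r) * (r - α * r + (2 * α - 1)) := by
    have h7 : ∀ P, (prs A P Q - α * r) * (prs A P Q - α * r + (2 * α - 1)) =
        prs A P Q ^ 2 + (2 * α - 1 - 2 * α * r) * prs A P Q + (α * r) * (α * r - (2 * α - 1)) := by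
      intro P; ring
    simp_rw [h7]
    rw [Finset.sum_add_distrib, Finset.sum_add_distrib, ← Finset.mul_sum, hS1, hS2,
      Finset.sum_const, Finset.card_univ, nsmul_eq_mul, ← hv]
    linear_combination (r * (α * r - (2 * α - 1))) * hrv
  rw [← Finset.add_sum_erase _ _ (Finset.mem_univ Q), hQQ] at htot
  linarith

end Sys

end Pool.Agent.Lib.MP_93e743_co
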