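import Pool.Agent.Lib.MP_93e743_co.Design

/-!
Constant pair counts imply that the `λ`-design is of type 1.
-/

namespace Pool.Agent.Lib.MP_93e743_co

open Finset

section sys

variable {ι X : Type*} [Fintype ι] [Fintype X] [DecidableEq ι] [DecidableEq X]
  {A : ι → Finset X} {n : ι → ℕ} {α : ℚ}

namespace Sys

theorem const_identity (h : Sys A n α) (c : ℚ) (hc : ∀ P Q, P ≠ Q → prs A P Q = c) (i : ι)
    (Q : X) :
    ((n i : ℚ) - (rr X α - c)) * chi A i Q =
      c * sz A i - α * rr X α * sz A i - α * (rr X α + c * ((Fintype.card X : ℚ) - 1)) +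
        α * rr X α ^ 2 := by
  set r := rr X α with hr
  have hQQ : prs A Q Q = r := by
    rw [hr, ← h.repl_eq Q]
    unfold prs
    exact Finset.sum_congr rfl fun i _ => chi_mul_self A i Q
  -- first computation of ∑_P χ_i(P) c(P,Q)
  have h1 : ∑ P, chi A i P * prs A P Q = c * (sz A i - chi A i Q) + r * chi A i Q := by
    rw [← Finset.add_sum_erase _ _ (Finset.mem_univ Q), hQQ]
    have h2 : ∑ P ∈ univ.erase Q, chi A i P * prs A P Q = ∑ P ∈ univ.erase Q, chi A i P * c :=
      Finset.sum_congr rfl fun P hP => by rw [hc P Q (Finset.mem_erase.mp hP).1]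
    have h3 : ∑ P ∈ univ.erase Q, chi A i P = sz A i - chi A i Q := by
      unfold sz
      rw [← Finset.add_sum_erase _ _ (Finset.mem_univ Q)]
      ring
    rw [h2, ← Finset.sum_mul, h3]
    ring
  have haQ : ∑ j, chi A j Q * sz A j = r + c * ((Fintype.card X : ℚ) - 1) := by
    have h2 : ∑ P, prs A P Q = ∑ j, chi A j Q * sz A j := by
      unfold prs
      rw [Finset.sum_comm]
      refine Finset.sum_congr rfl fun i _ => ?_
      rw [← Finset.sum_mul]
      unfold sz
      ring
    rw [← h2, ← Finset.add_sum_erase _ _ (Finset.mem_univ Q), hQQ]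
    have h3 : ∑ P ∈ univ.erase Q, prs A P Q = ∑ P ∈ univ.erase Q, c :=
      Finset.sum_congr rfl fun P hP => hc P Q (Finset.mem_erase.mp hP).1
    rw [h3, Finset.sum_const, Finset.card_erase_of_mem (Finset.mem_univ Q), Finset.card_univ,
      nsmul_eq_mul]
    have : 1 ≤ Fintype.card X := Fintype.card_pos_iff.mpr ⟨Q⟩
    rw [Nat.cast_sub this]
    push_cast; ring
  have h4 : ∑ P, chi A i P * prs A P Q = ∑ j, itr A i j * chi A j Q := by
    unfold prs itr
    simp_rw [Finset.mul_sum, Finset.sum_mul]
    rw [Finset.sum_comm]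
    exact Finset.sum_congr rfl fun j _ => Finset.sum_congr rfl fun P _ => by ring
  have h5 : ∀ j, itr A i j = α * (sz A i + sz A j) - α * r + if i = j then (n i : ℚ) else 0 := by
    intro j
    by_cases hij : i = j
    · subst hij
      rw [if_pos rfl, h.n_eq i]
      have : itr A i i = sz A i := by
        unfold itr sz
        exact Finset.sum_congr rfl fun P _ => chi_mul_self A i P
      rw [this, ← hr]
      ring
    · rw [if_neg hij, h.itr_eq hij, ← hr]
      ring
  have h6 : ∑ j, itr A i j * chi A j Q = α * sz A i * r + α * (r + c * ((Fintype.card X : ℚ) - 1)) -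
      α * r * r + (n i : ℚ) * chi A i Q := by
    have h7 : ∀ j, itr A i j * chi A j Q = (α * sz A i - α * r) * chi A j Q +
        α * (chi A j Q * sz A j) + (if i = j then (n i : ℚ) * chi A j Q else 0) := by
      intro j
      rw [h5 j]
      split <;> ring
    simp_rw [h7]
    rw [Finset.sum_add_distrib, Finset.sum_add_distrib, ← Finset.mul_sum, ← Finset.mul_sum, haQ,
      h.repl_eq Q, Finset.sum_ite_eq, if_pos (Finset.mem_univ _)]
    ring
  rw [h4, h6] at h1
  linear_combination h1

theorem const_n (h : Sys A n α) (c : ℚ) (hc : ∀ P Q, P ≠ Q → prs A P Q = c) (i : ι)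
    (hne : A i ≠ ∅) (hnu : A i ≠ univ) : (n i : ℚ) = rr X α - c := by
  obtain ⟨Q, hQ⟩ := Finset.nonempty_iff_ne_empty.mpr hne
  obtain ⟨Q', hQ'⟩ : ∃ Q', Q' ∉ A i := by
    by_contra hcon
    push Not at hcon
    exact hnu (Finset.eq_univ_iff_forall.mpr hcon)
  have h1 := h.const_identity c hc i Q
  have h2 := h.const_identity c hc i Q'
  have e1 : chi A i Q = 1 := by simp [chi, hQ]
  have e2 : chi A i Q' = 0 := by simp [chi, hQ']
  rw [e1] at h1
  rw [e2, mul_zero] at h2
  rw [← h2] at h1
  linarith

/-- At most one of the sets is trivial. -/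
theorem trivial_unique (h : Sys A n α) (hX : 1 < Fintype.card X) {i j : ι} (hij : i ≠ j)
    (hi : A i = ∅ ∨ A i = univ) (hj : A j = ∅ ∨ A j = univ) : False := by
  have h1 := h.dual i j
  rw [if_neg hij] at h1
  have hα := h.half
  have hα1 := h.lt_one
  have hXq : (1 : ℚ) < Fintype.card X := by exact_mod_cast hX
  have hch0 : ∀ i, A i = ∅ → ∀ P, chi A i P = 0 := by intro i hi P; simp [chi, hi]
  have hch1 : ∀ i, A i = univ → ∀ P, chi A i P = 1 := by intro i hi P; simp [chi, hi]
  have hpos : 0 < α * (1 - α) := mul_pos (by linarith) (by linarith)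
  rcases hi with hi | hi <;> rcases hj with hj | hj
  · simp_rw [hch0 i hi, hch0 j hj] at h1
    rw [Finset.sum_const, Finset.card_univ, nsmul_eq_mul] at h1
    nlinarith [sq_nonneg α]
  · simp_rw [hch0 i hi, hch1 j hj] at h1
    rw [Finset.sum_const, Finset.card_univ, nsmul_eq_mul] at h1
    nlinarith
  · simp_rw [hch1 i hi, hch0 j hj] at h1
    rw [Finset.sum_const, Finset.card_univ, nsmul_eq_mul] at h1
    nlinarith
  · simp_rw [hch1 i hi, hch1 j hj] at h1
    rw [Finset.sum_const, Finset.card_univ, nsmul_eq_mul] at h1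
    nlinarith [sq_nonneg (1 - α)]

end Sys

end sys

section design

variable {v lam : ℕ} {L : Finset (Finset (Fin v))}

namespace IsLambdaDesign

/-- The integral system attached to a `λ`-design. -/
theorem exists_intSys (h : IsLambdaDesign v lam L) :
    ∃ (E : Finset (Fin v)) (x y g : ℕ), E ≠ ∅ ∧ E ≠ univ ∧
      IntSys (setOf' L E) (numOf L lam) x y g ∧
      (∀ P, P ∉ E → repl L P = g * x + 1) ∧ (∀ P, P ∈ E → repl L P = g * y + 1) := by
  obtain ⟨E, α, hE1, hE2, hS⟩ := h.exists_sys
  have hv := h.one_lt_v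
  have hα := hS.half
  have hα1 := hS.lt_one
  have hvq : (1 : ℚ) < v := by exact_mod_cast hv
  -- the number of sets that contain a given point
  obtain ⟨P0, hP0⟩ : ∃ P, P ∉ E := by
    by_contra hcon
    push Not at hcon
    exact hE2 (Finset.eq_univ_iff_forall.mpr hcon)
  have hcount : ∀ P, ((univ.filter fun i => P ∈ setOf' L E i).card : ℚ) = α * ((v : ℚ) - 1) + 1 := by
    intro P
    have h1 := hS.repl_eq P
    unfold chi Sys.rr at h1
    rw [Finset.sum_boole, Fintype.card_fin] at h1
    exact h1
  set R := (univ.filter fun i => P0 ∈ setOf' L E i).card with hR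
  have hR0 := hcount P0
  rw [← hR] at hR0
  have hR1 : 1 < R := by
    have : (1 : ℚ) < R := by rw [hR0]; nlinarith
    exact_mod_cast this
  have hRv : R < v := by
    have : (R : ℚ) < v := by rw [hR0]; nlinarith
    exact_mod_cast this
  have hcountN : ∀ P, (univ.filter fun i => P ∈ setOf' L E i).card = R := by
    intro P
    have h1 := hcount P
    rw [← hR0] at h1
    exact_mod_cast h1
  -- R - 1 = g x, v - R = g y
  set a := R - 1 with ha
  set b := v - R with hb
  have haq : (a : ℚ) = α * ((v : ℚ) - 1) := by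
    rw [ha, Nat.cast_sub (by omega)]; push_cast; linarith
  have hbq : (b : ℚ) = (1 - α) * ((v : ℚ) - 1) := by
    rw [hb, Nat.cast_sub (by omega)]; linarith
  have hapos : 0 < a := by omega
  have hbpos : 0 < b := by omega
  have hba : b < a := by
    have : (b : ℚ) < a := by rw [haq, hbq]; nlinarith
    exact_mod_cast this
  set g := Nat.gcd a b with hg
  have hgpos : 0 < g := Nat.gcd_pos_of_pos_left _ hapos
  have hga : g * (a / g) = a := Nat.mul_div_cancel' (Nat.gcd_dvd_left a b)
  have hgb : g * (b / g) = b := Nat.mul_div_cancel' (Nat.gcd_dvd_right a b)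
  set x := a / g with hx
  set y := b / g with hy
  have hcop : Nat.Coprime x y := Nat.coprime_div_gcd_div_gcd hgpos
  have hypos : 0 < y := by
    rcases Nat.eq_zero_or_pos y with h0 | h0
    · rw [h0] at hgb; omega
    · exact h0
  have hxy : y < x := by
    have : g * y < g * x := by rw [hga, hgb]; exact hba
    exact lt_of_mul_lt_mul_left this (Nat.zero_le _)
  have hab : g * (x + y) = v - 1 := by rw [mul_add, hga, hgb]; omega
  have hαxy : α = (x : ℚ) / (x + y) := by
    have h1 : ((g : ℚ) * (x + y)) = (v : ℚ) - 1 := by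
      have : ((g * (x + y) : ℕ) : ℚ) = ((v - 1 : ℕ) : ℚ) := by rw [hab]
      rw [Nat.cast_sub (by omega)] at this
      push_cast at this
      exact this
    have h2 : (g : ℚ) * x = a := by exact_mod_cast hga
    rw [haq, ← h1] at h2
    have hgq : (g : ℚ) ≠ 0 := by exact_mod_cast hgpos.ne'
    have hxyq : ((x : ℚ) + y) ≠ 0 := by
      have : (0 : ℚ) < y := by exact_mod_cast hypos
      have : (0 : ℚ) ≤ x := by positivity
      linarith
    rw [eq_div_iff hxyq]
    have h3 : (g : ℚ) * (α * (x + y)) = g * x := by linear_combination -h2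
    exact mul_left_cancel₀ hgq h3
  refine ⟨E, x, y, g, hE1, hE2, ⟨hαxy ▸ hS, hcop, hypos, hxy, hgpos, ?_⟩, ?_, ?_⟩
  · rw [Fintype.card_fin, hab]; omega
  · intro P hP
    rw [hga]
    have h1 := hcountN P
    rw [Finset.card_filter, Fintype.sum_option] at h1
    have h2 : (if P ∈ setOf' L E none then 1 else 0) = 0 := by
      rw [if_neg]; exact hP
    rw [h2, zero_add] at h1
    have h3 : ∑ B : {B // B ∈ L}, (if P ∈ setOf' L E (some B) then 1 else 0 : ℕ) =
        repl L P := by
      unfold repl
      rw [Finset.card_filter, ← Finset.sum_coe_sort L (fun B => if P ∈ B then 1 else 0)]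
      refine Finset.sum_congr rfl fun B _ => ?_
      simp only [setOf', Finset.mem_symmDiff, hP, not_false_eq_true, and_true, false_and, or_false]
    rw [h3] at h1
    omega
  · intro P hP
    rw [hgb]
    have h1 := hcountN P
    rw [Finset.card_filter, Fintype.sum_option] at h1
    have h2 : (if P ∈ setOf' L E none then 1 else 0) = 1 := by
      rw [if_pos]; exact hP
    rw [h2] at h1
    have h3 : ∑ B : {B // B ∈ L}, (if P ∈ setOf' L E (some B) then 1 else 0 : ℕ) +
        repl L P = v := by
      unfold repl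
      rw [Finset.card_filter, ← Finset.sum_coe_sort L (fun B => if P ∈ B then 1 else 0),
        ← Finset.sum_add_distrib]
      have : ∀ B : {B // B ∈ L}, ((if P ∈ setOf' L E (some B) then 1 else 0) +
          (if P ∈ B.1 then 1 else 0) : ℕ) = 1 := by
        intro B
        simp only [setOf', Finset.mem_symmDiff, hP]
        by_cases h4 : P ∈ B.1 <;> simp [h4]
      simp_rw [this]
      rw [Finset.sum_const, Finset.card_univ, Fintype.card_coe, h.card_eq]
      simp
    omega

/-- Constant pair counts imply type-1. -/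
theorem isType1_of_const (h : IsLambdaDesign v lam L) {E : Finset (Fin v)} {x y g : ℕ}
    (hE1 : E ≠ ∅) (hE2 : E ≠ univ) (hI : IntSys (setOf' L E) (numOf L lam) x y g)
    (hc : ∃ c, ∀ P Q, P ≠ Q → cc (setOf' L E) P Q = c) : IsType1 v L := by
  classical
  obtain ⟨c, hc⟩ := hc
  have hv := h.one_lt_v
  have hS := hI.sys
  have hcq : ∀ P Q, P ≠ Q → Sys.prs (setOf' L E) P Q = (c : ℚ) := by
    intro P Q hPQ; rw [prs_eq, hc P Q hPQ]
  have hcardX : 1 < Fintype.card (Fin v) := by rw [Fintype.card_fin]; exact hv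
  -- the number attached to the nontrivial sets
  have hn : ∀ i, setOf' L E i ≠ ∅ → setOf' L E i ≠ univ → (numOf L lam i) = lam := by
    intro i h1 h2
    have h3 := hS.const_n (c : ℚ) hcq i h1 h2
    have h4 := hS.const_n (c : ℚ) hcq none hE1 hE2
    rw [← h4] at h3
    exact_mod_cast h3
  -- some set is trivial
  obtain ⟨B0, hB0⟩ : ∃ B : {B // B ∈ L}, setOf' L E (some B) = ∅ ∨ setOf' L E (some B) = univ := by
    by_contra hcon
    push Not at hcon
    obtain ⟨B, hB, B', hB', hne⟩ := h.nonconst
    have h1 := hn (some ⟨B, hB⟩) (hcon ⟨B, hB⟩).1.ne_empty (hcon ⟨B, hB⟩).2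
    have h2 := hn (some ⟨B', hB'⟩) (hcon ⟨B', hB'⟩).1.ne_empty (hcon ⟨B', hB'⟩).2
    have h3 := h.lt_card B hB
    have h4 := h.lt_card B' hB'
    simp only [numOf] at h1 h2
    omega
  have hother : ∀ B : {B // B ∈ L}, B ≠ B0 → B.1.card = 2 * lam := by
    intro B hB
    have h1 : some B ≠ some B0 := fun h' => hB (Option.some.inj h')
    have h2 : setOf' L E (some B) ≠ ∅ ∧ setOf' L E (some B) ≠ univ := by
      constructor
      · intro h3; exact hS.trivial_unique hcardX h1 (Or.inl h3) hB0
      · intro h3; exact hS.trivial_unique hcardX h1 (Or.inr h3) hB0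
    have h3 := hn (some B) h2.1 h2.2
    have h4 := h.lt_card B.1 B.2
    simp only [numOf] at h3
    omega
  -- the symmetric design
  set C0 : Finset (Fin v) := univ \ B0.1 with hC0
  have hC0c : C0 = B0.1ᶜ := by rw [hC0, Finset.compl_eq_univ_sdiff]
  let φ : Finset (Fin v) → Finset (Fin v) := fun B => symmDiff B C0
  have hφφ : ∀ B, φ (φ B) = B := fun B => symmDiff_symmDiff_cancel_right C0 B
  have hφinj : Function.Injective φ := fun B B' hh => by
    have := congrArg φ hh; rwa [hφφ, hφφ] at this
  have hφ0 : ∀ B ∈ L.erase B0.1, φ B ≠ C0 := by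
    intro B hB h1
    have h2 : B = ∅ := by
      have : φ B = φ ∅ := by rw [h1]; exact (bot_symmDiff C0).symm
      exact hφinj this
    have h3 := h.lt_card B (Finset.mem_of_mem_erase hB)
    rw [h2] at h3
    simp at h3
  let S : Finset (Finset (Fin v)) := insert C0 ((L.erase B0.1).image φ)
  have hC0S : C0 ∉ (L.erase B0.1).image φ := by
    intro h1
    obtain ⟨B, hB, h2⟩ := Finset.mem_image.mp h1
    exact hφ0 B hB h2
  have hSerase : S.erase C0 = (L.erase B0.1).image φ := Finset.erase_insert hC0S
  have hsize : ∀ C ∈ S, C.card = v - B0.1.card := by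
    intro C hC
    have hcC0 : C0.card = v - B0.1.card := by
      rw [hC0c, Finset.card_compl, Fintype.card_fin]
    rcases Finset.mem_insert.mp hC with rfl | hC
    · exact hcC0
    · obtain ⟨B, hB, rfl⟩ := Finset.mem_image.mp hC
      have hBL := Finset.mem_of_mem_erase hB
      have hBne : B ≠ B0.1 := Finset.ne_of_mem_erase hB
      have h1 := hother ⟨B, hBL⟩ (fun h' => hBne (congrArg Subtype.val h'))
      have h2 := h.inter B hBL B0.1 B0.2 hBne
      have h3 : B \ C0 = B ∩ B0.1 := by
        ext P; simp [hC0]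
      have h4 : C0 \ B = univ \ (B ∪ B0.1) := by
        ext P; simp [hC0, and_comm]
      have h5 : (φ B).card = (B \ C0).card + (C0 \ B).card := by
        change (symmDiff B C0).card = _
        rw [symmDiff_def, Finset.sup_eq_union, Finset.card_union_of_disjoint]
        exact disjoint_sdiff_sdiff
      have h6 := Finset.card_union_add_card_inter B B0.1
      have h7 : (univ \ (B ∪ B0.1)).card = v - (B ∪ B0.1).card := by
        rw [← Finset.compl_eq_univ_sdiff, Finset.card_compl, Fintype.card_fin]
      have h8 : (B ∪ B0.1).card ≤ v := by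
        have := Finset.card_le_univ (B ∪ B0.1)
        rwa [Fintype.card_fin] at this
      rw [h5, h3, h4, h7, h2]
      dsimp only at h1
      omega
  -- membership in terms of the system
  have hSfilter : ∀ (p : Finset (Fin v) → Prop) [DecidablePred p], (S.filter p).card =
      (if p C0 then 1 else 0) + ((L.erase B0.1).filter fun B => p (φ B)).card := by
    intro p _
    rw [Finset.card_filter, Finset.sum_insert hC0S, Finset.sum_image (fun a _ b _ hh => hφinj hh),
      ← Finset.card_filter]
  have hLfilter : ∀ (q : Finset (Fin v) → Prop) [DecidablePred q], ((L.erase B0.1).filter q).card +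
      (if q B0.1 then 1 else 0) = ∑ B : {B // B ∈ L}, if q B.1 then 1 else 0 := by
    intro q _
    rw [Finset.card_filter, Finset.sum_coe_sort L (fun B => if q B then 1 else 0),
      Finset.sum_erase_add _ _ B0.2]
  refine ⟨v - B0.1.card, ?_⟩
  have hLeq : L = insert (univ \ C0) ((S.erase C0).image fun C => (C \ C0) ∪ (C0 \ C)) := by
    have h1 : univ \ C0 = B0.1 := by rw [hC0]; simp
    rw [h1, hSerase, Finset.image_image]
    have h2 : ((fun C => (C \ C0) ∪ (C0 \ C)) ∘ φ) = id := by
      funext B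
      exact hφφ B
    rw [h2, Finset.image_id, Finset.insert_erase B0.2]
  have hcard : S.card = v := by
    rw [Finset.card_insert_of_notMem hC0S, Finset.card_image_of_injective _ hφinj,
      Finset.card_erase_of_mem B0.2, h.card_eq]
    omega
  have hccEq : ∀ P Q, P ≠ Q → (if P ∈ E ∧ Q ∈ E then 1 else 0) +
      ∑ B : {B // B ∈ L}, (if P ∈ symmDiff B.1 E ∧ Q ∈ symmDiff B.1 E then 1 else 0) = c := by
    intro P Q hPQ
    rw [← hc P Q hPQ]
    unfold cc
    rw [Finset.card_filter, Fintype.sum_option]
    rfl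
  have hrep : ∀ P, (if P ∈ E then 1 else 0) +
      ∑ B : {B // B ∈ L}, (if P ∈ symmDiff B.1 E then 1 else 0) = g * x + 1 := by
    intro P
    rw [← hI.repl_card P, Finset.card_filter, Fintype.sum_option]
    rfl
  rcases hB0 with hB0 | hB0
  · -- B0 = E
    have hBE : B0.1 = E := by
      have : symmDiff B0.1 E = ⊥ := hB0
      exact symmDiff_eq_bot.mp this
    refine ⟨(v + 1) + c - 2 * (g * x + 1) - 1, S, hcard, hsize, ?_, C0,
      Finset.mem_insert_self _ _, hLeq⟩
    intro P Q hPQ
    rw [hSfilter]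
    have h1 := hLfilter (fun B => P ∈ φ B ∧ Q ∈ φ B)
    have hmem : ∀ (B : Finset (Fin v)) (P : Fin v), P ∈ φ B ↔ P ∉ symmDiff B E := by
      intro B P
      simp only [φ, Finset.mem_symmDiff, hC0, hBE, Finset.mem_sdiff, Finset.mem_univ, true_and]
      tauto
    have h2 : (if P ∈ φ B0.1 ∧ Q ∈ φ B0.1 then 1 else 0) = 1 := by
      rw [if_pos]
      rw [hmem, hmem, hBE, symmDiff_self]
      simp
    rw [h2] at h1
    -- inclusion-exclusion
    have h3 : ∀ B : {B // B ∈ L}, ((if P ∈ φ B.1 ∧ Q ∈ φ B.1 then 1 else 0) +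
        (if P ∈ symmDiff B.1 E then 1 else 0) + (if Q ∈ symmDiff B.1 E then 1 else 0) : ℕ) =
          1 + (if P ∈ symmDiff B.1 E ∧ Q ∈ symmDiff B.1 E then 1 else 0) := by
      intro B
      have e1 := hmem B.1 P
      have e2 := hmem B.1 Q
      by_cases h4 : P ∈ symmDiff B.1 E <;> by_cases h5 : Q ∈ symmDiff B.1 E <;>
        simp only [e1, e2, h4, h5, not_true, not_false_eq_true, and_true, and_false, if_true,
          if_false]
    have h4 : ∑ B : {B // B ∈ L}, ((if P ∈ φ B.1 ∧ Q ∈ φ B.1 then 1 else 0) +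
        (if P ∈ symmDiff B.1 E then 1 else 0) + (if Q ∈ symmDiff B.1 E then 1 else 0) : ℕ) =
          ∑ B : {B // B ∈ L}, (1 + (if P ∈ symmDiff B.1 E ∧ Q ∈ symmDiff B.1 E then 1 else 0)) :=
      Finset.sum_congr rfl fun B _ => h3 B
    rw [Finset.sum_add_distrib, Finset.sum_add_distrib, Finset.sum_add_distrib, Finset.sum_const,
      Finset.card_univ, Fintype.card_coe, h.card_eq, smul_eq_mul, mul_one] at h4
    have h5 : ((if P ∈ C0 ∧ Q ∈ C0 then 1 else 0) + (if P ∈ E then 1 else 0) +
        (if Q ∈ E then 1 else 0) : ℕ) = 1 + (if P ∈ E ∧ Q ∈ E then 1 else 0) := by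
      have h6 : ∀ P, P ∈ C0 ↔ P ∉ E := by intro P; simp [hC0, hBE]
      have e1 := h6 P
      have e2 := h6 Q
      by_cases h7 : P ∈ E <;> by_cases h8 : Q ∈ E <;>
        simp only [e1, e2, h7, h8, not_true, not_false_eq_true, and_true, and_false, if_true,
          if_false]
    have h6 := hccEq P Q hPQ
    have h7 := hrep P
    have h8 := hrep Q
    omega
  · -- B0 = Eᶜ
    have hBE : C0 = E := by
      have : symmDiff B0.1 E = ⊤ := hB0
      rw [symmDiff_eq_top] at this
      rw [hC0c]
      exact this.compl_eq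
    refine ⟨c - 1, S, hcard, hsize, ?_, C0, Finset.mem_insert_self _ _, hLeq⟩
    intro P Q hPQ
    rw [hSfilter]
    have h1 := hLfilter (fun B => P ∈ φ B ∧ Q ∈ φ B)
    have h2 : (if P ∈ φ B0.1 ∧ Q ∈ φ B0.1 then 1 else 0) = 1 := by
      rw [if_pos]
      have : φ B0.1 = univ := by
        change symmDiff B0.1 C0 = univ
        rw [hBE]; exact hB0
      rw [this]; simp
    rw [h2] at h1
    have h6 := hccEq P Q hPQ
    have h7 : ∀ B, φ B = symmDiff B E := by intro B; rw [← hBE]
    simp_rw [h7] at h1 ⊢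
    rw [hBE]
    omega

end IsLambdaDesign

end design

end Pool.Agent.Lib.MP_93e743_co
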